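import Mathlib

/-! # Degree theory by area formulas: the null Lagrangian property of the determinant
for Lipschitz maps. -/

open MeasureTheory Module Filter Topology Set
open scoped NNReal ENNReal

set_option linter.unusedSectionVars false
set_option linter.unusedVariables false

namespace Pool.Agent.Helper90.Deg

variable {E : Type*} [NormedAddCommGroup E] [NormedSpace ℝ E] [FiniteDimensional ℝ E]
  [MeasurableSpace E] [BorelSpace E] (μ : Measure E) [μ.IsAddHaarMeasure]

theorem null_image {F : E → E} {L : ℝ≥0} (hF : LipschitzWith L F) {s : Set E} (hs : μ s = 0) :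
    μ (F '' s) = 0 := by
  have h1 : (μH[finrank ℝ E] : Measure E) s = 0 :=
    (Measure.absolutelyContinuous_isAddHaarMeasure (μH[finrank ℝ E] : Measure E) μ) hs
  have h2 := hF.hausdorffMeasure_image_le (d := finrank ℝ E) (by positivity) s
  rw [h1, mul_zero] at h2
  exact (Measure.absolutelyContinuous_isAddHaarMeasure μ (μH[finrank ℝ E] : Measure E))
    (le_antisymm h2 bot_le)

theorem meas_diff {F : E → E} (hF : Continuous F) : MeasurableSet {x | DifferentiableAt ℝ F x} :=
  measurableSet_of_differentiableAt ℝ F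

theorem meas_det (F : E → E) : Measurable fun x => (fderiv ℝ F x).det :=
  (ContinuousLinearMap.continuous_det).measurable.comp (measurable_fderiv ℝ F)

theorem vol_image {F : E → E} {L : ℝ≥0} (hF : LipschitzWith L F) (hinj : Function.Injective F)
    {K : Set E} (hK : MeasurableSet K) :
    ∫⁻ x in K, ENNReal.ofReal |(fderiv ℝ F x).det| ∂μ = μ (F '' K) := by
  set s := K ∩ {x | DifferentiableAt ℝ F x} with hs
  have hsm : MeasurableSet s := hK.inter (meas_diff hF.continuous)
  have hnull : μ (K \ s) = 0 := by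
    have h1 := hF.ae_differentiableAt (μ := μ)
    rw [ae_iff] at h1
    refine measure_mono_null ?_ h1
    intro x hx
    by_contra hcon
    exact hx.2 ⟨hx.1, not_not.mp hcon⟩
  have hae : s =ᵐ[μ] K := by
    refine ae_eq_set.mpr ⟨?_, hnull⟩
    rw [Set.sdiff_eq_empty.mpr inter_subset_left]
    exact measure_empty
  rw [← setLIntegral_congr hae]
  rw [lintegral_abs_det_fderiv_eq_addHaar_image μ hsm
    (fun x hx => (hx.2.hasFDerivAt).hasFDerivWithinAt) hinj.injOn]
  have h2 : F '' K = F '' s ∪ F '' (K \ s) := by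
    rw [← image_union]
    congr 1
    rw [union_sdiff_cancel inter_subset_left]
  refine le_antisymm (measure_mono (image_mono inter_subset_left)) ?_
  rw [h2]
  refine (measure_union_le _ _).trans ?_
  rw [null_image μ hF hnull, add_zero]

theorem det_pos {A : E →L[ℝ] E} {s : ℝ} (h : ‖A‖ < s) :
    0 < (A + s • ContinuousLinearMap.id ℝ E).det := by
  have hs : 0 < s := (norm_nonneg _).trans_lt h
  -- the path
  let p : ℝ → ℝ := fun t => (t • A + s • ContinuousLinearMap.id ℝ E).det
  have hpc : Continuous p := ContinuousLinearMap.continuous_det.comp (by fun_prop)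
  have hne : ∀ t ∈ Icc (0 : ℝ) 1, p t ≠ 0 := by
    intro t ht h0
    have hk : ∃ v : E, v ≠ 0 ∧ (t • A + s • ContinuousLinearMap.id ℝ E) v = 0 := by
      by_contra hcon
      push Not at hcon
      have hinj : Function.Injective (t • A + s • ContinuousLinearMap.id ℝ E).toLinearMap := by
        rw [injective_iff_map_eq_zero]
        intro v hv
        by_contra hv0
        exact hcon v hv0 hv
      have hu : IsUnit ((t • A + s • ContinuousLinearMap.id ℝ E).toLinearMap) := by
        rw [LinearMap.isUnit_iff_ker_eq_bot]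
        exact LinearMap.ker_eq_bot.mpr hinj
      have := LinearMap.isUnit_det _ hu
      exact this.ne_zero h0
    obtain ⟨v, hv, hAv⟩ := hk
    have h1 : s • v = -(t • A v) := by
      rw [eq_neg_iff_add_eq_zero, add_comm]
      simpa using hAv
    have h2 : s * ‖v‖ ≤ ‖A‖ * ‖v‖ := by
      calc s * ‖v‖ = ‖s • v‖ := by rw [norm_smul, Real.norm_eq_abs, abs_of_pos hs]
        _ = ‖t • A v‖ := by rw [h1, norm_neg]
        _ = |t| * ‖A v‖ := by rw [norm_smul, Real.norm_eq_abs]
        _ ≤ 1 * ‖A v‖ := by
            refine mul_le_mul_of_nonneg_right ?_ (norm_nonneg _)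
            rw [abs_of_nonneg ht.1]; exact ht.2
        _ = ‖A v‖ := one_mul _
        _ ≤ ‖A‖ * ‖v‖ := A.le_opNorm v
    have h3 := le_of_mul_le_mul_right h2 (norm_pos_iff.mpr hv)
    linarith
  have h0 : 0 < p 0 := by
    have : p 0 = (s • ContinuousLinearMap.id ℝ E).det := by simp [p]
    rw [this]
    have : (s • ContinuousLinearMap.id ℝ E).det = s ^ finrank ℝ E := by
      show LinearMap.det ((s • ContinuousLinearMap.id ℝ E : E →L[ℝ] E) : E →ₗ[ℝ] E) = _
      have e : ((s • ContinuousLinearMap.id ℝ E : E →L[ℝ] E) : E →ₗ[ℝ] E) = s • LinearMap.id := rfl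
      rw [e, LinearMap.det_smul, LinearMap.det_id, mul_one]
    rw [this]
    positivity
  have h1 : 0 < p 1 := by
    by_contra hcon
    push Not at hcon
    obtain ⟨t, ht, ht0⟩ := intermediate_value_Icc' (zero_le_one) hpc.continuousOn ⟨hcon, h0.le⟩
    exact hne t ht ht0
  have : p 1 = (A + s • ContinuousLinearMap.id ℝ E).det := by simp [p]
  rw [← this]
  exact h1

theorem add_inj {F : E → E} {L : ℝ≥0} (hF : LipschitzWith L F) {s : ℝ} (hs : L < s) :
    Function.Injective (fun x => F x + s • x) := by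
  intro x y hxy
  simp only at hxy
  have hs0 : 0 < s := L.2.trans_lt hs
  have h1 : s • (x - y) = -(F x - F y) := by
    rw [smul_sub, eq_neg_iff_add_eq_zero]
    have : s • x - s • y + (F x - F y) = (F x + s • x) - (F y + s • y) := by abel
    rw [this, hxy, sub_self]
  have h2 : s * ‖x - y‖ ≤ L * ‖x - y‖ := by
    calc s * ‖x - y‖ = ‖s • (x - y)‖ := by rw [norm_smul, Real.norm_eq_abs, abs_of_pos hs0]
      _ = ‖F x - F y‖ := by rw [h1, norm_neg]
      _ ≤ L * ‖x - y‖ := by
          rw [← dist_eq_norm, ← dist_eq_norm]; exact hF.dist_le_mul x y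
  by_contra hne
  have h3 : 0 < ‖x - y‖ := norm_pos_iff.mpr (sub_ne_zero.mpr hne)
  have := le_of_mul_le_mul_right h2 h3
  linarith

theorem add_surj {F : E → E} {L : ℝ≥0} (hF : LipschitzWith L F) {s : ℝ} (hs : L < s) :
    Function.Surjective (fun x => F x + s • x) := by
  intro y
  have hs0 : 0 < s := L.2.trans_lt hs
  let T : E → E := fun x => s⁻¹ • (y - F x)
  have hT : ContractingWith (Real.toNNReal (L / s)) T := by
    refine ⟨?_, ?_⟩
    · rw [← NNReal.coe_lt_coe, Real.coe_toNNReal _ (by positivity), NNReal.coe_one, div_lt_one hs0]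
      exact hs
    · apply LipschitzWith.of_dist_le_mul
      intro a b
      have h1 : T a - T b = s⁻¹ • (F b - F a) := by
        simp only [T]
        rw [← smul_sub]
        congr 1
        abel
      rw [dist_eq_norm, h1, norm_smul, Real.norm_eq_abs, abs_of_pos (inv_pos.mpr hs0),
        Real.coe_toNNReal _ (by positivity), ← dist_eq_norm, dist_comm]
      calc s⁻¹ * dist (F a) (F b) ≤ s⁻¹ * (L * dist a b) :=
            mul_le_mul_of_nonneg_left (hF.dist_le_mul a b) (inv_nonneg.mpr hs0.le)
        _ = L / s * dist a b := by ring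
  have h2 := hT.fixedPoint_isFixedPt
  set x := ContractingWith.fixedPoint T hT with hx
  refine ⟨x, ?_⟩
  have h3 : s⁻¹ • (y - F x) = x := h2
  have h4 : s • x = y - F x := by
    conv_lhs => rw [← h3]
    rw [smul_inv_smul₀ hs0.ne']
  simp only
  rw [h4]
  abel

theorem lip_add {F : E → E} {L : ℝ≥0} (hF : LipschitzWith L F) (s : ℝ) :
    LipschitzWith (L + ‖s‖₊) (fun x => F x + s • x) := by
  apply hF.add
  have := (LipschitzWith.id (α := E))
  apply LipschitzWith.of_dist_le_mul
  intro x y
  rw [dist_smul₀, coe_nnnorm]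

theorem fderiv_add_smul {F : E → E} {x : E} (h : DifferentiableAt ℝ F x) (s : ℝ) :
    fderiv ℝ (fun x => F x + s • x) x = fderiv ℝ F x + s • ContinuousLinearMap.id ℝ E := by
  have h1 : HasFDerivAt (fun x : E => s • x) (s • ContinuousLinearMap.id ℝ E) x :=
    (hasFDerivAt_id x).const_smul s
  exact (h.hasFDerivAt.add h1).fderiv

/-- integral of the determinant of `F + s` is the volume of the image -/
theorem int_det_add {F : E → E} {L : ℝ≥0} (hF : LipschitzWith L F) {s : ℝ} (hs : L < s)
    {K : Set E} (hK : MeasurableSet K) :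
    ∫ x in K, (fderiv ℝ F x + s • ContinuousLinearMap.id ℝ E).det ∂μ =
      (μ ((fun x => F x + s • x) '' K)).toReal := by
  rw [← vol_image μ (lip_add hF s) (add_inj hF hs) hK]
  have hd := hF.ae_differentiableAt (μ := μ)
  have hpos : ∀ x, 0 < (fderiv ℝ F x + s • ContinuousLinearMap.id ℝ E).det := fun x =>
    det_pos ((norm_fderiv_le_of_lipschitz ℝ hF).trans_lt hs)
  have hm : Measurable fun x => (fderiv ℝ F x + s • ContinuousLinearMap.id ℝ E).det :=
    ContinuousLinearMap.continuous_det.measurable.comp ((measurable_fderiv ℝ F).add_const _)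
  rw [integral_eq_lintegral_of_nonneg_ae (Eventually.of_forall fun x => (hpos x).le)
    hm.aestronglyMeasurable]
  congr 1
  apply lintegral_congr_ae
  filter_upwards [ae_restrict_of_ae hd] with x hx
  rw [fderiv_add_smul hx, abs_of_pos (hpos x)]

/-- interpolation of the determinant -/
theorem det_interp (E : Type*) [NormedAddCommGroup E] [NormedSpace ℝ E] [FiniteDimensional ℝ E]
    (s₀ : ℝ) : ∃ (c : ℕ → ℝ) (n : ℕ), ∀ A : E →L[ℝ] E,
    A.det = ∑ i ∈ Finset.range n, c i * (A + (s₀ + i) • ContinuousLinearMap.id ℝ E).det := by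
  classical
  let v : ℕ → ℝ := fun i => s₀ + i
  have hv : Function.Injective v := by
    intro i j h
    simp only [v] at h
    exact_mod_cast add_left_cancel h
  refine ⟨fun i => (Lagrange.basis (Finset.range (finrank ℝ E + 1)) v i).eval 0,
    finrank ℝ E + 1, fun A => ?_⟩
  have hq : ∀ t : ℝ, (-(A : E →ₗ[ℝ] E)).charpoly.eval t =
      (A + t • ContinuousLinearMap.id ℝ E).det := by
    intro t
    rw [LinearMap.eval_charpoly]
    show _ = LinearMap.det ((A + t • ContinuousLinearMap.id ℝ E : E →L[ℝ] E) : E →ₗ[ℝ] E)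
    congr 1
    ext x
    simp [add_comm]
  have h1 := Lagrange.eq_interpolate_of_eval_eq (s := Finset.range (finrank ℝ E + 1)) (v := v)
    (r := fun i => (A + (s₀ + i) • ContinuousLinearMap.id ℝ E).det)
    (f := (-(A : E →ₗ[ℝ] E)).charpoly) hv.injOn (by
      rw [Finset.card_range]
      refine lt_of_le_of_lt Polynomial.degree_le_natDegree ?_
      rw [LinearMap.charpoly_natDegree]
      exact_mod_cast Nat.lt_succ_self _) (fun i _ => hq _)
  have h2 := hq 0
  rw [zero_smul, add_zero] at h2
  rw [← h2, h1, Lagrange.interpolate_apply, Polynomial.eval_finsetSum]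
  refine Finset.sum_congr rfl fun i _ => ?_
  rw [Polynomial.eval_mul, Polynomial.eval_C, mul_comm]

theorem det_bdd (E : Type*) [NormedAddCommGroup E] [NormedSpace ℝ E] [FiniteDimensional ℝ E]
    (L : ℝ) : ∃ C : ℝ, ∀ A : E →L[ℝ] E, ‖A‖ ≤ L → |A.det| ≤ C := by
  have : ProperSpace (E →L[ℝ] E) := FiniteDimensional.proper ℝ _
  obtain ⟨C, hC⟩ := (isCompact_closedBall (0 : E →L[ℝ] E) L).exists_bound_of_continuousOn
    (f := fun A => A.det) ContinuousLinearMap.continuous_det.continuousOn
  exact ⟨C, fun A hA => hC A (by rw [mem_closedBall_zero_iff]; exact hA)⟩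

theorem det_integrableOn {F : E → E} {L : ℝ≥0} (hF : LipschitzWith L F) (s : ℝ)
    {K : Set E} (hK : μ K ≠ ⊤) :
    IntegrableOn (fun x => (fderiv ℝ F x + s • ContinuousLinearMap.id ℝ E).det) K μ := by
  obtain ⟨C, hC⟩ := det_bdd E (L + |s| * ‖ContinuousLinearMap.id ℝ E‖)
  have hm : Measurable fun x => (fderiv ℝ F x + s • ContinuousLinearMap.id ℝ E).det :=
    ContinuousLinearMap.continuous_det.measurable.comp ((measurable_fderiv ℝ F).add_const _)
  refine Measure.integrableOn_of_bounded (M := C) hK hm.aestronglyMeasurable ?_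
  refine Eventually.of_forall fun x => ?_
  rw [Real.norm_eq_abs]
  apply hC
  refine (norm_add_le _ _).trans (add_le_add (norm_fderiv_le_of_lipschitz ℝ hF) ?_)
  rw [norm_smul, Real.norm_eq_abs]

theorem det_integrableOn' {F : E → E} {L : ℝ≥0} (hF : LipschitzWith L F)
    {K : Set E} (hK : μ K ≠ ⊤) : IntegrableOn (fun x => (fderiv ℝ F x).det) K μ := by
  have := det_integrableOn μ hF 0 hK
  simpa using this

/-- **Null Lagrangian.** -/
theorem int_det_congr {F F' : E → E} {L L' : ℝ≥0} (hF : LipschitzWith L F)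
    (hF' : LipschitzWith L' F') {K : Set E} (hK : MeasurableSet K) (hKf : μ K ≠ ⊤)
    (heq : ∀ x ∉ K, F x = F' x) :
    ∫ x in K, (fderiv ℝ F x).det ∂μ = ∫ x in K, (fderiv ℝ F' x).det ∂μ := by
  set s₀ : ℝ := L + L' + 1 with hs₀
  have key : ∀ i : ℕ, ∫ x in K, (fderiv ℝ F x + (s₀ + i) • ContinuousLinearMap.id ℝ E).det ∂μ =
      ∫ x in K, (fderiv ℝ F' x + (s₀ + i) • ContinuousLinearMap.id ℝ E).det ∂μ := by
    intro i
    have h1 : (L : ℝ) < s₀ + i := by
      have := L'.2
      have : (0 : ℝ) ≤ i := Nat.cast_nonneg i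
      linarith
    have h2 : (L' : ℝ) < s₀ + i := by
      have := L.2
      have : (0 : ℝ) ≤ i := Nat.cast_nonneg i
      linarith
    rw [int_det_add μ hF h1 hK, int_det_add μ hF' h2 hK]
    congr 2
    have b1 : Function.Bijective (fun x => F x + (s₀ + i) • x) := ⟨add_inj hF h1, add_surj hF h1⟩
    have b2 : Function.Bijective (fun x => F' x + (s₀ + i) • x) := ⟨add_inj hF' h2, add_surj hF' h2⟩
    have e1 : (fun x => F x + (s₀ + i) • x) '' Kᶜ = (fun x => F' x + (s₀ + i) • x) '' Kᶜ := by
      apply image_congr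
      intro x hx
      rw [heq x hx]
    rw [image_compl_eq b1, image_compl_eq b2] at e1
    exact compl_injective e1
  obtain ⟨c, n, hc⟩ := det_interp E s₀
  have e1 : ∀ x, (fderiv ℝ F x).det = _ := fun x => hc (fderiv ℝ F x)
  have e2 : ∀ x, (fderiv ℝ F' x).det = _ := fun x => hc (fderiv ℝ F' x)
  simp only [e1, e2]
  rw [integral_finsetSum, integral_finsetSum]
  · refine Finset.sum_congr rfl fun i _ => ?_
    rw [integral_const_mul, integral_const_mul, key]
  · intro i _
    exact (det_integrableOn μ hF' _ hKf).const_mul _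
  · intro i _
    exact (det_integrableOn μ hF _ hKf).const_mul _

end Pool.Agent.Helper90.Deg
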