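import Mathlib
import Pool.Agent.Helper90.Deg.Null

/-! # The degree as a constant: `∫ g(F x) det DF(x) dx = c ∫ g`. -/

open MeasureTheory Module Filter Topology Set
open scoped NNReal ENNReal ContDiff

set_option linter.unusedSectionVars false
set_option linter.unusedVariables false

namespace Pool.Agent.Helper90.Deg

variable {E : Type*} [NormedAddCommGroup E] [NormedSpace ℝ E] [FiniteDimensional ℝ E]
  [MeasurableSpace E] [BorelSpace E] (μ : Measure E) [μ.IsAddHaarMeasure]

theorem integrable_bdd_supp {X : Type*} [MeasurableSpace X] {ν : Measure X} {f : X → ℝ}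
    (hf : AEStronglyMeasurable f ν) {S : Set X} (hSf : ν S ≠ ⊤) {C : ℝ}
    (hC : ∀ x, |f x| ≤ C) (h0 : ∀ x ∉ S, f x = 0) : Integrable f ν := by
  have h1 : IntegrableOn f S ν :=
    Measure.integrableOn_of_bounded (M := C) hSf hf (Eventually.of_forall fun x => hC x)
  refine (integrableOn_iff_integrable_of_support_subset ?_).mp h1
  intro x hx
  by_contra hcon
  exact hx (h0 x hcon)

theorem det_smulRight (ℓ : E →L[ℝ] ℝ) (v : E) :
    (ContinuousLinearMap.id ℝ E + ℓ.smulRight v).det = 1 + ℓ v := by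
  have h := LinearMap.transvection.det (ℓ : E →ₗ[ℝ] ℝ) v
  have e : LinearMap.transvection (ℓ : E →ₗ[ℝ] ℝ) v =
      ((ContinuousLinearMap.id ℝ E + ℓ.smulRight v : E →L[ℝ] E) : E →ₗ[ℝ] E) := by
    ext x
    simp [LinearMap.transvection.apply]
  rw [e] at h
  exact h

/-- the functional -/
noncomputable def Lam (F : E → E) (g : E → ℝ) : ℝ := ∫ x, g (F x) * (fderiv ℝ F x).det ∂μ

theorem bdd_of_compactSupport {g : E → ℝ} (hg : Continuous g) (hc : HasCompactSupport g) :
    ∃ C R : ℝ, 0 ≤ C ∧ (∀ y, |g y| ≤ C) ∧ ∀ y, R < ‖y‖ → g y = 0 := by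
  obtain ⟨C, hC⟩ := hg.bounded_above_of_compact_support hc
  obtain ⟨R, hR⟩ := (hc.isCompact.isBounded).subset_closedBall 0
  refine ⟨C, R, (norm_nonneg _).trans (hC 0), hC, fun y hy => ?_⟩
  by_contra hne
  have h1 : y ∈ tsupport g := subset_tsupport g hne
  have := hR h1
  rw [mem_closedBall_zero_iff] at this
  linarith

theorem lam_deriv {F : E → E} {L : ℝ≥0} (hF : LipschitzWith L F) {κ : ℝ} (hκ : 0 < κ)
    (hn : ∀ x, κ * ‖x‖ ≤ ‖F x‖)
    {g : E → ℝ} (hg : ContDiff ℝ 1 g) (hc : HasCompactSupport g) (v : E) :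
    ∫ x, fderiv ℝ g (F x) v * (fderiv ℝ F x).det ∂μ = 0 := by
  obtain ⟨C, R, hC0, hC, hR⟩ := bdd_of_compactSupport hg.continuous hc
  obtain ⟨Lg, hLg⟩ := hg.lipschitzWith_of_hasCompactSupport hc one_ne_zero
  let Φ : E → E := fun y => y + g y • v
  have hΦ : LipschitzWith (1 + Lg * ‖v‖₊) Φ := by
    apply LipschitzWith.id.add
    apply LipschitzWith.of_dist_le_mul
    intro x y
    rw [dist_eq_norm, ← sub_smul, norm_smul, NNReal.coe_mul, coe_nnnorm]
    have := hLg.dist_le_mul x y
    rw [dist_eq_norm] at this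
    calc ‖g x - g y‖ * ‖v‖ ≤ (Lg * dist x y) * ‖v‖ := mul_le_mul_of_nonneg_right this (norm_nonneg _)
      _ = _ := by ring
  have hΦF : LipschitzWith ((1 + Lg * ‖v‖₊) * L) (Φ ∘ F) := hΦ.comp hF
  set K : Set E := Metric.closedBall 0 (R / κ) with hK
  have hKm : MeasurableSet K := measurableSet_closedBall
  have hKf : μ K ≠ ⊤ := (isCompact_closedBall 0 _).measure_lt_top.ne
  have hout : ∀ x ∉ K, R < ‖F x‖ := fun x hx => by
    rw [hK, mem_closedBall_zero_iff, not_le, div_lt_iff₀' hκ] at hx
    exact hx.trans_le (hn x)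
  have h1 := int_det_congr μ hF hΦF hKm hKf (by
    intro x hx
    have : g (F x) = 0 := hR _ (hout x hx)
    simp [Φ, this])
  have h2 : ∫ x in K, (fderiv ℝ (Φ ∘ F) x).det ∂μ =
      ∫ x in K, ((fderiv ℝ F x).det + fderiv ℝ g (F x) v * (fderiv ℝ F x).det) ∂μ := by
    apply integral_congr_ae
    filter_upwards [ae_restrict_of_ae (hF.ae_differentiableAt (μ := μ))] with x hx
    have hgd : HasFDerivAt g (fderiv ℝ g (F x)) (F x) :=
      (hg.differentiable one_ne_zero (F x)).hasFDerivAt
    have hΦd : HasFDerivAt Φ (ContinuousLinearMap.id ℝ E + (fderiv ℝ g (F x)).smulRight v) (F x) :=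
      (hasFDerivAt_id (F x)).add (hgd.smul_const v)
    rw [(hΦd.comp x hx.hasFDerivAt).fderiv]
    have h3 : ((ContinuousLinearMap.id ℝ E + (fderiv ℝ g (F x)).smulRight v).comp
        (fderiv ℝ F x)).det = (ContinuousLinearMap.id ℝ E + (fderiv ℝ g (F x)).smulRight v).det *
          (fderiv ℝ F x).det := LinearMap.det_comp _ _
    rw [h3, det_smulRight]
    ring
  have hm : Measurable fun x => fderiv ℝ g (F x) v * (fderiv ℝ F x).det := by
    refine Measurable.mul ?_ (meas_det F)
    have h3 : Continuous fun x => fderiv ℝ g (F x) v :=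
      ((hg.continuous_fderiv one_ne_zero).comp hF.continuous).clm_apply continuous_const
    exact h3.measurable
  obtain ⟨C1, hC1⟩ := det_bdd E L
  have hC1' : ∀ x, |(fderiv ℝ F x).det| ≤ C1 := fun x => hC1 _ (norm_fderiv_le_of_lipschitz ℝ hF)
  have hgb : ∀ x, |fderiv ℝ g (F x) v| ≤ Lg * ‖v‖ := fun x =>
    (fderiv ℝ g (F x)).le_of_opNorm_le (norm_fderiv_le_of_lipschitz ℝ hLg) v
  have hbd : ∀ x, |fderiv ℝ g (F x) v * (fderiv ℝ F x).det| ≤ (Lg * ‖v‖) * C1 := fun x => by
    rw [abs_mul]
    exact mul_le_mul (hgb x) (hC1' x) (abs_nonneg _) (by positivity)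
  have hzero : ∀ x ∉ K, fderiv ℝ g (F x) v * (fderiv ℝ F x).det = 0 := by
    intro x hx
    have h3 : fderiv ℝ g (F x) = 0 := by
      have h4 : F x ∉ tsupport g := by
        intro hmem
        have h5 : ∀ᶠ y in 𝓝 (F x), R < ‖y‖ :=
          (continuous_norm.continuousAt).eventually (lt_mem_nhds (hout x hx))
        have h6 : ∀ᶠ y in 𝓝 (F x), g y = 0 := h5.mono fun y hy => hR y hy
        exact (notMem_tsupport_iff_eventuallyEq.mpr h6) hmem
      exact image_eq_zero_of_notMem_tsupport (fun h => h4 (tsupport_fderiv_subset ℝ h))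
    rw [h3]; simp
  have hint : Integrable (fun x => fderiv ℝ g (F x) v * (fderiv ℝ F x).det) μ :=
    integrable_bdd_supp hm.aestronglyMeasurable hKf hbd hzero
  rw [h2, integral_add (det_integrableOn' μ hF hKf) hint.integrableOn] at h1
  have h4 : ∫ x in K, fderiv ℝ g (F x) v * (fderiv ℝ F x).det ∂μ = 0 := by linarith
  rw [← h4]
  exact (setIntegral_eq_integral_of_forall_compl_eq_zero hzero).symm

theorem lam_trans {F : E → E} {L : ℝ≥0} (hF : LipschitzWith L F) {κ : ℝ} (hκ : 0 < κ)
    (hn : ∀ x, κ * ‖x‖ ≤ ‖F x‖)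
    {g : E → ℝ} (hg : ContDiff ℝ 1 g) (hc : HasCompactSupport g) (v : E) :
    Lam μ F (fun y => g (y - v)) = Lam μ F g := by
  obtain ⟨C, R, hC0, hC, hR⟩ := bdd_of_compactSupport hg.continuous hc
  obtain ⟨Lg, hLg⟩ := hg.lipschitzWith_of_hasCompactSupport hc one_ne_zero
  obtain ⟨C1, hC1⟩ := det_bdd E L
  have hC1' : ∀ x, |(fderiv ℝ F x).det| ≤ C1 := fun x => hC1 _ (norm_fderiv_le_of_lipschitz ℝ hF)
  have hC10 : 0 ≤ C1 := (abs_nonneg _).trans (hC1' 0)
  set K : Set E := Metric.closedBall 0 ((R + ‖v‖) / κ) with hK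
  have hKf : μ K ≠ ⊤ := (isCompact_closedBall 0 _).measure_lt_top.ne
  have hgtc : ∀ w : E, HasCompactSupport fun y => g (y - w) := fun w =>
    hc.comp_homeomorph (Homeomorph.subRight w)
  have hgt : ∀ w : E, ContDiff ℝ 1 fun y => g (y - w) := fun w => hg.comp (by fun_prop)
  have hfd : ∀ (w y : E), fderiv ℝ (fun y => g (y - w)) y = fderiv ℝ g (y - w) := fun w y => by
    have h := ((hg.differentiable one_ne_zero (y - w)).hasFDerivAt).comp y
      ((hasFDerivAt_id y).sub_const w)
    exact h.fderiv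
  have hmeas1 : Measurable fun p : E × ℝ => fderiv ℝ g (F p.1 - p.2 • v) v * (fderiv ℝ F p.1).det := by
    refine Measurable.mul ?_ ((meas_det F).comp measurable_fst)
    have h3 : Continuous fun p : E × ℝ => fderiv ℝ g (F p.1 - p.2 • v) v := by
      have := hF.continuous
      have h4 := hg.continuous_fderiv one_ne_zero
      exact (h4.comp (by fun_prop)).clm_apply continuous_const
    exact h3.measurable
  let ν : Measure ℝ := volume.restrict (Ioc 0 1)
  have hzero : ∀ x, R + ‖v‖ < κ * ‖x‖ → ∀ t ∈ Icc (0 : ℝ) 1, ∀ᶠ y in 𝓝 (F x - t • v), g y = 0 := by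
    intro x hx t ht
    have h5 : R < ‖F x - t • v‖ := by
      have h6 : ‖t • v‖ ≤ ‖v‖ := by
        rw [norm_smul, Real.norm_eq_abs, abs_of_nonneg ht.1]
        exact mul_le_of_le_one_left (norm_nonneg _) ht.2
      have h7 := norm_sub_norm_le (F x) (t • v)
      have := hn x
      linarith
    have h8 : ∀ᶠ y in 𝓝 (F x - t • v), R < ‖y‖ :=
      (continuous_norm.continuousAt).eventually (lt_mem_nhds h5)
    exact h8.mono fun y hy => hR y hy
  have hprod : Integrable (Function.uncurry fun (x : E) (t : ℝ) =>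
      fderiv ℝ g (F x - t • v) v * (fderiv ℝ F x).det) (μ.prod ν) := by
    have hm2 : Measurable fun p : E × ℝ => (Icc (0 : ℝ) 1).indicator
        (fun _ => fderiv ℝ g (F p.1 - p.2 • v) v * (fderiv ℝ F p.1).det) p.2 := by
      have : (fun p : E × ℝ => (Icc (0 : ℝ) 1).indicator
        (fun _ => fderiv ℝ g (F p.1 - p.2 • v) v * (fderiv ℝ F p.1).det) p.2) =
          (univ ×ˢ Icc (0 : ℝ) 1).indicator
            (fun p : E × ℝ => fderiv ℝ g (F p.1 - p.2 • v) v * (fderiv ℝ F p.1).det) := by
        ext p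
        simp [indicator]
      rw [this]
      exact hmeas1.indicator (MeasurableSet.univ.prod measurableSet_Icc)
    have h1 : Integrable (fun p : E × ℝ => (Icc (0 : ℝ) 1).indicator
        (fun _ => fderiv ℝ g (F p.1 - p.2 • v) v * (fderiv ℝ F p.1).det) p.2) (μ.prod ν) := by
      refine integrable_bdd_supp hm2.aestronglyMeasurable (S := K ×ˢ univ) (C := Lg * ‖v‖ * C1) ?_ ?_ ?_
      · rw [Measure.prod_prod]
        exact ENNReal.mul_ne_top hKf (by simp [ν])
      · intro p
        by_cases hp : p.2 ∈ Icc (0 : ℝ) 1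
        · rw [indicator_of_mem hp, abs_mul]
          exact mul_le_mul ((fderiv ℝ g _).le_of_opNorm_le (norm_fderiv_le_of_lipschitz ℝ hLg) v)
            (hC1' _) (abs_nonneg _) (by positivity)
        · rw [indicator_of_notMem hp, abs_zero]; positivity
      · intro p hp
        by_cases hp2 : p.2 ∈ Icc (0 : ℝ) 1
        · rw [indicator_of_mem hp2]
          have h3 : R + ‖v‖ < κ * ‖p.1‖ := by
            by_contra hcon
            push Not at hcon
            exact hp ⟨by rw [hK, mem_closedBall_zero_iff, le_div_iff₀' hκ]; exact hcon, trivial⟩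
          have h4 : fderiv ℝ g (F p.1 - p.2 • v) = 0 := by
            have := hzero p.1 h3 p.2 hp2
            have h5 : fderiv ℝ g (F p.1 - p.2 • v) = fderiv ℝ (fun _ => (0 : ℝ)) (F p.1 - p.2 • v) :=
              Filter.EventuallyEq.fderiv_eq this
            rw [h5]; simp
          rw [h4]; simp
        · rw [indicator_of_notMem hp2]
    refine h1.congr ?_
    have h2 : ∀ᵐ p ∂(μ.prod ν), p.2 ∈ Ioc (0 : ℝ) 1 := by
      have h3 : ∀ᵐ t ∂ν, t ∈ Ioc (0 : ℝ) 1 := ae_restrict_mem measurableSet_Ioc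
      exact Measure.quasiMeasurePreserving_snd.ae h3
    filter_upwards [h2] with p hp
    rw [indicator_of_mem (Ioc_subset_Icc_self hp)]
    rfl
  have hFTC : ∀ x, g (F x) - g (F x - v) = ∫ t, fderiv ℝ g (F x - t • v) v ∂ν := by
    intro x
    have h1 : ∀ t ∈ uIcc (0 : ℝ) 1, HasDerivAt (fun t : ℝ => -g (F x - t • v))
        (fderiv ℝ g (F x - t • v) v) t := by
      intro t _
      have h2 : HasDerivAt (fun t : ℝ => F x - t • v) (-v) t := by
        have := ((hasDerivAt_id t).smul_const v).const_sub (F x)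
        simpa using this
      have h3 := ((hg.differentiable one_ne_zero (F x - t • v)).hasFDerivAt).comp_hasDerivAt t h2
      have h4 := h3.neg
      have e : fderiv ℝ g (F x - t • v) v = -(fderiv ℝ g (F x - t • v) (-v)) := by
        rw [map_neg, neg_neg]
      rw [e]
      exact h4
    have h5 : IntervalIntegrable (fun t => fderiv ℝ g (F x - t • v) v) volume 0 1 := by
      apply Continuous.intervalIntegrable
      have h4 := hg.continuous_fderiv one_ne_zero
      exact (h4.comp (by fun_prop)).clm_apply continuous_const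
    have h6 := intervalIntegral.integral_eq_sub_of_hasDerivAt h1 h5
    rw [intervalIntegral.integral_of_le zero_le_one] at h6
    show _ = ∫ t in Ioc 0 1, fderiv ℝ g (F x - t • v) v
    rw [h6]
    simp
    ring
  have hswap := integral_integral_swap hprod
  have h0 : ∫ t, ∫ x, fderiv ℝ g (F x - t • v) v * (fderiv ℝ F x).det ∂μ ∂ν = 0 := by
    have : ∀ t : ℝ, ∫ x, fderiv ℝ g (F x - t • v) v * (fderiv ℝ F x).det ∂μ = 0 := by
      intro t
      have := lam_deriv μ hF hκ hn (hgt (t • v)) (hgtc (t • v)) v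
      simpa only [hfd] using this
    simp only [this, integral_zero]
  rw [h0] at hswap
  have h1 : ∀ x, ∫ t, fderiv ℝ g (F x - t • v) v * (fderiv ℝ F x).det ∂ν =
      (g (F x) - g (F x - v)) * (fderiv ℝ F x).det := by
    intro x
    rw [integral_mul_const, ← hFTC]
  simp only [h1, sub_mul] at hswap
  have hi : ∀ w : E, Integrable (fun x => g (F x - w) * (fderiv ℝ F x).det) μ := by
    intro w
    refine integrable_bdd_supp (S := Metric.closedBall 0 ((R + ‖w‖) / κ)) (C := C * C1) ?_
      (isCompact_closedBall 0 _).measure_lt_top.ne ?_ ?_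
    · refine (Measurable.mul ?_ (meas_det F)).aestronglyMeasurable
      exact ((hg.continuous.comp (by have := hF.continuous; fun_prop)) :
        Continuous fun x => g (F x - w)).measurable
    · intro x
      rw [abs_mul]
      exact mul_le_mul (hC _) (hC1' _) (abs_nonneg _) hC0
    · intro x hx
      rw [mem_closedBall_zero_iff, not_le, div_lt_iff₀' hκ] at hx
      have h7 := norm_sub_norm_le (F x) w
      have := hn x
      rw [hR _ (by linarith), zero_mul]
  have hi0 := hi 0
  simp only [sub_zero] at hi0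
  rw [integral_sub hi0 (hi v)] at hswap
  unfold Lam
  linarith

theorem lam_integrable {F : E → E} {L : ℝ≥0} (hF : LipschitzWith L F) {κ : ℝ} (hκ : 0 < κ)
    (hn : ∀ x, κ * ‖x‖ ≤ ‖F x‖)
    {g : E → ℝ} (hg : Continuous g) (hc : HasCompactSupport g) :
    Integrable (fun x => g (F x) * (fderiv ℝ F x).det) μ := by
  obtain ⟨C, R, hC0, hC, hR⟩ := bdd_of_compactSupport hg hc
  obtain ⟨C1, hC1⟩ := det_bdd E L
  have hC1' : ∀ x, |(fderiv ℝ F x).det| ≤ C1 := fun x => hC1 _ (norm_fderiv_le_of_lipschitz ℝ hF)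
  refine integrable_bdd_supp (S := Metric.closedBall 0 (R / κ)) (C := C * C1) ?_
    (isCompact_closedBall 0 _).measure_lt_top.ne ?_ ?_
  · exact (Measurable.mul (hg.comp hF.continuous).measurable (meas_det F)).aestronglyMeasurable
  · intro x
    rw [abs_mul]
    exact mul_le_mul (hC _) (hC1' _) (abs_nonneg _) hC0
  · intro x hx
    rw [mem_closedBall_zero_iff, not_le, div_lt_iff₀' hκ] at hx
    rw [hR _ (hx.trans_le (hn x)), zero_mul]

/-- The symmetric convolution identity. -/
theorem lam_mul {F : E → E} {L : ℝ≥0} (hF : LipschitzWith L F) {κ : ℝ} (hκ : 0 < κ)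
    (hn : ∀ x, κ * ‖x‖ ≤ ‖F x‖)
    {g h : E → ℝ} (hg : ContDiff ℝ 1 g) (hc : HasCompactSupport g)
    (hh : ContDiff ℝ 1 h) (hhc : HasCompactSupport h) :
    Lam μ F g * ∫ y, h y ∂μ = Lam μ F h * ∫ y, g y ∂μ := by
  obtain ⟨C, R, hC0, hC, hR⟩ := bdd_of_compactSupport hg.continuous hc
  obtain ⟨C', R', hC0', hC', hR'⟩ := bdd_of_compactSupport hh.continuous hhc
  obtain ⟨C1, hC1⟩ := det_bdd E L
  have hC1' : ∀ x, |(fderiv ℝ F x).det| ≤ C1 := fun x => hC1 _ (norm_fderiv_le_of_lipschitz ℝ hF)
  have hC10 : 0 ≤ C1 := (abs_nonneg _).trans (hC1' 0)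
  -- common integrability on the product
  have hprod : Integrable (Function.uncurry fun (x v : E) =>
      h v * (g (F x - v) * (fderiv ℝ F x).det)) (μ.prod μ) := by
    refine integrable_bdd_supp (S := Metric.closedBall 0 ((R + R') / κ) ×ˢ Metric.closedBall 0 R')
      (C := C' * (C * C1)) ?_ ?_ ?_ ?_
    · have h1 : Continuous fun p : E × E => h p.2 := by have := hh.continuous; fun_prop
      have h2 : Continuous fun p : E × E => g (F p.1 - p.2) := by
        have := hg.continuous
        have := hF.continuous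
        fun_prop
      exact (h1.measurable.mul (h2.measurable.mul ((meas_det F).comp measurable_fst))).aestronglyMeasurable
    · rw [Measure.prod_prod]
      exact ENNReal.mul_ne_top (isCompact_closedBall 0 _).measure_lt_top.ne
        (isCompact_closedBall 0 _).measure_lt_top.ne
    · intro p
      show |h p.2 * (g (F p.1 - p.2) * (fderiv ℝ F p.1).det)| ≤ _
      rw [abs_mul, abs_mul]
      exact mul_le_mul (hC' _) (mul_le_mul (hC _) (hC1' _) (abs_nonneg _) hC0) (by positivity) hC0'
    · intro p hp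
      show h p.2 * (g (F p.1 - p.2) * (fderiv ℝ F p.1).det) = 0
      by_cases h1 : R' < ‖p.2‖
      · rw [hR' _ h1, zero_mul]
      · have h2 : R + R' < κ * ‖p.1‖ := by
          by_contra hcon
          exact hp ⟨by rw [mem_closedBall_zero_iff, le_div_iff₀' hκ]; exact not_lt.mp hcon,
            by rw [mem_closedBall_zero_iff]; exact not_lt.mp h1⟩
        have h3 := norm_sub_norm_le (F p.1) p.2
        have h9 := hn p.1
        rw [hR (F p.1 - p.2) (by linarith [not_lt.mp h1]), zero_mul, mul_zero]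
  have hprod2 : Integrable (Function.uncurry fun (x w : E) =>
      g w * (h (F x - w) * (fderiv ℝ F x).det)) (μ.prod μ) := by
    refine integrable_bdd_supp (S := Metric.closedBall 0 ((R + R') / κ) ×ˢ Metric.closedBall 0 R)
      (C := C * (C' * C1)) ?_ ?_ ?_ ?_
    · have h1 : Continuous fun p : E × E => g p.2 := by have := hg.continuous; fun_prop
      have h2 : Continuous fun p : E × E => h (F p.1 - p.2) := by
        have := hh.continuous
        have := hF.continuous
        fun_prop
      exact (h1.measurable.mul (h2.measurable.mul ((meas_det F).comp measurable_fst))).aestronglyMeasurable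
    · rw [Measure.prod_prod]
      exact ENNReal.mul_ne_top (isCompact_closedBall 0 _).measure_lt_top.ne
        (isCompact_closedBall 0 _).measure_lt_top.ne
    · intro p
      show |g p.2 * (h (F p.1 - p.2) * (fderiv ℝ F p.1).det)| ≤ _
      rw [abs_mul, abs_mul]
      exact mul_le_mul (hC _) (mul_le_mul (hC' _) (hC1' _) (abs_nonneg _) hC0') (by positivity) hC0
    · intro p hp
      show g p.2 * (h (F p.1 - p.2) * (fderiv ℝ F p.1).det) = 0
      by_cases h1 : R < ‖p.2‖
      · rw [hR _ h1, zero_mul]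
      · have h2 : R + R' < κ * ‖p.1‖ := by
          by_contra hcon
          exact hp ⟨by rw [mem_closedBall_zero_iff, le_div_iff₀' hκ]; exact not_lt.mp hcon,
            by rw [mem_closedBall_zero_iff]; exact not_lt.mp h1⟩
        have h3 := norm_sub_norm_le (F p.1) p.2
        have h9 := hn p.1
        rw [hR' (F p.1 - p.2) (by linarith [not_lt.mp h1]), zero_mul, mul_zero]
  have e1 : ∫ v, ∫ x, h v * (g (F x - v) * (fderiv ℝ F x).det) ∂μ ∂μ =
      Lam μ F g * ∫ y, h y ∂μ := by
    rw [← integral_const_mul]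
    congr with v
    rw [integral_const_mul]
    have := lam_trans μ hF hκ hn hg hc v
    unfold Lam at this ⊢
    rw [this, mul_comm]
  have e2 : ∫ w, ∫ x, g w * (h (F x - w) * (fderiv ℝ F x).det) ∂μ ∂μ =
      Lam μ F h * ∫ y, g y ∂μ := by
    rw [← integral_const_mul]
    congr with v
    rw [integral_const_mul]
    have := lam_trans μ hF hκ hn hh hhc v
    unfold Lam at this ⊢
    rw [this, mul_comm]
  rw [← e1, ← e2, ← integral_integral_swap hprod, ← integral_integral_swap hprod2]
  congr with x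
  have h1 := integral_sub_left_eq_self (fun w => g w * (h (F x - w) * (fderiv ℝ F x).det)) μ (F x)
  rw [← h1]
  congr with v
  rw [sub_sub_cancel]
  ring

/-- Existence of the degree as a real number. -/
theorem exists_const {F : E → E} {L : ℝ≥0} (hF : LipschitzWith L F) {κ : ℝ} (hκ : 0 < κ)
    (hn : ∀ x, κ * ‖x‖ ≤ ‖F x‖) :
    ∃ c : ℝ, ∀ g : E → ℝ, ContDiff ℝ 1 g → HasCompactSupport g →
      Lam μ F g = c * ∫ y, g y ∂μ := by
  let b : ContDiffBump (0 : E) := default
  refine ⟨Lam μ F (b.normed μ), fun g hg hc => ?_⟩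
  have h := lam_mul μ hF hκ hn hg hc (b.contDiff_normed (μ := μ) (n := 1)) (b.hasCompactSupport_normed (μ := μ))
  rw [b.integral_normed, mul_one] at h
  exact h

end Pool.Agent.Helper90.Deg
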