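import Mathlib
import Pool.Agent.Helper90.Deg.Const

/-! # Integrality of the degree: multiplicity functions. -/

open MeasureTheory Module Filter Topology Set
open scoped NNReal ENNReal ContDiff

set_option linter.unusedSectionVars false
set_option linter.unusedVariables false

namespace Pool.Agent.Helper90.Deg

variable {E : Type*} [NormedAddCommGroup E] [NormedSpace ℝ E] [FiniteDimensional ℝ E]
  [Nontrivial E]
  [MeasurableSpace E] [BorelSpace E] (μ : Measure E) [μ.IsAddHaarMeasure]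

theorem exists_partition {F : E → E} {s : Set E}
    (hd : ∀ x ∈ s, DifferentiableAt ℝ F x ∧ (fderiv ℝ F x).det ≠ 0) :
    ∃ t : ℕ → Set E, Pairwise (Function.onFun Disjoint t) ∧ (∀ n, MeasurableSet (t n)) ∧
      (s ⊆ ⋃ n, t n) ∧ ∀ n, InjOn F (s ∩ t n) := by
  classical
  let r : (E →L[ℝ] E) → ℝ≥0 := fun A =>
    if h : A.det ≠ 0 then ‖((A.toContinuousLinearEquivOfDetNeZero h).symm : E →L[ℝ] E)‖₊⁻¹ / 2 else 1
  have hpos : ∀ (A : E →L[ℝ] E) (h : A.det ≠ 0),
      0 < ‖((A.toContinuousLinearEquivOfDetNeZero h).symm : E →L[ℝ] E)‖₊ := fun A h =>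
    (A.toContinuousLinearEquivOfDetNeZero h).nnnorm_symm_pos
  have rpos : ∀ A, r A ≠ 0 := by
    intro A
    by_cases h : A.det ≠ 0
    · simp only [r, dif_pos h]
      exact (div_pos (inv_pos.mpr (hpos A h)) two_pos).ne'
    · simp only [r, dif_neg h]
      exact one_ne_zero
  obtain ⟨t, A, h1, h2, h3, h4, h5⟩ := exists_partition_approximatesLinearOn_of_hasFDerivWithinAt
    F s (fderiv ℝ F) (fun x hx => (hd x hx).1.hasFDerivAt.hasFDerivWithinAt) r rpos
  refine ⟨t, h1, h2, h3, fun n => ?_⟩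
  rcases s.eq_empty_or_nonempty with hs | hs
  · rw [hs, empty_inter]; exact injOn_empty F
  obtain ⟨y, hy, hAy⟩ := h5 hs n
  have hdet : (A n).det ≠ 0 := by rw [hAy]; exact (hd y hy).2
  have h6 := h4 n
  have hr : r (A n) = ‖(((A n).toContinuousLinearEquivOfDetNeZero hdet).symm : E →L[ℝ] E)‖₊⁻¹ / 2 := by
    simp only [r, dif_pos hdet]
  rw [hr] at h6
  have e : (((A n).toContinuousLinearEquivOfDetNeZero hdet : E ≃L[ℝ] E) : E →L[ℝ] E) = A n :=
    ContinuousLinearMap.coe_toContinuousLinearEquivOfDetNeZero _ _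
  have h7 : ApproximatesLinearOn F
      (((A n).toContinuousLinearEquivOfDetNeZero hdet : E ≃L[ℝ] E) : E →L[ℝ] E) (s ∩ t n)
      (‖(((A n).toContinuousLinearEquivOfDetNeZero hdet).symm : E →L[ℝ] E)‖₊⁻¹ / 2) := by
    simpa only [e] using h6
  refine h7.injOn (Or.inr ?_)
  exact NNReal.half_lt_self (inv_pos.mpr (hpos _ hdet)).ne'

/-- multiplicity function on a set where the determinant does not vanish -/
theorem exists_mult_pos {F : E → E} {L : ℝ≥0} (hF : LipschitzWith L F) {κ : ℝ} (hκ : 0 < κ)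
    (hn : ∀ x, κ * ‖x‖ ≤ ‖F x‖)
    {s : Set E} (hs : MeasurableSet s)
    (hd : ∀ x ∈ s, DifferentiableAt ℝ F x ∧ (fderiv ℝ F x).det ≠ 0) :
    ∃ N : E → ℝ≥0∞, Measurable N ∧ (∀ᵐ y ∂μ, ∃ k : ℕ, N y = k) ∧
      (∀ R : ℝ, ∫⁻ y in Metric.closedBall 0 R, N y ∂μ < ⊤) ∧
      Measure.map F ((μ.restrict s).withDensity
        (fun x => ENNReal.ofReal |(fderiv ℝ F x).det|)) = μ.withDensity N := by
  classical
  obtain ⟨t, h1, h2, h3, h4⟩ := exists_partition hd
  let U : ℕ → Set E := fun n => F '' (s ∩ t n)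
  have hUm : ∀ n, MeasurableSet (U n) := fun n =>
    measurable_image_of_fderivWithin (hs.inter (h2 n))
      (fun x hx => (hd x hx.1).1.hasFDerivAt.hasFDerivWithinAt) (h4 n)
  let N : E → ℝ≥0∞ := fun y => ∑' n, (U n).indicator 1 y
  have hNm : Measurable N := Measurable.tsum fun n => measurable_one.indicator (hUm n)
  have hmap : Measure.map F ((μ.restrict s).withDensity
        (fun x => ENNReal.ofReal |(fderiv ℝ F x).det|)) = μ.withDensity N := by
    refine Measure.ext fun A hA => ?_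
    have hFA : MeasurableSet (F ⁻¹' A) := hF.continuous.measurable hA
    rw [Measure.map_apply hF.continuous.measurable hA, withDensity_apply _ hFA,
      withDensity_apply _ hA, Measure.restrict_restrict hFA]
    have e1 : F ⁻¹' A ∩ s = ⋃ n, F ⁻¹' A ∩ (s ∩ t n) := by
      rw [← inter_iUnion, ← inter_iUnion]
      congr 1
      rw [inter_eq_self_of_subset_left h3]
    rw [e1, lintegral_iUnion (fun n => hFA.inter (hs.inter (h2 n)))]
    · have e2 : ∫⁻ y in A, N y ∂μ = ∑' n, ∫⁻ y in A, (U n).indicator 1 y ∂μ :=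
        lintegral_tsum fun n => (measurable_one.indicator (hUm n)).aemeasurable
      rw [e2]
      congr 1
      ext n
      rw [lintegral_abs_det_fderiv_eq_addHaar_image μ (hFA.inter (hs.inter (h2 n)))
        (fun x hx => (hd x hx.2.1).1.hasFDerivAt.hasFDerivWithinAt)
        ((h4 n).mono inter_subset_right)]
      rw [lintegral_indicator_one (hUm n), Measure.restrict_apply (hUm n)]
      congr 1
      rw [inter_comm (F ⁻¹' A), image_inter_preimage]
    · intro i j hij
      exact ((h1 hij).mono inter_subset_right inter_subset_right).mono inter_subset_right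
        inter_subset_right
  have hball : ∀ R : ℝ, ∫⁻ y in Metric.closedBall 0 R, N y ∂μ < ⊤ := by
    intro R
    obtain ⟨C1, hC1⟩ := det_bdd E L
    rw [← withDensity_apply _ measurableSet_closedBall, ← hmap,
      Measure.map_apply hF.continuous.measurable measurableSet_closedBall,
      withDensity_apply _ (hF.continuous.measurable measurableSet_closedBall)]
    have e : F ⁻¹' (Metric.closedBall 0 R) ⊆ Metric.closedBall 0 (R / κ) := by
      intro x hx
      rw [mem_preimage, mem_closedBall_zero_iff] at hx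
      rw [mem_closedBall_zero_iff, le_div_iff₀' hκ]
      exact (hn x).trans hx
    calc _ ≤ ∫⁻ x in F ⁻¹' (Metric.closedBall 0 R), ENNReal.ofReal C1 ∂(μ.restrict s) := by
          refine lintegral_mono fun x => ENNReal.ofReal_le_ofReal ?_
          exact hC1 _ (norm_fderiv_le_of_lipschitz ℝ hF)
      _ = ENNReal.ofReal C1 * (μ.restrict s) (F ⁻¹' (Metric.closedBall 0 R)) :=
          setLIntegral_const _ _
      _ < ⊤ := by
          refine ENNReal.mul_lt_top ENNReal.ofReal_lt_top ?_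
          exact (measure_mono e).trans_lt ((Measure.restrict_apply_le _ _).trans_lt
            (isCompact_closedBall 0 _).measure_lt_top)
  refine ⟨N, hNm, ?_, hball, hmap⟩
  have hfin : ∀ᵐ y ∂μ, ∀ R : ℕ, y ∈ Metric.closedBall (0 : E) R → N y < ⊤ := by
    rw [ae_all_iff]
    intro R
    have := ae_lt_top hNm (hball R).ne
    rwa [ae_restrict_iff' measurableSet_closedBall] at this
  filter_upwards [hfin] with y hy
  obtain ⟨R, hR⟩ := exists_nat_ge ‖y‖
  have h5 := hy R (by rw [mem_closedBall_zero_iff]; exact hR)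
  have h6 : N y = ({n | y ∈ U n} : Set ℕ).encard := by
    rw [← ENNReal.tsum_set_one, tsum_subtype ({n | y ∈ U n} : Set ℕ) (fun _ => (1 : ℝ≥0∞))]
    simp only [N]
    congr 1
  rw [h6] at h5 ⊢
  have h7 : ({n | y ∈ U n} : Set ℕ).Finite := by
    by_contra hcon
    rw [Set.encard_eq_top hcon] at h5
    simp at h5
  refine ⟨({n | y ∈ U n} : Set ℕ).ncard, ?_⟩
  rw [← h7.cast_ncard_eq]
  simp

/-- integral form of the multiplicity function of one sign -/
theorem int_mult_pos {F : E → E} {L : ℝ≥0} (hF : LipschitzWith L F)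
    {s : Set E} (hs : MeasurableSet s) {N : E → ℝ≥0∞} (hNm : Measurable N)
    (hNf : ∀ᵐ y ∂μ, ∃ k : ℕ, N y = k)
    (hmap : Measure.map F ((μ.restrict s).withDensity
        (fun x => ENNReal.ofReal |(fderiv ℝ F x).det|)) = μ.withDensity N)
    {g : E → ℝ} (hg : Measurable g) :
    ∫ x in s, g (F x) * |(fderiv ℝ F x).det| ∂μ = ∫ y, g y * (N y).toReal ∂μ := by
  have h1 : ∫ y, g y ∂(μ.withDensity N) = ∫ y, g y * (N y).toReal ∂μ := by
    rw [integral_withDensity_eq_integral_toReal_smul hNm]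
    · congr with y
      rw [smul_eq_mul, mul_comm]
    · filter_upwards [hNf] with y ⟨k, hk⟩
      rw [hk]; exact ENNReal.natCast_lt_top k
  rw [← h1, ← hmap, integral_map hF.continuous.measurable.aemeasurable hg.aestronglyMeasurable,
    integral_withDensity_eq_integral_toReal_smul (f := fun x => ENNReal.ofReal |(fderiv ℝ F x).det|)
      ((meas_det F).norm.ennreal_ofReal)]
  · congr with x
    rw [ENNReal.toReal_ofReal (abs_nonneg _), smul_eq_mul, mul_comm]
  · exact Eventually.of_forall fun x => ENNReal.ofReal_lt_top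

/-- bounded measurable functions with bounded support -/
def BC (g : E → ℝ) : Prop := Measurable g ∧ ∃ C R : ℝ, (∀ y, |g y| ≤ C) ∧ ∀ y, R < ‖y‖ → g y = 0

theorem BC.of_cont {g : E → ℝ} (hg : Continuous g) (hc : HasCompactSupport g) : BC g := by
  obtain ⟨C, R, _, hC, hR⟩ := bdd_of_compactSupport hg hc
  exact ⟨hg.measurable, C, R, hC, hR⟩

theorem BC.integrable {F : E → E} {L : ℝ≥0} (hF : LipschitzWith L F) {κ : ℝ} (hκ : 0 < κ)
    (hn : ∀ x, κ * ‖x‖ ≤ ‖F x‖)
    {g : E → ℝ} (hg : BC g) : Integrable (fun x => g (F x) * (fderiv ℝ F x).det) μ := by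
  obtain ⟨hgm, C, R, hC, hR⟩ := hg
  obtain ⟨C1, hC1⟩ := det_bdd E L
  have hC1' : ∀ x, |(fderiv ℝ F x).det| ≤ C1 := fun x => hC1 _ (norm_fderiv_le_of_lipschitz ℝ hF)
  refine integrable_bdd_supp (S := Metric.closedBall 0 (R / κ)) (C := C * C1) ?_
    (isCompact_closedBall 0 _).measure_lt_top.ne ?_ ?_
  · exact (Measurable.mul (hgm.comp hF.continuous.measurable) (meas_det F)).aestronglyMeasurable
  · intro x
    rw [abs_mul]
    exact mul_le_mul (hC _) (hC1' _) (abs_nonneg _) ((abs_nonneg _).trans (hC 0))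
  · intro x hx
    rw [mem_closedBall_zero_iff, not_le, div_lt_iff₀' hκ] at hx
    rw [hR _ (hx.trans_le (hn x)), zero_mul]

theorem mul_int_of_ball {M : E → ℝ} (hM : Measurable M)
    (hb : ∀ R : ℝ, IntegrableOn M (Metric.closedBall 0 R) μ) {g : E → ℝ} (hg : BC g) :
    Integrable (fun y => g y * M y) μ := by
  obtain ⟨hgm, C, R, hC, hR⟩ := hg
  have h1 : IntegrableOn (fun y => g y * M y) (Metric.closedBall 0 R) μ :=
    (hb R).bdd_mul hgm.aestronglyMeasurable (Eventually.of_forall hC)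
  refine (integrableOn_iff_integrable_of_support_subset ?_).mp h1
  intro y hy
  by_contra hcon
  rw [mem_closedBall_zero_iff, not_le] at hcon
  apply hy
  show g y * M y = 0
  rw [hR y hcon, zero_mul]

/-- The multiplicity function. -/
theorem exists_mult {F : E → E} {L : ℝ≥0} (hF : LipschitzWith L F) {κ : ℝ} (hκ : 0 < κ)
    (hn : ∀ x, κ * ‖x‖ ≤ ‖F x‖)
    {Ω : Set E} (hΩ : MeasurableSet Ω) :
    ∃ M : E → ℝ, Measurable M ∧ (∀ᵐ y ∂μ, ∃ k : ℤ, M y = k) ∧
      (∀ R : ℝ, IntegrableOn M (Metric.closedBall 0 R) μ) ∧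
      ∀ g : E → ℝ, BC g →
        ∫ x in Ω, g (F x) * (fderiv ℝ F x).det ∂μ = ∫ y, g y * M y ∂μ := by
  set D : Set E := {x | DifferentiableAt ℝ F x} with hD
  have hDm : MeasurableSet D := meas_diff hF.continuous
  set s₁ : Set E := (Ω ∩ D) ∩ {x | 0 < (fderiv ℝ F x).det} with hs₁
  set s₂ : Set E := (Ω ∩ D) ∩ {x | (fderiv ℝ F x).det < 0} with hs₂
  have hm₁ : MeasurableSet s₁ := (hΩ.inter hDm).inter (measurableSet_lt measurable_const (meas_det F))
  have hm₂ : MeasurableSet s₂ := (hΩ.inter hDm).inter (measurableSet_lt (meas_det F) measurable_const)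
  obtain ⟨N₁, hN₁m, hN₁k, hN₁b, hN₁⟩ := exists_mult_pos μ hF hκ hn hm₁
    (fun x hx => ⟨hx.1.2, (ne_of_gt hx.2)⟩)
  obtain ⟨N₂, hN₂m, hN₂k, hN₂b, hN₂⟩ := exists_mult_pos μ hF hκ hn hm₂
    (fun x hx => ⟨hx.1.2, (ne_of_lt hx.2)⟩)
  have hI₁ : ∀ R : ℝ, IntegrableOn (fun y => (N₁ y).toReal) (Metric.closedBall 0 R) μ := fun R =>
    integrable_toReal_of_lintegral_ne_top hN₁m.aemeasurable (hN₁b R).ne
  have hI₂ : ∀ R : ℝ, IntegrableOn (fun y => (N₂ y).toReal) (Metric.closedBall 0 R) μ := fun R =>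
    integrable_toReal_of_lintegral_ne_top hN₂m.aemeasurable (hN₂b R).ne
  refine ⟨fun y => (N₁ y).toReal - (N₂ y).toReal, hN₁m.ennreal_toReal.sub hN₂m.ennreal_toReal, ?_,
    fun R => (hI₁ R).sub (hI₂ R), ?_⟩
  · filter_upwards [hN₁k, hN₂k] with y ⟨k₁, hk₁⟩ ⟨k₂, hk₂⟩
    refine ⟨(k₁ : ℤ) - k₂, ?_⟩
    rw [hk₁, hk₂]
    simp
  · intro g hg
    have e1 := int_mult_pos μ hF hm₁ hN₁m hN₁k hN₁ hg.1
    have e2 := int_mult_pos μ hF hm₂ hN₂m hN₂k hN₂ hg.1
    have hgi : Integrable (fun x => g (F x) * (fderiv ℝ F x).det) μ := hg.integrable μ hF hκ hn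
    have hgi' : Integrable (fun x => g (F x) * |(fderiv ℝ F x).det|) μ := by
      have := hgi.norm
      refine (hgi.norm).mono ?_ ?_
      · exact ((hg.1.comp hF.continuous.measurable).mul (meas_det F).norm).aestronglyMeasurable
      · refine Eventually.of_forall fun x => ?_
        simp
    have e3 : ∫ y, g y * ((N₁ y).toReal - (N₂ y).toReal) ∂μ =
        ∫ y, g y * (N₁ y).toReal ∂μ - ∫ y, g y * (N₂ y).toReal ∂μ := by
      simp only [mul_sub]
      exact integral_sub (mul_int_of_ball μ hN₁m.ennreal_toReal hI₁ hg)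
        (mul_int_of_ball μ hN₂m.ennreal_toReal hI₂ hg)
    rw [e3, ← e1, ← e2, ← integral_indicator hm₁, ← integral_indicator hm₂, ← integral_indicator hΩ,
      ← integral_sub (hgi'.indicator hm₁) (hgi'.indicator hm₂)]
    apply integral_congr_ae
    filter_upwards [hF.ae_differentiableAt (μ := μ)] with x hx
    by_cases hxΩ : x ∈ Ω
    · rw [indicator_of_mem hxΩ]
      rcases lt_trichotomy (fderiv ℝ F x).det 0 with h | h | h
      · have h1 : x ∉ s₁ := fun hcon => lt_asymm hcon.2 h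
        have h2 : x ∈ s₂ := ⟨⟨hxΩ, hx⟩, h⟩
        rw [indicator_of_notMem h1, indicator_of_mem h2, abs_of_neg h]
        ring
      · have h1 : x ∉ s₁ := fun hcon => (ne_of_gt hcon.2) h
        have h2 : x ∉ s₂ := fun hcon => (ne_of_lt hcon.2) h
        rw [indicator_of_notMem h1, indicator_of_notMem h2, h]
        ring
      · have h1 : x ∈ s₁ := ⟨⟨hxΩ, hx⟩, h⟩
        have h2 : x ∉ s₂ := fun hcon => lt_asymm hcon.2 h
        rw [indicator_of_mem h1, indicator_of_notMem h2, abs_of_pos h]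
        ring
    · have h1 : x ∉ s₁ := fun hcon => hxΩ hcon.1.1
      have h2 : x ∉ s₂ := fun hcon => hxΩ hcon.1.1
      rw [indicator_of_notMem h1, indicator_of_notMem h2, indicator_of_notMem hxΩ, sub_zero]

/-- If the functional restricted to `Ω`, multiplied by `m`, is `c ∫ g`, then the multiplicity
function is constant `c / m`, hence `m ∣ c`. -/
theorem mult_const {F : E → E} {L : ℝ≥0} (hF : LipschitzWith L F) {κ : ℝ} (hκ : 0 < κ)
    (hn : ∀ x, κ * ‖x‖ ≤ ‖F x‖)
    {Ω : Set E} (hΩ : MeasurableSet Ω) (m c : ℝ)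
    (h : ∀ g : E → ℝ, ContDiff ℝ 1 g → HasCompactSupport g →
      m * ∫ x in Ω, g (F x) * (fderiv ℝ F x).det ∂μ = c * ∫ y, g y ∂μ) :
    ∃ M : E → ℝ, Measurable M ∧ (∀ᵐ y ∂μ, ∃ k : ℤ, M y = k) ∧ (∀ᵐ y ∂μ, m * M y = c) ∧
      ∀ g : E → ℝ, BC g →
        ∫ x in Ω, g (F x) * (fderiv ℝ F x).det ∂μ = ∫ y, g y * M y ∂μ := by
  obtain ⟨M, hMm, hMk, hMb, hM⟩ := exists_mult μ hF hκ hn hΩ
  refine ⟨M, hMm, hMk, ?_, hM⟩
  have hloc : LocallyIntegrable M μ := by
    rw [locallyIntegrable_iff]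
    intro K hK
    obtain ⟨R, hR⟩ := hK.isBounded.subset_closedBall 0
    exact (hMb R).mono_set hR
  refine ae_eq_of_integral_contDiff_smul_eq (hloc.smul m) (locallyIntegrable_const c) ?_
  intro g hg hc
  have hg1 : ContDiff ℝ 1 g := hg.of_le (by exact_mod_cast le_top)
  have h1 := h g hg1 hc
  rw [hM g (BC.of_cont hg.continuous hc)] at h1
  have e1 : ∀ x, g x • ((m • M) x) = m * (g x * M x) := fun x => by
    rw [Pi.smul_apply, smul_eq_mul, smul_eq_mul]; ring
  have e2 : ∀ x, g x • c = c * g x := fun x => by rw [smul_eq_mul, mul_comm]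
  have e3 : ∫ x, g x • ((m • M) x) ∂μ = ∫ x, g x • c ∂μ := by
    simp only [e1, e2]
    rw [integral_const_mul, h1, integral_const_mul]
  exact e3

/-- integrality and divisibility -/
theorem exists_int {F : E → E} {L : ℝ≥0} (hF : LipschitzWith L F) {κ : ℝ} (hκ : 0 < κ)
    (hn : ∀ x, κ * ‖x‖ ≤ ‖F x‖)
    {Ω : Set E} (hΩ : MeasurableSet Ω) (m c : ℝ)
    (h : ∀ g : E → ℝ, ContDiff ℝ 1 g → HasCompactSupport g →
      m * ∫ x in Ω, g (F x) * (fderiv ℝ F x).det ∂μ = c * ∫ y, g y ∂μ) :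
    ∃ k : ℤ, c = m * k := by
  obtain ⟨M, -, hMk, hMc, -⟩ := mult_const μ hF hκ hn hΩ m c h
  obtain ⟨y, ⟨k, hk⟩, hy⟩ := (hMk.and hMc).exists
  exact ⟨k, by rw [← hy, hk]⟩

end Pool.Agent.Helper90.Deg
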