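import Mathlib
import Pool.Agent.Helper90.Deg.Int

/-! # The degree of Lipschitz coercive maps `E → E`. -/

open MeasureTheory Module Filter Topology Set
open scoped NNReal ENNReal ContDiff

set_option linter.unusedSectionVars false
set_option linter.unusedVariables false

namespace Pool.Agent.Helper90.Deg

variable {E : Type*} [NormedAddCommGroup E] [NormedSpace ℝ E] [FiniteDimensional ℝ E]
  [Nontrivial E]
  [MeasurableSpace E] [BorelSpace E] (μ : Measure E) [μ.IsAddHaarMeasure]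

/-- Lipschitz coercive maps -/
structure LC (F : E → E) : Prop where
  lip : ∃ L : ℝ≥0, LipschitzWith L F
  coer : ∃ κ : ℝ, 0 < κ ∧ ∀ x, κ * ‖x‖ ≤ ‖F x‖

/-- `F` has degree `c`. -/
def HasDeg (F : E → E) (c : ℤ) : Prop :=
  ∀ g : E → ℝ, ContDiff ℝ 1 g → HasCompactSupport g → Lam μ F g = c * ∫ y, g y ∂μ

theorem exists_hasDeg {F : E → E} (hF : LC F) : ∃ c : ℤ, HasDeg μ F c := by
  obtain ⟨⟨L, hL⟩, κ, hκ, hn⟩ := hF
  obtain ⟨c, hc⟩ := exists_const μ hL hκ hn
  obtain ⟨k, hk⟩ := exists_int μ hL hκ hn (Ω := univ) MeasurableSet.univ 1 c (by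
    intro g hg hgc
    rw [one_mul, setIntegral_univ]
    exact hc g hg hgc)
  refine ⟨k, fun g hg hgc => ?_⟩
  rw [hc g hg hgc, hk, one_mul]

theorem exists_test (E : Type*) [NormedAddCommGroup E] [NormedSpace ℝ E] [FiniteDimensional ℝ E]
    [MeasurableSpace E] [BorelSpace E] (μ : Measure E) [μ.IsAddHaarMeasure] :
    ∃ g : E → ℝ, ContDiff ℝ 1 g ∧ HasCompactSupport g ∧ ∫ y, g y ∂μ = 1 := by
  let b : ContDiffBump (0 : E) := default
  exact ⟨b.normed μ, b.contDiff_normed, b.hasCompactSupport_normed, b.integral_normed⟩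

theorem HasDeg.unique {F : E → E} {c c' : ℤ} (h : HasDeg μ F c) (h' : HasDeg μ F c') : c = c' := by
  obtain ⟨g, h1, h2, h3⟩ := exists_test E μ
  have e1 := h g h1 h2
  have e2 := h' g h1 h2
  rw [h3, mul_one] at e1 e2
  exact_mod_cast e1.symm.trans e2

theorem hasDeg_id : HasDeg μ (fun x : E => x) 1 := by
  intro g _ _
  unfold Lam
  have hid : (ContinuousLinearMap.id ℝ E).det = 1 := LinearMap.det_id
  simp only [fderiv_fun_id, hid, mul_one, Int.cast_one, one_mul]

/-- full form of the degree formula -/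
theorem HasDeg.bc {F : E → E} (hF : LC F) {c : ℤ} (h : HasDeg μ F c) {u : E → ℝ} (hu : BC u) :
    ∫ x, u (F x) * (fderiv ℝ F x).det ∂μ = c * ∫ y, u y ∂μ := by
  obtain ⟨⟨L, hL⟩, κ, hκ, hn⟩ := hF
  obtain ⟨M, hMm, -, hMc, hM⟩ := mult_const μ hL hκ hn (Ω := univ) MeasurableSet.univ 1 c (by
    intro g hg hgc
    rw [one_mul, setIntegral_univ]
    exact h g hg hgc)
  have h1 := hM u hu
  rw [setIntegral_univ] at h1
  rw [h1, ← integral_const_mul]
  apply integral_congr_ae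
  filter_upwards [hMc] with y hy
  rw [← hy, one_mul, mul_comm]

theorem int_const_of_cont {P : ℝ → ℝ} (hP : ContinuousOn P (Icc 0 1))
    (hk : ∀ t ∈ Icc (0 : ℝ) 1, ∃ k : ℤ, P t = k) : P 0 = P 1 := by
  by_contra hne
  obtain ⟨k₀, h₀⟩ := hk 0 (by simp)
  obtain ⟨k₁, h₁⟩ := hk 1 (by simp)
  rcases lt_or_gt_of_ne hne with h | h
  · have h2 : (k₀ : ℝ) + 1 ≤ k₁ := by
      rw [h₀, h₁] at h
      have : k₀ < k₁ := by exact_mod_cast h
      exact_mod_cast Int.add_one_le_iff.mpr this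
    obtain ⟨t, ht, ht2⟩ := intermediate_value_Icc zero_le_one hP
      (show (k₀ : ℝ) + 1 / 2 ∈ Icc (P 0) (P 1) by rw [h₀, h₁]; constructor <;> linarith)
    obtain ⟨k, hk⟩ := hk t ht
    rw [hk] at ht2
    have h3 : (k₀ : ℝ) < k := by linarith
    have h4 : (k : ℝ) < k₀ + 1 := by linarith
    have h5 : k₀ < k := by exact_mod_cast h3
    have h6 : k < k₀ + 1 := by exact_mod_cast h4
    omega
  · have h2 : (k₁ : ℝ) + 1 ≤ k₀ := by
      rw [h₀, h₁] at h
      have : k₁ < k₀ := by exact_mod_cast h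
      exact_mod_cast Int.add_one_le_iff.mpr this
    obtain ⟨t, ht, ht2⟩ := intermediate_value_Icc' zero_le_one hP
      (show (k₁ : ℝ) + 1 / 2 ∈ Icc (P 1) (P 0) by rw [h₀, h₁]; constructor <;> linarith)
    obtain ⟨k, hk⟩ := hk t ht
    rw [hk] at ht2
    have h3 : (k₁ : ℝ) < k := by linarith
    have h4 : (k : ℝ) < k₁ + 1 := by linarith
    have h5 : k₁ < k := by exact_mod_cast h3
    have h6 : k < k₁ + 1 := by exact_mod_cast h4
    omega

/-- **Invariance under coercive linear homotopies.** -/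
theorem HasDeg.linear_homotopy {F₀ F₁ : E → E} {L₀ L₁ : ℝ≥0} (h₀ : LipschitzWith L₀ F₀)
    (h₁ : LipschitzWith L₁ F₁) {κ : ℝ} (hκ : 0 < κ)
    (hc : ∀ t ∈ Icc (0 : ℝ) 1, ∀ x, κ * ‖x‖ ≤ ‖F₀ x + t • (F₁ x - F₀ x)‖)
    {c₀ c₁ : ℤ} (hd₀ : HasDeg μ F₀ c₀) (hd₁ : HasDeg μ F₁ c₁) : c₀ = c₁ := by
  obtain ⟨g, hg, hgc, hg1⟩ := exists_test E μ
  obtain ⟨C, R, hC0, hC, hR⟩ := bdd_of_compactSupport hg.continuous hgc
  let H : ℝ → E → E := fun t x => F₀ x + t • (F₁ x - F₀ x)
  have hHL : ∀ t ∈ Icc (0 : ℝ) 1, LipschitzWith (L₀ + (L₁ + L₀)) (H t) := by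
    intro t ht
    apply h₀.add
    apply LipschitzWith.of_dist_le_mul
    intro x y
    rw [dist_smul₀, Real.norm_eq_abs, abs_of_nonneg ht.1]
    calc t * dist (F₁ x - F₀ x) (F₁ y - F₀ y) ≤ 1 * dist (F₁ x - F₀ x) (F₁ y - F₀ y) :=
          mul_le_mul_of_nonneg_right ht.2 dist_nonneg
      _ = dist (F₁ x - F₀ x) (F₁ y - F₀ y) := one_mul _
      _ ≤ _ := (h₁.sub h₀).dist_le_mul x y
  obtain ⟨C1, hC1⟩ := det_bdd E (L₀ + (L₁ + L₀) : ℝ≥0)
  let P : ℝ → ℝ := fun t => Lam μ (H t) g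
  have hPk : ∀ t ∈ Icc (0 : ℝ) 1, ∃ k : ℤ, P t = k := by
    intro t ht
    obtain ⟨k, hk⟩ := exists_hasDeg μ (F := H t) ⟨⟨_, hHL t ht⟩, κ, hκ, hc t ht⟩
    refine ⟨k, ?_⟩
    have := hk g hg hgc
    rw [hg1, mul_one] at this
    exact this
  have hPc : ContinuousOn P (Icc 0 1) := by
    refine continuousOn_of_dominated
      (bound := (Metric.closedBall (0 : E) (R / κ)).indicator (fun _ => C * C1)) ?_ ?_ ?_ ?_
    · intro t ht
      exact ((hg.continuous.comp (hHL t ht).continuous).measurable.mul (meas_det _)).aestronglyMeasurable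
    · intro t ht
      refine Eventually.of_forall fun x => ?_
      by_cases hx : x ∈ Metric.closedBall (0 : E) (R / κ)
      · rw [indicator_of_mem hx, Real.norm_eq_abs, abs_mul]
        exact mul_le_mul (hC _) (hC1 _ (norm_fderiv_le_of_lipschitz ℝ (hHL t ht))) (abs_nonneg _) hC0
      · rw [indicator_of_notMem hx]
        rw [mem_closedBall_zero_iff, not_le, div_lt_iff₀' hκ] at hx
        rw [hR _ (hx.trans_le (hc t ht x)), zero_mul, norm_zero]
    · exact (integrable_indicator_iff measurableSet_closedBall).mpr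
        (integrableOn_const (isCompact_closedBall 0 _).measure_lt_top.ne)
    · filter_upwards [h₀.ae_differentiableAt (μ := μ), h₁.ae_differentiableAt (μ := μ)] with x hx₀ hx₁
      have e : ∀ t, fderiv ℝ (H t) x = fderiv ℝ F₀ x + t • (fderiv ℝ F₁ x - fderiv ℝ F₀ x) := by
        intro t
        exact (hx₀.hasFDerivAt.add ((hx₁.hasFDerivAt.sub hx₀.hasFDerivAt).const_smul t)).fderiv
      simp only [e]
      refine Continuous.continuousOn ?_
      have hgcont := hg.continuous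
      refine Continuous.mul (by fun_prop) ?_
      exact ContinuousLinearMap.continuous_det.comp (by fun_prop)
  have h2 := int_const_of_cont hPc hPk
  have e0 : P 0 = c₀ := by
    have := hd₀ g hg hgc
    rw [hg1, mul_one] at this
    simp only [P, H, zero_smul, add_zero]
    exact this
  have e1 : P 1 = c₁ := by
    have := hd₁ g hg hgc
    rw [hg1, mul_one] at this
    simp only [P, H, one_smul, add_sub_cancel]
    exact this
  rw [e0, e1] at h2
  exact_mod_cast h2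

/-- additivity -/
theorem HasDeg.add_of {F F₁ F₂ : E → E} (hF : LC F) (hF₁ : LC F₁) (hF₂ : LC F₂)
    {c c₁ c₂ : ℤ} (h : HasDeg μ F c) (h₁ : HasDeg μ F₁ c₁) (h₂ : HasDeg μ F₂ c₂)
    (hsplit : ∀ g : E → ℝ, ∀ᵐ x ∂μ, g (F x) * (fderiv ℝ F x).det =
      g (F₁ x) * (fderiv ℝ F₁ x).det + g (F₂ x) * (fderiv ℝ F₂ x).det) : c = c₁ + c₂ := by
  obtain ⟨g, hg, hgc, hg1⟩ := exists_test E μ
  have e := h g hg hgc
  have e₁ := h₁ g hg hgc
  have e₂ := h₂ g hg hgc
  rw [hg1, mul_one] at e e₁ e₂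
  obtain ⟨⟨L₁, hL₁⟩, κ₁, hκ₁, hn₁⟩ := hF₁
  obtain ⟨⟨L₂, hL₂⟩, κ₂, hκ₂, hn₂⟩ := hF₂
  have : Lam μ F g = Lam μ F₁ g + Lam μ F₂ g := by
    unfold Lam
    rw [← integral_add (lam_integrable μ hL₁ hκ₁ hn₁ hg.continuous hgc)
      (lam_integrable μ hL₂ hκ₂ hn₂ hg.continuous hgc)]
    exact integral_congr_ae (hsplit g)
  rw [e, e₁, e₂] at this
  exact_mod_cast this

theorem det_eq_zero_of_apply {A : E →L[ℝ] E} {v : E} (hv : v ≠ 0) (h : A v = 0) : A.det = 0 := by
  by_contra hne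
  have h1 := A.coe_toContinuousLinearEquivOfDetNeZero hne
  apply hv
  apply (A.toContinuousLinearEquivOfDetNeZero hne).injective
  rw [map_zero, ContinuousLinearMap.toContinuousLinearEquivOfDetNeZero_apply, h]

theorem exists_ker_of_det {A : E →L[ℝ] E} (h : A.det = 0) : ∃ v : E, v ≠ 0 ∧ A v = 0 := by
  by_contra hcon
  push Not at hcon
  have hinj : Function.Injective A.toLinearMap := by
    rw [injective_iff_map_eq_zero]
    intro v hv
    by_contra hv0
    exact hcon v hv0 hv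
  have hu : IsUnit A.toLinearMap := by
    rw [LinearMap.isUnit_iff_ker_eq_bot]
    exact LinearMap.ker_eq_bot.mpr hinj
  exact (LinearMap.isUnit_det _ hu).ne_zero h

theorem line_deriv {K : E → E} {x : E} (h : DifferentiableAt ℝ K x) (v : E) :
    HasDerivAt (fun t : ℝ => K (x + t • v)) (fderiv ℝ K x v) 0 := by
  have h3 : HasDerivAt (fun t : ℝ => x + t • v) v 0 := by
    have := ((hasDerivAt_id (0 : ℝ)).smul_const v).const_add x
    simpa using this
  have h4 : HasFDerivAt K (fderiv ℝ K x) (x + (0 : ℝ) • v) := by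
    rw [zero_smul, add_zero]; exact h.hasFDerivAt
  exact h4.comp_hasDerivAt 0 h3

/-- **Multiplicativity under composition.** -/
theorem HasDeg.comp {F H : E → E} (hF : LC F) (hH : LC H) {c c' : ℤ} (h : HasDeg μ F c)
    (h' : HasDeg μ H c') : HasDeg μ (F ∘ H) (c * c') := by
  intro g hg hgc
  have hH' := hH
  obtain ⟨⟨LF, hLF⟩, κF, hκF, hnF⟩ := hF
  obtain ⟨⟨LH, hLH⟩, κH, hκH, hnH⟩ := hH
  obtain ⟨C, R, hC0, hC, hR⟩ := bdd_of_compactSupport hg.continuous hgc
  obtain ⟨C1, hC1⟩ := det_bdd E LF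
  let u : E → ℝ := fun y => g (F y) * (fderiv ℝ F y).det
  have hu : BC u := by
    refine ⟨(hg.continuous.comp hLF.continuous).measurable.mul (meas_det F), C * C1, R / κF, ?_, ?_⟩
    · intro y
      simp only [u]
      rw [abs_mul]
      exact mul_le_mul (hC _) (hC1 _ (norm_fderiv_le_of_lipschitz ℝ hLF)) (abs_nonneg _) hC0
    · intro y hy
      rw [div_lt_iff₀' hκF] at hy
      simp only [u]
      rw [hR _ (hy.trans_le (hnF y)), zero_mul]
  have h1 := h'.bc μ hH' hu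
  have h2 : ∫ y, u y ∂μ = c * ∫ y, g y ∂μ := h g hg hgc
  rw [h2] at h1
  have hcast : ((c * c' : ℤ) : ℝ) * ∫ y, g y ∂μ = c' * (c * ∫ y, g y ∂μ) := by push_cast; ring
  rw [hcast, ← h1]
  -- chain rule almost everywhere
  unfold Lam
  apply integral_congr_ae
  -- the bad set
  set s : Set E := {x | DifferentiableAt ℝ H x} ∩ {x | (fderiv ℝ H x).det ≠ 0} with hs
  have hsm : MeasurableSet s := (meas_diff hLH.continuous).inter
    ((measurableSet_singleton (0 : ℝ)).compl.preimage (meas_det H))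
  obtain ⟨N, hNm, -, -, hNmap⟩ := exists_mult_pos μ hLH hκH hnH hsm (fun x hx => ⟨hx.1, hx.2⟩)
  set Z : Set E := {y | ¬ DifferentiableAt ℝ F y} with hZ
  have hZm : MeasurableSet Z := (meas_diff hLF.continuous).compl
  have hZ0 : μ Z = 0 := by
    have := hLF.ae_differentiableAt (μ := μ)
    rwa [ae_iff] at this
  have hbad : μ (H ⁻¹' Z ∩ s) = 0 := by
    have e1 : Measure.map H ((μ.restrict s).withDensity
        (fun x => ENNReal.ofReal |(fderiv ℝ H x).det|)) Z = 0 := by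
      rw [hNmap]
      exact (withDensity_absolutelyContinuous μ N) hZ0
    rw [Measure.map_apply hLH.continuous.measurable hZm,
      withDensity_apply _ (hLH.continuous.measurable hZm),
      Measure.restrict_restrict (hLH.continuous.measurable hZm)] at e1
    rw [lintegral_eq_zero_iff (f := fun x => ENNReal.ofReal |(fderiv ℝ H x).det|)
      (meas_det H).norm.ennreal_ofReal] at e1
    rw [Filter.EventuallyEq, ae_restrict_iff' ((hLH.continuous.measurable hZm).inter hsm)] at e1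
    rw [ae_iff] at e1
    refine measure_mono_null ?_ e1
    intro x hx hcon
    have h3 := hcon hx
    have h4 : ENNReal.ofReal |(fderiv ℝ H x).det| = 0 := h3
    rw [ENNReal.ofReal_eq_zero] at h4
    exact hx.2.2 (abs_nonpos_iff.mp h4)
  have hbad' : ∀ᵐ x ∂μ, x ∉ H ⁻¹' Z ∩ s := measure_eq_zero_iff_ae_notMem.mp hbad
  filter_upwards [hLH.ae_differentiableAt (μ := μ), (hLF.comp hLH).ae_differentiableAt (μ := μ),
    hbad'] with x hxH hxFH hxb
  show g (F (H x)) * _ = g (F (H x)) * (fderiv ℝ F (H x)).det * (fderiv ℝ H x).det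
  rw [mul_assoc]
  congr 1
  by_cases hdet : (fderiv ℝ H x).det = 0
  · rw [hdet, mul_zero]
    obtain ⟨v, hv, hAv⟩ := exists_ker_of_det hdet
    refine det_eq_zero_of_apply hv ?_
    -- directional derivative
    have d1 : HasDerivAt (fun t : ℝ => H (x + t • v)) 0 0 := by
      have h5 := line_deriv hxH v
      rw [hAv] at h5
      exact h5
    have d2 : HasDerivAt (fun t : ℝ => (F ∘ H) (x + t • v)) (fderiv ℝ (F ∘ H) x v) 0 :=
      line_deriv hxFH v
    have t1 := hasDerivAt_iff_tendsto_slope_zero.mp d1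
    have t2 := hasDerivAt_iff_tendsto_slope_zero.mp d2
    have t1' : Tendsto (fun t : ℝ => LF * ‖t⁻¹ • (H (x + (0 + t) • v) - H (x + (0 : ℝ) • v))‖)
        (𝓝[≠] 0) (𝓝 (LF * ‖(0 : E)‖)) := t1.norm.const_mul _
    have hle : ‖fderiv ℝ (F ∘ H) x v‖ ≤ LF * ‖(0 : E)‖ := by
      refine le_of_tendsto_of_tendsto t2.norm t1' ?_
      refine Eventually.of_forall fun t => ?_
      show ‖t⁻¹ • ((F ∘ H) (x + (0 + t) • v) - (F ∘ H) (x + (0 : ℝ) • v))‖ ≤
        LF * ‖t⁻¹ • (H (x + (0 + t) • v) - H (x + (0 : ℝ) • v))‖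
      rw [norm_smul, norm_smul]
      have := hLF.dist_le_mul (H (x + (0 + t) • v)) (H (x + (0 : ℝ) • v))
      rw [dist_eq_norm, dist_eq_norm] at this
      calc ‖t⁻¹‖ * ‖F (H (x + (0 + t) • v)) - F (H (x + (0 : ℝ) • v))‖
          ≤ ‖t⁻¹‖ * (LF * ‖H (x + (0 + t) • v) - H (x + (0 : ℝ) • v)‖) :=
            mul_le_mul_of_nonneg_left this (norm_nonneg _)
        _ = _ := by ring
    rw [norm_zero, mul_zero] at hle
    exact norm_le_zero_iff.mp hle
  · have hxs : x ∈ s := ⟨hxH, hdet⟩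
    have hFd : DifferentiableAt ℝ F (H x) := by
      by_contra hcon
      exact hxb ⟨hcon, hxs⟩
    rw [(hFd.hasFDerivAt.comp x hxH.hasFDerivAt).fderiv]
    exact LinearMap.det_comp _ _

end Pool.Agent.Helper90.Deg
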