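import Mathlib
import Pool.Agent.Helper90.Deg.Lip

/-! # Divisibility of the degree of maps invariant under a finite cyclic group of rotations. -/

open MeasureTheory Module Filter Topology Set
open scoped NNReal ENNReal ContDiff

set_option linter.unusedSectionVars false
set_option linter.unusedVariables false

namespace Pool.Agent.Helper90.Deg

variable {E : Type*} [NormedAddCommGroup E] [InnerProductSpace ℝ E] [FiniteDimensional ℝ E]
  [Nontrivial E]
  [MeasurableSpace E] [BorelSpace E] (μ : Measure E) [μ.IsAddHaarMeasure]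

/-- Dirichlet domain -/
def Dir (O : Finset E) (q : E) : Set E := {x | ∀ q' ∈ O, q' ≠ q → inner ℝ x q' < inner ℝ x q}

theorem Dir.meas (O : Finset E) (q : E) : MeasurableSet (Dir O q) := by
  have : Dir O q = ⋂ q' ∈ O, {x | q' ≠ q → inner ℝ x q' < inner ℝ x q} := by
    ext x; simp [Dir]
  rw [this]
  refine Finset.measurableSet_biInter _ fun q' _ => ?_
  by_cases h : q' ≠ q
  · have : {x : E | q' ≠ q → inner ℝ x q' < inner ℝ x q} = {x : E | inner ℝ x q' < inner ℝ x q} := by
      ext x; simp [h]
    rw [this]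
    exact measurableSet_lt (by fun_prop) (by fun_prop)
  · have : {x : E | q' ≠ q → inner ℝ x q' < inner ℝ x q} = univ := by
      ext x; simp [h]
    rw [this]
    exact MeasurableSet.univ

theorem Dir.disj (O : Finset E) {q q' : E} (hq : q ∈ O) (hq' : q' ∈ O) (hne : q ≠ q') :
    Disjoint (Dir O q) (Dir O q') := by
  rw [Set.disjoint_left]
  intro x h1 h2
  have a := h1 q' hq' hne.symm
  have b := h2 q hq hne
  exact lt_asymm a b

theorem Dir.cover (O : Finset E) (hO : O.Nonempty) : ∀ᵐ x ∂μ, ∃ q ∈ O, x ∈ Dir O q := by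
  have h1 : ∀ᵐ x ∂μ, ∀ q ∈ O, ∀ q' ∈ O, q ≠ q' → inner ℝ (q - q') x ≠ 0 := by
    rw [Finset.eventually_all]
    intro q hq
    rw [Finset.eventually_all]
    intro q' hq'
    by_cases hne : q = q'
    · exact Eventually.of_forall fun x h => (h hne).elim
    have h2 : μ ((LinearMap.ker (innerSL ℝ (q - q')).toLinearMap : Submodule ℝ E) : Set E) = 0 := by
      apply Measure.addHaar_submodule
      intro htop
      have h3 : (q - q') ∈ LinearMap.ker (innerSL ℝ (q - q')).toLinearMap := by
        rw [htop]; trivial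
      have h4 : inner ℝ (q - q') (q - q') = 0 := h3
      rw [inner_self_eq_zero] at h4
      exact hne (sub_eq_zero.mp h4)
    filter_upwards [measure_eq_zero_iff_ae_notMem.mp h2] with x hx _ hcon
    exact hx hcon
  filter_upwards [h1] with x hx
  obtain ⟨q, hq, hmax⟩ := O.exists_max_image (fun q => inner ℝ x q) hO
  refine ⟨q, hq, fun q' hq' hne => lt_of_le_of_ne (hmax q' hq') ?_⟩
  intro heq
  apply hx q hq q' hq' hne.symm
  rw [real_inner_comm, inner_sub_right, heq, sub_self]

theorem int_split (O : Finset E) (hO : O.Nonempty) {f : E → ℝ} (hf : Integrable f μ) :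
    ∫ x, f x ∂μ = ∑ q ∈ O, ∫ x in Dir O q, f x ∂μ := by
  rw [← integral_biUnion_finset O (fun q _ => Dir.meas O q)
    (fun q hq q' hq' hne => Dir.disj O hq hq' hne) (fun q _ => hf.integrableOn)]
  have e : ∫ x, f x ∂μ = ∫ x in univ, f x ∂μ := setIntegral_univ.symm
  rw [e]
  symm
  apply setIntegral_congr_set
  have h := Dir.cover μ O hO
  rw [ae_eq_univ]
  rw [ae_iff] at h
  refine measure_mono_null ?_ h
  intro x hx hcon
  apply hx
  obtain ⟨q, hq, hxq⟩ := hcon
  exact mem_biUnion hq hxq

theorem mp_of_det {R : E ≃ₗᵢ[ℝ] E} (hR : LinearMap.det (R.toLinearEquiv : E →ₗ[ℝ] E) = 1) :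
    MeasurePreserving R μ μ := by
  refine ⟨R.continuous.measurable, ?_⟩
  have h := Measure.map_linearMap_addHaar_eq_smul_addHaar μ
    (f := (R.toLinearEquiv : E →ₗ[ℝ] E)) (by rw [hR]; exact one_ne_zero)
  rw [hR, inv_one, abs_one, ENNReal.ofReal_one, one_smul] at h
  exact h

/-- **Divisibility.** -/
theorem HasDeg.dvd_of_invariant {F : E → E} (hF : LC F) {c : ℤ} (h : HasDeg μ F c)
    (R : E ≃ₗᵢ[ℝ] E) (hR : LinearMap.det (R.toLinearEquiv : E →ₗ[ℝ] E) = 1) (m : ℕ) (hm : 0 < m)
    (hRm : ∀ x, R^[m] x = x) (p : E) (hp : ∀ k, 0 < k → k < m → R^[k] p ≠ p)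
    (hinv : ∀ x, F (R x) = F x) : (m : ℤ) ∣ c := by
  classical
  set O : Finset E := (Finset.range m).image (fun k => R^[k] p) with hO
  have hinjR : ∀ k, Function.Injective (R^[k]) := fun k => R.injective.iterate k
  have hinj : InjOn (fun k => R^[k] p) (Finset.range m : Set ℕ) := by
    have aux : ∀ i j, i < j → j < m → R^[i] p ≠ R^[j] p := by
      intro i j hij hj heq
      obtain ⟨d, rfl⟩ := Nat.exists_eq_add_of_lt hij
      have h1 : R^[i + d + 1] p = R^[i] (R^[d + 1] p) := by
        rw [add_assoc, Function.iterate_add_apply]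
      rw [h1] at heq
      exact hp (d + 1) (Nat.succ_pos d) (by omega) (hinjR i heq).symm
    intro i hi j hj hij
    rcases lt_trichotomy i j with h | h | h
    · exact (aux i j h (Finset.mem_range.mp hj) hij).elim
    · exact h
    · exact (aux j i h (Finset.mem_range.mp hi) hij.symm).elim
  have hcard : O.card = m := by
    rw [hO, Finset.card_image_of_injOn hinj, Finset.card_range]
  have hpO : p ∈ O := Finset.mem_image.mpr ⟨0, Finset.mem_range.mpr hm, rfl⟩
  have hRO : ∀ q, q ∈ O → R q ∈ O := by
    intro q hq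
    obtain ⟨k, hk, rfl⟩ := Finset.mem_image.mp hq
    rw [Finset.mem_range] at hk
    by_cases hk1 : k + 1 < m
    · exact Finset.mem_image.mpr ⟨k + 1, Finset.mem_range.mpr hk1, Function.iterate_succ_apply' _ _ _⟩
    · have : k + 1 = m := by omega
      refine Finset.mem_image.mpr ⟨0, Finset.mem_range.mpr hm, ?_⟩
      show p = R (R^[k] p)
      have h5 : k.succ = m := this
      rw [← Function.iterate_succ_apply' R, h5, hRm]
  have hRO' : ∀ q ∈ O, ∃ q' ∈ O, R q' = q := by
    have himg : O.image R = O := by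
      apply Finset.eq_of_subset_of_card_le
      · intro y hy
        obtain ⟨q, hq, rfl⟩ := Finset.mem_image.mp hy
        exact hRO q hq
      · rw [Finset.card_image_of_injective _ R.injective]
    intro q hq
    rw [← himg] at hq
    exact Finset.mem_image.mp hq
  have hDir : ∀ q, R ⁻¹' (Dir O (R q)) = Dir O q := by
    intro q
    ext x
    constructor
    · intro hx q' hq' hne
      have := hx (R q') (hRO q' hq') (fun hcon => hne (R.injective hcon))
      rwa [R.inner_map_map, R.inner_map_map] at this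
    · intro hx q' hq' hne
      obtain ⟨q'', hq'', rfl⟩ := hRO' q' hq'
      rw [R.inner_map_map, R.inner_map_map]
      exact hx q'' hq'' (fun hcon => hne (by rw [hcon]))
  have hFR : F ∘ R = F := funext hinv
  have hdet : ∀ x, (fderiv ℝ F (R x)).det = (fderiv ℝ F x).det := by
    intro x
    have h1 := R.toContinuousLinearEquiv.comp_right_fderiv (f := F) (x := x)
    have h2 : F ∘ (R.toContinuousLinearEquiv : E → E) = F := hFR
    rw [h2] at h1
    rw [h1]
    have h3 : ((fderiv ℝ F (R.toContinuousLinearEquiv x)).comp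
        (R.toContinuousLinearEquiv : E →L[ℝ] E)).det =
        (fderiv ℝ F (R.toContinuousLinearEquiv x)).det *
          LinearMap.det (R.toLinearEquiv : E →ₗ[ℝ] E) := LinearMap.det_comp _ _
    rw [h3, hR, mul_one]
    rfl
  obtain ⟨⟨L, hL⟩, κ, hκ, hn⟩ := hF
  obtain ⟨k, hk⟩ := exists_int μ hL hκ hn (Dir.meas O p) m c (by
    intro g hg hgc
    rw [← h g hg hgc]
    unfold Lam
    rw [int_split μ O ⟨p, hpO⟩ (lam_integrable μ hL hκ hn hg.continuous hgc)]
    have e1 : ∀ k, ∫ x in Dir O (R^[k] p), g (F x) * (fderiv ℝ F x).det ∂μ =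
        ∫ x in Dir O p, g (F x) * (fderiv ℝ F x).det ∂μ := by
      intro k
      induction k with
      | zero => rfl
      | succ k ih =>
        rw [← ih, Function.iterate_succ_apply']
        have e2 := (mp_of_det μ hR).setIntegral_preimage_emb R.toHomeomorph.measurableEmbedding
          (fun x => g (F x) * (fderiv ℝ F x).det) (Dir O (R (R^[k] p)))
        rw [← e2, hDir]
        congr with x
        rw [hdet, hinv]
    have e3 : ∀ q ∈ O, ∫ x in Dir O q, g (F x) * (fderiv ℝ F x).det ∂μ =
        ∫ x in Dir O p, g (F x) * (fderiv ℝ F x).det ∂μ := by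
      intro q hq
      obtain ⟨k, _, rfl⟩ := Finset.mem_image.mp hq
      exact e1 k
    rw [Finset.sum_congr rfl e3, Finset.sum_const, hcard, nsmul_eq_mul])
  exact ⟨k, by exact_mod_cast hk⟩

end Pool.Agent.Helper90.Deg
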