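import Mathlib
import Pool.Agent.Helper90.Deg.Div

/-! # The degree of continuous maps of spheres. -/

open MeasureTheory Module Filter Topology Set Metric
open scoped NNReal ENNReal ContDiff

set_option linter.unusedSectionVars false
set_option linter.unusedVariables false

namespace Pool.Agent.Helper90.Deg

section approx

variable {X : Type*} [MetricSpace X] [CompactSpace X]

/-- The subalgebra of Lipschitz functions. -/
def lipAlg (X : Type*) [MetricSpace X] [CompactSpace X] : Subalgebra ℝ C(X, ℝ) where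
  carrier := {f | ∃ L : ℝ≥0, LipschitzWith L f}
  mul_mem' := by
    rintro f g ⟨L, hL⟩ ⟨L', hL'⟩
    refine ⟨‖f‖₊ * L' + ‖g‖₊ * L, ?_⟩
    apply LipschitzWith.of_dist_le_mul
    intro x y
    have h1 := hL.dist_le_mul x y
    have h2 := hL'.dist_le_mul x y
    rw [Real.dist_eq] at h1 h2 ⊢
    have h3 : |f x| ≤ ‖f‖ := f.norm_coe_le_norm x
    have h4 : |g y| ≤ ‖g‖ := g.norm_coe_le_norm y
    calc |f x * g x - f y * g y| = |f x * (g x - g y) + (f x - f y) * g y| := by congr 1; ring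
      _ ≤ |f x * (g x - g y)| + |(f x - f y) * g y| := abs_add_le _ _
      _ = |f x| * |g x - g y| + |f x - f y| * |g y| := by rw [abs_mul, abs_mul]
      _ ≤ ‖f‖ * (L' * dist x y) + (L * dist x y) * ‖g‖ := by
          gcongr
      _ = _ := by
          push_cast
          ring
  add_mem' := by
    rintro f g ⟨L, hL⟩ ⟨L', hL'⟩
    exact ⟨L + L', hL.add hL'⟩
  algebraMap_mem' := fun r => ⟨0, LipschitzWith.const r⟩

theorem exists_lip_real (f : C(X, ℝ)) {ε : ℝ} (hε : 0 < ε) :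
    ∃ φ : C(X, ℝ), (∃ L : ℝ≥0, LipschitzWith L φ) ∧ ∀ x, ‖φ x - f x‖ ≤ ε := by
  obtain ⟨⟨φ, hφ⟩, h⟩ := ContinuousMap.exists_mem_subalgebra_near_continuousMap_of_separatesPoints
    (lipAlg X) (by
      intro x y hxy
      refine ⟨fun z => dist z x, ⟨⟨fun z => dist z x, by fun_prop⟩, ⟨1, ?_⟩, rfl⟩, ?_⟩
      · exact LipschitzWith.dist_left x
      · show dist x x ≠ dist y x
        rw [dist_self]
        exact (dist_pos.mpr hxy.symm).ne) f ε hε
  refine ⟨φ, hφ, fun x => ?_⟩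
  have h1 := (φ - f).norm_coe_le_norm x
  exact h1.trans h.le

theorem exists_lip_approx {E : Type*} [NormedAddCommGroup E] [NormedSpace ℝ E]
    [FiniteDimensional ℝ E] (f : C(X, E)) {ε : ℝ} (hε : 0 < ε) :
    ∃ φ : X → E, (∃ L : ℝ≥0, LipschitzWith L φ) ∧ ∀ x, ‖φ x - f x‖ ≤ ε := by
  classical
  let b := Module.finBasis ℝ E
  set B : ℝ := ∑ j, ‖b j‖ + 1 with hB
  have hB0 : 0 < B := by positivity
  have hcoord : ∀ j, ∃ φ : C(X, ℝ), (∃ L : ℝ≥0, LipschitzWith L φ) ∧
      ∀ x, ‖φ x - b.coord j (f x)‖ ≤ ε / B := by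
    intro j
    have hc : Continuous fun x => b.coord j (f x) :=
      ((b.coord j).continuous_of_finiteDimensional).comp f.continuous
    exact exists_lip_real ⟨fun x => b.coord j (f x), hc⟩ (by positivity)
  choose φ hφL hφ using hcoord
  choose L hL using hφL
  refine ⟨fun x => ∑ j, φ j x • b j, ⟨∑ j, L j * ‖b j‖₊, ?_⟩, fun x => ?_⟩
  · apply LipschitzWith.of_dist_le_mul
    intro x y
    rw [dist_eq_norm, ← Finset.sum_sub_distrib]
    refine (norm_sum_le _ _).trans ?_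
    push_cast
    rw [Finset.sum_mul]
    refine Finset.sum_le_sum fun j _ => ?_
    rw [← sub_smul, norm_smul]
    have := (hL j).dist_le_mul x y
    rw [dist_eq_norm] at this
    calc ‖φ j x - φ j y‖ * ‖b j‖ ≤ (L j * dist x y) * ‖b j‖ :=
          mul_le_mul_of_nonneg_right this (norm_nonneg _)
      _ = _ := by ring
  · have h1 : f x = ∑ j, b.coord j (f x) • b j := by
      conv_lhs => rw [← b.sum_repr (f x)]
      rfl
    simp only
    conv_lhs => rw [h1, ← Finset.sum_sub_distrib]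
    refine (norm_sum_le _ _).trans ?_
    calc ∑ j, ‖φ j x • b j - b.coord j (f x) • b j‖ ≤ ∑ j, ε / B * ‖b j‖ := by
          refine Finset.sum_le_sum fun j _ => ?_
          rw [← sub_smul, norm_smul]
          exact mul_le_mul_of_nonneg_right (hφ j x) (norm_nonneg _)
      _ = ε / B * ∑ j, ‖b j‖ := by rw [Finset.mul_sum]
      _ ≤ ε / B * B := by
          refine mul_le_mul_of_nonneg_left ?_ (by positivity)
          rw [hB]; linarith
      _ = ε := by field_simp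

end approx

section cone

variable {E : Type*} [NormedAddCommGroup E] [NormedSpace ℝ E]

/-- projection to the sphere -/
noncomputable def proj (x : E) (hx : x ≠ 0) : sphere (0 : E) 1 :=
  ⟨‖x‖⁻¹ • x, by
    rw [mem_sphere_zero_iff_norm, norm_smul, norm_inv, norm_norm,
      inv_mul_cancel₀ (norm_ne_zero_iff.mpr hx)]⟩

open Classical in
/-- homogeneous extension -/
noncomputable def cone (f : sphere (0 : E) 1 → E) (x : E) : E :=
  if hx : x = 0 then 0 else ‖x‖ • f (proj x hx)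

theorem cone_zero (f : sphere (0 : E) 1 → E) : cone f 0 = 0 := by simp [cone]

theorem cone_ne (f : sphere (0 : E) 1 → E) {x : E} (hx : x ≠ 0) :
    cone f x = ‖x‖ • f (proj x hx) := by simp [cone, hx]

theorem cone_norm {f : sphere (0 : E) 1 → E} (hf : ∀ y, ‖f y‖ = 1) (x : E) : ‖cone f x‖ = ‖x‖ := by
  by_cases hx : x = 0
  · rw [hx, cone_zero]
  · rw [cone_ne f hx, norm_smul, hf, mul_one, norm_norm]

theorem cone_sub_le {f g : sphere (0 : E) 1 → E} {ε : ℝ} (h : ∀ y, ‖f y - g y‖ ≤ ε) (x : E) :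
    ‖cone f x - cone g x‖ ≤ ε * ‖x‖ := by
  by_cases hx : x = 0
  · rw [hx, cone_zero, cone_zero]; simp
  · rw [cone_ne f hx, cone_ne g hx, ← smul_sub, norm_smul, norm_norm, mul_comm]
    exact mul_le_mul_of_nonneg_right (h _) (norm_nonneg _)

theorem proj_dist {x y : E} (hx : x ≠ 0) (hy : y ≠ 0) :
    ‖x‖ * dist (proj x hx) (proj y hy) ≤ 2 * ‖x - y‖ := by
  have hx0 : 0 < ‖x‖ := norm_pos_iff.mpr hx
  have hy0 : 0 < ‖y‖ := norm_pos_iff.mpr hy
  have h1 : dist (proj x hx) (proj y hy) = ‖‖x‖⁻¹ • x - ‖y‖⁻¹ • y‖ := by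
    rw [Subtype.dist_eq, dist_eq_norm]; rfl
  rw [h1]
  calc ‖x‖ * ‖‖x‖⁻¹ • x - ‖y‖⁻¹ • y‖ = ‖‖x‖ • (‖x‖⁻¹ • x - ‖y‖⁻¹ • y)‖ := by
        rw [norm_smul, norm_norm]
    _ = ‖(x - y) + (‖y‖ - ‖x‖) • (‖y‖⁻¹ • y)‖ := by
        congr 1
        rw [smul_sub, smul_inv_smul₀ hx0.ne', sub_smul, smul_inv_smul₀ hy0.ne']
        abel
    _ ≤ ‖x - y‖ + ‖(‖y‖ - ‖x‖) • (‖y‖⁻¹ • y)‖ := norm_add_le _ _
    _ = ‖x - y‖ + |‖y‖ - ‖x‖| := by
        rw [norm_smul, norm_smul, norm_inv, norm_norm, inv_mul_cancel₀ hy0.ne', mul_one,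
          Real.norm_eq_abs]
    _ ≤ ‖x - y‖ + ‖x - y‖ := by
        refine add_le_add le_rfl ?_
        rw [norm_sub_rev x y]
        exact abs_norm_sub_norm_le y x
    _ = 2 * ‖x - y‖ := by ring

theorem cone_lip {f : sphere (0 : E) 1 → E} {L : ℝ≥0} (hf : LipschitzWith L f) {B : ℝ≥0}
    (hB : ∀ y, ‖f y‖ ≤ B) : LipschitzWith (B + 2 * L) (cone f) := by
  apply LipschitzWith.of_dist_le_mul
  intro x y
  rw [dist_eq_norm, dist_eq_norm]
  push_cast
  by_cases hx : x = 0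
  · rw [hx, cone_zero, zero_sub, zero_sub, norm_neg, norm_neg]
    by_cases hy : y = 0
    · rw [hy, cone_zero]; simp
    · rw [cone_ne f hy, norm_smul, norm_norm]
      have := hB (proj y hy)
      have h0 := norm_nonneg y
      have hL0 := L.2
      calc ‖y‖ * ‖f (proj y hy)‖ ≤ ‖y‖ * B := mul_le_mul_of_nonneg_left this h0
        _ ≤ (B + 2 * L) * ‖y‖ := by
            have : 0 ≤ 2 * (L : ℝ) * ‖y‖ := by positivity
            nlinarith
  · by_cases hy : y = 0
    · rw [hy, cone_zero, sub_zero, sub_zero, cone_ne f hx, norm_smul, norm_norm]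
      have := hB (proj x hx)
      have h0 := norm_nonneg x
      have hL0 := L.2
      calc ‖x‖ * ‖f (proj x hx)‖ ≤ ‖x‖ * B := mul_le_mul_of_nonneg_left this h0
        _ ≤ (B + 2 * L) * ‖x‖ := by
            have : 0 ≤ 2 * (L : ℝ) * ‖x‖ := by positivity
            nlinarith
    · rw [cone_ne f hx, cone_ne f hy]
      have h1 : ‖x‖ • f (proj x hx) - ‖y‖ • f (proj y hy) =
          ‖x‖ • (f (proj x hx) - f (proj y hy)) + (‖x‖ - ‖y‖) • f (proj y hy) := by
        rw [smul_sub, sub_smul]; abel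
      rw [h1]
      refine (norm_add_le _ _).trans ?_
      have h2 : ‖‖x‖ • (f (proj x hx) - f (proj y hy))‖ ≤ 2 * L * ‖x - y‖ := by
        rw [norm_smul, norm_norm, ← dist_eq_norm]
        calc ‖x‖ * dist (f (proj x hx)) (f (proj y hy))
            ≤ ‖x‖ * (L * dist (proj x hx) (proj y hy)) :=
              mul_le_mul_of_nonneg_left (hf.dist_le_mul _ _) (norm_nonneg _)
          _ = L * (‖x‖ * dist (proj x hx) (proj y hy)) := by ring
          _ ≤ L * (2 * ‖x - y‖) := mul_le_mul_of_nonneg_left (proj_dist hx hy) L.2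
          _ = _ := by ring
      have h3 : ‖(‖x‖ - ‖y‖) • f (proj y hy)‖ ≤ B * ‖x - y‖ := by
        rw [norm_smul, mul_comm]
        refine mul_le_mul (hB _) ?_ (norm_nonneg _) B.2
        rw [Real.norm_eq_abs]
        exact abs_norm_sub_norm_le x y
      calc _ ≤ 2 * L * ‖x - y‖ + B * ‖x - y‖ := add_le_add h2 h3
        _ = _ := by ring

end cone

section sphere

variable {E : Type*} [NormedAddCommGroup E] [InnerProductSpace ℝ E] [FiniteDimensional ℝ E]
  [Nontrivial E]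

/-- the underlying vector valued map -/
def vec (f : C(sphere (0 : E) 1, sphere (0 : E) 1)) (y : sphere (0 : E) 1) : E := f y

theorem vec_norm (f : C(sphere (0 : E) 1, sphere (0 : E) 1)) (y : sphere (0 : E) 1) :
    ‖vec f y‖ = 1 := mem_sphere_zero_iff_norm.mp (f y).2

/-- Lipschitz approximation of the homogeneous extension -/
def Approx (f : C(sphere (0 : E) 1, sphere (0 : E) 1)) (F : E → E) : Prop :=
  (∃ L : ℝ≥0, LipschitzWith L F) ∧ ∀ x, ‖F x - cone (vec f) x‖ ≤ 1 / 4 * ‖x‖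

theorem exists_approx (f : C(sphere (0 : E) 1, sphere (0 : E) 1)) {ε : ℝ} (hε : 0 < ε) :
    ∃ F : E → E, (∃ L : ℝ≥0, LipschitzWith L F) ∧ ∀ x, ‖F x - cone (vec f) x‖ ≤ ε * ‖x‖ := by
  have hc : Continuous (vec f) := continuous_subtype_val.comp f.continuous
  obtain ⟨φ, ⟨L, hL⟩, hφ⟩ := exists_lip_approx (⟨vec f, hc⟩ : C(sphere (0 : E) 1, E)) hε
  refine ⟨cone φ, ⟨_, cone_lip hL (B := ⟨1 + ε, by positivity⟩) ?_⟩, fun x => cone_sub_le hφ x⟩
  intro y
  have h1 : ‖φ y - vec f y‖ ≤ ε := hφ y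
  have h2 : φ y = vec f y + (φ y - vec f y) := by abel
  rw [h2]
  refine (norm_add_le _ _).trans ?_
  rw [vec_norm]
  show 1 + ‖φ y - vec f y‖ ≤ 1 + ε
  linarith

theorem Approx.lc {f : C(sphere (0 : E) 1, sphere (0 : E) 1)} {F : E → E} (h : Approx f F) :
    LC F := by
  refine ⟨h.1, 3 / 4, by norm_num, fun x => ?_⟩
  have h1 := h.2 x
  have h2 : ‖cone (vec f) x‖ = ‖x‖ := cone_norm (vec_norm f) x
  have h3 := norm_sub_norm_le (cone (vec f) x) (F x)
  rw [norm_sub_rev] at h3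
  linarith

variable [MeasurableSpace E] [BorelSpace E] (μ : Measure E) [μ.IsAddHaarMeasure]

/-- `f` has degree `c` -/
def HasDegS (f : C(sphere (0 : E) 1, sphere (0 : E) 1)) (c : ℤ) : Prop :=
  ∃ F : E → E, Approx f F ∧ HasDeg μ F c

theorem exists_hasDegS (f : C(sphere (0 : E) 1, sphere (0 : E) 1)) : ∃ c : ℤ, HasDegS μ f c := by
  obtain ⟨F, h1, h2⟩ := exists_approx f (ε := 1 / 4) (by norm_num)
  have hA : Approx f F := ⟨h1, h2⟩
  obtain ⟨c, hc⟩ := exists_hasDeg μ hA.lc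
  exact ⟨c, F, hA, hc⟩

theorem approx_close {f g : C(sphere (0 : E) 1, sphere (0 : E) 1)}
    (hfg : ∀ y, ‖vec f y - vec g y‖ ≤ 1 / 4) {F G : E → E} (hF : Approx f F) (hG : Approx g G)
    {c c' : ℤ} (h : HasDeg μ F c) (h' : HasDeg μ G c') : c = c' := by
  obtain ⟨⟨L, hL⟩, hF⟩ := hF
  obtain ⟨⟨L', hL'⟩, hG⟩ := hG
  refine HasDeg.linear_homotopy μ hL hL' (κ := 1 / 2) (by norm_num) ?_ h h'
  intro t ht x
  have h1 := hF x
  have h2 := hG x
  have h3 := cone_sub_le hfg x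
  have h4 : ‖cone (vec f) x‖ = ‖x‖ := cone_norm (vec_norm f) x
  have h5 : F x + t • (G x - F x) = cone (vec f) x + ((1 - t) • (F x - cone (vec f) x) +
      t • (G x - cone (vec g) x) + t • (cone (vec g) x - cone (vec f) x)) := by
    module
  have h6 : ‖(1 - t) • (F x - cone (vec f) x) +
      t • (G x - cone (vec g) x) + t • (cone (vec g) x - cone (vec f) x)‖ ≤ 1 / 2 * ‖x‖ := by
    refine (norm_add₃_le).trans ?_
    rw [norm_smul, norm_smul, norm_smul, Real.norm_eq_abs, Real.norm_eq_abs,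
      abs_of_nonneg ht.1, abs_of_nonneg (by linarith [ht.2] : (0 : ℝ) ≤ 1 - t),
      norm_sub_rev (cone (vec g) x)]
    have ht1 := ht.1
    have ht2 := ht.2
    have h0 := norm_nonneg x
    calc (1 - t) * ‖F x - cone (vec f) x‖ + t * ‖G x - cone (vec g) x‖ +
          t * ‖cone (vec f) x - cone (vec g) x‖
        ≤ (1 - t) * (1 / 4 * ‖x‖) + t * (1 / 4 * ‖x‖) + t * (1 / 4 * ‖x‖) := by
          gcongr
      _ = (1 + t) * (1 / 4 * ‖x‖) := by ring
      _ ≤ 2 * (1 / 4 * ‖x‖) := by gcongr; linarith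
      _ = _ := by ring
  rw [h5]
  have h7 := norm_sub_norm_le (cone (vec f) x) (-((1 - t) • (F x - cone (vec f) x) +
      t • (G x - cone (vec g) x) + t • (cone (vec g) x - cone (vec f) x)))
  rw [norm_neg, sub_neg_eq_add] at h7
  linarith

theorem HasDegS.close {f g : C(sphere (0 : E) 1, sphere (0 : E) 1)}
    (hfg : ∀ y, ‖vec f y - vec g y‖ ≤ 1 / 4)
    {c c' : ℤ} (h : HasDegS μ f c) (h' : HasDegS μ g c') : c = c' := by
  obtain ⟨F, hF, h⟩ := h
  obtain ⟨G, hG, h'⟩ := h'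
  exact approx_close μ hfg hF hG h h'

theorem HasDegS.unique {f : C(sphere (0 : E) 1, sphere (0 : E) 1)}
    {c c' : ℤ} (h : HasDegS μ f c) (h' : HasDegS μ f c') : c = c' :=
  h.close μ (fun y => by rw [sub_self, norm_zero]; norm_num) h'

theorem HasDegS.of_approx {f : C(sphere (0 : E) 1, sphere (0 : E) 1)} {c : ℤ}
    (h : HasDegS μ f c) {F : E → E} (hF : Approx f F) : HasDeg μ F c := by
  obtain ⟨c', hc'⟩ := exists_hasDeg μ hF.lc
  have : c = c' := h.unique μ ⟨F, hF, hc'⟩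
  rw [this]; exact hc'

end sphere

end Pool.Agent.Helper90.Deg
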