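import Mathlib
import Pool.Agent.Helper90.Deg.Cont

/-! # The degree of continuous self-maps of the unit sphere of a finite dimensional inner
product space: homotopy invariance, composition, invariance under rotations. -/

open MeasureTheory Module Filter Topology Set Metric
open scoped NNReal ENNReal ContDiff

set_option linter.unusedSectionVars false
set_option linter.unusedVariables false
set_option linter.style.haveILetI false

namespace Pool.Agent.Helper90.Deg

variable {E : Type*} [NormedAddCommGroup E] [InnerProductSpace ℝ E] [FiniteDimensional ℝ E]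
  [Nontrivial E]

/-- The degree of a continuous self-map of the unit sphere. -/
noncomputable def deg (f : C(sphere (0 : E) 1, sphere (0 : E) 1)) : ℤ :=
  letI : MeasurableSpace E := borel E
  haveI : BorelSpace E := ⟨rfl⟩
  Classical.choose (exists_hasDegS (Measure.addHaar : Measure E) f)

theorem deg_spec (f : C(sphere (0 : E) 1, sphere (0 : E) 1)) :
    letI : MeasurableSpace E := borel E
    haveI : BorelSpace E := ⟨rfl⟩
    HasDegS (Measure.addHaar : Measure E) f (deg f) :=
  letI : MeasurableSpace E := borel E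
  haveI : BorelSpace E := ⟨rfl⟩
  Classical.choose_spec (exists_hasDegS (Measure.addHaar : Measure E) f)

theorem deg_close {f g : C(sphere (0 : E) 1, sphere (0 : E) 1)}
    (hfg : ∀ y, ‖vec f y - vec g y‖ ≤ 1 / 4) : deg f = deg g := by
  letI : MeasurableSpace E := borel E
  haveI : BorelSpace E := ⟨rfl⟩
  exact HasDegS.close Measure.addHaar hfg (deg_spec f) (deg_spec g)

/-- **Homotopy invariance.** -/
theorem deg_homotopic {f g : C(sphere (0 : E) 1, sphere (0 : E) 1)}
    (h : ContinuousMap.Homotopic f g) : deg f = deg g := by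
  obtain ⟨F⟩ := h
  have hlc : IsLocallyConstant (deg (E := E)) := by
    rw [IsLocallyConstant.iff_eventually_eq]
    intro f
    filter_upwards [Metric.closedBall_mem_nhds f (by norm_num : (0 : ℝ) < 1 / 4)] with g hg
    apply deg_close
    intro y
    have h1 := (ContinuousMap.dist_apply_le_dist (f := g) (g := f) y).trans hg
    rw [Subtype.dist_eq, dist_eq_norm] at h1
    exact h1
  have h2 : IsLocallyConstant (fun t => deg (F.curry t)) := hlc.comp_continuous F.curry.continuous
  have h3 := h2.apply_eq_of_preconnectedSpace 0 1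
  have e0 : F.curry 0 = f := by
    ext y : 1
    show F (0, y) = f y
    exact F.apply_zero y
  have e1 : F.curry 1 = g := by
    ext y : 1
    show F (1, y) = g y
    exact F.apply_one y
  rw [e0, e1] at h3
  exact h3

theorem cone_comp (f h : C(sphere (0 : E) 1, sphere (0 : E) 1)) (x : E) :
    cone (vec (f.comp h)) x = cone (vec f) (cone (vec h) x) := by
  by_cases hx : x = 0
  · rw [hx, cone_zero, cone_zero, cone_zero]
  · have hx0 : ‖x‖ ≠ 0 := norm_ne_zero_iff.mpr hx
    have hn : ‖cone (vec h) x‖ = ‖x‖ := cone_norm (vec_norm h) x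
    have hz : cone (vec h) x ≠ 0 := by
      rw [← norm_ne_zero_iff, hn]; exact hx0
    rw [cone_ne _ hx, cone_ne _ hz, hn]
    congr 1
    show ((f (h (proj x hx)) : sphere (0 : E) 1) : E) = (f (proj (cone (vec h) x) hz) : E)
    congr 2
    apply Subtype.ext
    show ((h (proj x hx) : sphere (0 : E) 1) : E) = ‖cone (vec h) x‖⁻¹ • cone (vec h) x
    rw [hn, cone_ne _ hx, inv_smul_smul₀ hx0]
    rfl

/-- **Multiplicativity.** -/
theorem deg_comp (f h : C(sphere (0 : E) 1, sphere (0 : E) 1)) :
    deg (f.comp h) = deg f * deg h := by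
  letI : MeasurableSpace E := borel E
  haveI : BorelSpace E := ⟨rfl⟩
  obtain ⟨F, ⟨L, hL⟩, hF⟩ := exists_approx f (ε := 1 / 8) (by norm_num)
  have hL0 : (0 : ℝ) ≤ L := L.2
  obtain ⟨H, hHL, hH⟩ := exists_approx h (ε := 1 / (8 * (L + 1))) (by positivity)
  have hAF : Approx f F := ⟨⟨L, hL⟩, fun x => (hF x).trans (by
    have := norm_nonneg x; linarith)⟩
  have hAH : Approx h H := ⟨hHL, fun x => (hH x).trans (by
    have h0 := norm_nonneg x
    have : 1 / (8 * ((L : ℝ) + 1)) ≤ 1 / 4 := by
      apply one_div_le_one_div_of_le (by norm_num); linarith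
    exact mul_le_mul_of_nonneg_right this h0)⟩
  have hdF := (deg_spec f).of_approx (Measure.addHaar : Measure E) hAF
  have hdH := (deg_spec h).of_approx (Measure.addHaar : Measure E) hAH
  have hdc := HasDeg.comp (Measure.addHaar : Measure E) hAF.lc hAH.lc hdF hdH
  have hAc : Approx (f.comp h) (F ∘ H) := by
    obtain ⟨L', hL'⟩ := hHL
    refine ⟨⟨_, hL.comp hL'⟩, fun x => ?_⟩
    rw [cone_comp]
    have h1 : ‖F (H x) - F (cone (vec h) x)‖ ≤ 1 / 8 * ‖x‖ := by
      have := hL.dist_le_mul (H x) (cone (vec h) x)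
      rw [dist_eq_norm, dist_eq_norm] at this
      refine this.trans ((mul_le_mul_of_nonneg_left (hH x) hL0).trans ?_)
      have h0 := norm_nonneg x
      have : (L : ℝ) * (1 / (8 * (L + 1))) ≤ 1 / 8 := by
        rw [mul_one_div, div_le_div_iff₀ (by positivity) (by norm_num)]
        linarith
      rw [← mul_assoc]
      exact mul_le_mul_of_nonneg_right this h0
    have h2 := hF (cone (vec h) x)
    rw [cone_norm (vec_norm h)] at h2
    have h3 : (F ∘ H) x - cone (vec f) (cone (vec h) x) =
        (F (H x) - F (cone (vec h) x)) + (F (cone (vec h) x) - cone (vec f) (cone (vec h) x)) := by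
      simp
    rw [h3]
    refine (norm_add_le _ _).trans ?_
    linarith
  exact (deg_spec (f.comp h)).unique (Measure.addHaar : Measure E) ⟨_, hAc, hdc⟩

theorem deg_id : deg (ContinuousMap.id (sphere (0 : E) 1)) = 1 := by
  letI : MeasurableSpace E := borel E
  haveI : BorelSpace E := ⟨rfl⟩
  refine (deg_spec _).unique (Measure.addHaar : Measure E) ⟨fun x => x, ⟨⟨1, LipschitzWith.id⟩, ?_⟩,
    hasDeg_id _⟩
  intro x
  have : cone (vec (ContinuousMap.id (sphere (0 : E) 1))) x = x := by
    by_cases hx : x = 0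
    · rw [hx, cone_zero]
    · rw [cone_ne _ hx]
      show ‖x‖ • (‖x‖⁻¹ • x) = x
      rw [smul_inv_smul₀ (norm_ne_zero_iff.mpr hx)]
  rw [this, sub_self, norm_zero]
  positivity

/-- degree of a map whose homogeneous extension is Lipschitz with constant determinant -/
theorem deg_of_det {f : C(sphere (0 : E) 1, sphere (0 : E) 1)} {L : ℝ≥0}
    (hL : LipschitzWith L (cone (vec f))) (k : ℤ) (S : Set E)
    (hS : letI : MeasurableSpace E := borel E
      haveI : BorelSpace E := ⟨rfl⟩
      (Measure.addHaar : Measure E) Sᶜ = 0)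
    (hk : ∀ x ∈ S, (fderiv ℝ (cone (vec f)) x).det = k) : deg f = k := by
  letI : MeasurableSpace E := borel E
  haveI : BorelSpace E := ⟨rfl⟩
  have hA : Approx f (cone (vec f)) := ⟨⟨L, hL⟩, fun x => by
    rw [sub_self, norm_zero]; positivity⟩
  have hd := (deg_spec f).of_approx (Measure.addHaar : Measure E) hA
  have hbc : BC ((closedBall (0 : E) 1).indicator (fun _ => (1 : ℝ))) := by
    refine ⟨measurable_const.indicator measurableSet_closedBall, 1, 1, ?_, ?_⟩
    · intro y
      by_cases hy : y ∈ closedBall (0 : E) 1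
      · rw [indicator_of_mem hy]; simp
      · rw [indicator_of_notMem hy]; simp
    · intro y hy
      apply indicator_of_notMem
      rw [mem_closedBall_zero_iff, not_le]
      exact hy
  have h1 := hd.bc (Measure.addHaar : Measure E) hA.lc hbc
  have h2 : ∫ x, (closedBall (0 : E) 1).indicator (fun _ => (1 : ℝ)) (cone (vec f) x) *
      (fderiv ℝ (cone (vec f)) x).det ∂(Measure.addHaar : Measure E) =
      ∫ x, (k : ℝ) * (closedBall (0 : E) 1).indicator (fun _ => (1 : ℝ)) x
        ∂(Measure.addHaar : Measure E) := by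
    apply integral_congr_ae
    filter_upwards [measure_eq_zero_iff_ae_notMem.mp hS] with x hx
    rw [hk x (not_not.mp hx), mul_comm]
    congr 1
    have hiff : cone (vec f) x ∈ closedBall (0 : E) 1 ↔ x ∈ closedBall (0 : E) 1 := by
      rw [mem_closedBall_zero_iff, mem_closedBall_zero_iff, cone_norm (vec_norm f)]
    by_cases hx1 : x ∈ closedBall (0 : E) 1
    · rw [indicator_of_mem hx1, indicator_of_mem (hiff.mpr hx1)]
    · rw [indicator_of_notMem hx1, indicator_of_notMem (fun h => hx1 (hiff.mp h))]
  rw [h2, integral_const_mul] at h1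
  have h3 : ∫ x, (closedBall (0 : E) 1).indicator (fun _ => (1 : ℝ)) x
        ∂(Measure.addHaar : Measure E) ≠ 0 := by
    rw [integral_indicator measurableSet_closedBall, setIntegral_const, smul_eq_mul, mul_one]
    rw [measureReal_def]
    exact (ENNReal.toReal_pos (measure_closedBall_pos _ _ one_pos).ne'
      (isCompact_closedBall 0 1).measure_lt_top.ne).ne'
  have h4 := mul_right_cancel₀ h3 h1
  exact_mod_cast h4.symm

/-- **Divisibility** for maps invariant under a cyclic group of rotations. -/
theorem dvd_deg (f : C(sphere (0 : E) 1, sphere (0 : E) 1)) (R : E ≃ₗᵢ[ℝ] E)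
    (hR : LinearMap.det (R.toLinearEquiv : E →ₗ[ℝ] E) = 1) (m : ℕ) (hm : 0 < m)
    (hRm : ∀ x, R^[m] x = x) (p : E) (hp : ∀ k, 0 < k → k < m → R^[k] p ≠ p)
    (hinv : ∀ y y' : sphere (0 : E) 1, (y' : E) = R y → f y' = f y) : (m : ℤ) ∣ deg f := by
  letI : MeasurableSpace E := borel E
  haveI : BorelSpace E := ⟨rfl⟩
  obtain ⟨F, ⟨L, hL⟩, hF⟩ := exists_approx f (ε := 1 / 4) (by norm_num)
  have hmR : (0 : ℝ) < m := by exact_mod_cast hm
  let F' : E → E := fun x => (m : ℝ)⁻¹ • ∑ k ∈ Finset.range m, F (R^[k] x)
  have hRk : ∀ k, LipschitzWith 1 (R^[k]) := by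
    intro k
    have := R.lipschitz.iterate k
    simpa using this
  have hconeR : ∀ x, cone (vec f) (R x) = cone (vec f) x := by
    intro x
    by_cases hx : x = 0
    · rw [hx, map_zero]
    · have hRx : R x ≠ 0 := by
        rw [← norm_ne_zero_iff, R.norm_map, norm_ne_zero_iff]; exact hx
      rw [cone_ne _ hx, cone_ne _ hRx, R.norm_map]
      congr 1
      show ((f (proj (R x) hRx) : sphere (0 : E) 1) : E) = (f (proj x hx) : E)
      rw [hinv (proj x hx) (proj (R x) hRx)]
      show ‖R x‖⁻¹ • R x = R (‖x‖⁻¹ • x)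
      rw [R.norm_map, map_smul]
  have hconeRk : ∀ k x, cone (vec f) (R^[k] x) = cone (vec f) x := by
    intro k
    induction k with
    | zero => intro x; rfl
    | succ k ih => intro x; rw [Function.iterate_succ_apply, ih, hconeR]
  have hnk : ∀ k x, ‖R^[k] x‖ = ‖x‖ := by
    intro k
    induction k with
    | zero => intro x; rfl
    | succ k ih => intro x; rw [Function.iterate_succ_apply, ih, R.norm_map]
  have hA : Approx f F' := by
    refine ⟨⟨‖(m : ℝ)⁻¹‖₊ * ∑ k ∈ Finset.range m, L, ?_⟩, fun x => ?_⟩
    · apply LipschitzWith.of_dist_le_mul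
      intro x y
      simp only [F']
      rw [dist_smul₀, dist_eq_norm, ← Finset.sum_sub_distrib]
      push_cast
      rw [mul_assoc, Finset.sum_mul]
      refine mul_le_mul_of_nonneg_left ?_ (norm_nonneg _)
      refine (norm_sum_le _ _).trans (Finset.sum_le_sum fun k _ => ?_)
      rw [← dist_eq_norm]
      refine (hL.dist_le_mul _ _).trans (mul_le_mul_of_nonneg_left ?_ L.2)
      have := (hRk k).dist_le_mul x y
      simpa using this
    · have h1 : F' x - cone (vec f) x =
          (m : ℝ)⁻¹ • ∑ k ∈ Finset.range m, (F (R^[k] x) - cone (vec f) (R^[k] x)) := by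
        simp only [hconeRk]
        rw [Finset.sum_sub_distrib, Finset.sum_const, Finset.card_range, smul_sub,
          ← Nat.cast_smul_eq_nsmul ℝ, inv_smul_smul₀ hmR.ne']
      rw [h1, norm_smul, Real.norm_eq_abs, abs_of_pos (inv_pos.mpr hmR)]
      calc (m : ℝ)⁻¹ * ‖∑ k ∈ Finset.range m, (F (R^[k] x) - cone (vec f) (R^[k] x))‖
          ≤ (m : ℝ)⁻¹ * ∑ k ∈ Finset.range m, (1 / 4 * ‖x‖) := by
            refine mul_le_mul_of_nonneg_left ?_ (inv_pos.mpr hmR).le
            refine (norm_sum_le _ _).trans (Finset.sum_le_sum fun k _ => ?_)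
            have := hF (R^[k] x)
            rwa [hnk] at this
        _ = 1 / 4 * ‖x‖ := by
            rw [Finset.sum_const, Finset.card_range, nsmul_eq_mul]
            field_simp
  have hd := (deg_spec f).of_approx (Measure.addHaar : Measure E) hA
  refine hd.dvd_of_invariant (Measure.addHaar : Measure E) hA.lc R hR m hm hRm p hp ?_
  intro x
  simp only [F']
  congr 1
  have h1 : ∀ k, R^[k] (R x) = R^[k + 1] x := fun k => (Function.iterate_succ_apply _ _ _).symm
  simp only [h1]
  have h2 := Finset.sum_range_succ' (fun k => F (R^[k] x)) m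
  have h3 := Finset.sum_range_succ (fun k => F (R^[k] x)) m
  rw [h3] at h2
  simp only [hRm, Function.iterate_zero, id_eq] at h2
  exact (add_right_cancel h2).symm

end Pool.Agent.Helper90.Deg
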