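import Mathlib
import Pool.Agent.Helper90.Deg.Sphere

/-! # Additivity of the degree. -/

open MeasureTheory Module Filter Topology Set Metric
open scoped NNReal ENNReal ContDiff

set_option linter.unusedSectionVars false
set_option linter.unusedVariables false
set_option linter.style.haveILetI false

namespace Pool.Agent.Helper90.Deg

variable {E : Type*} [NormedAddCommGroup E] [InnerProductSpace ℝ E]

theorem homotopic_of_ne_neg {X : Type*} [TopologicalSpace X] {f g : C(X, sphere (0 : E) 1)}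
    (h : ∀ y, (f y : E) ≠ -(g y : E)) : ContinuousMap.Homotopic f g := by
  let w : unitInterval × X → E := fun p => (1 - (p.1 : ℝ)) • (f p.2 : E) + (p.1 : ℝ) • (g p.2 : E)
  have hw : ∀ p, w p ≠ 0 := by
    intro p h0
    have h1 : (1 - (p.1 : ℝ)) • (f p.2 : E) = -((p.1 : ℝ) • (g p.2 : E)) := eq_neg_of_add_eq_zero_left h0
    have hf : ‖(f p.2 : E)‖ = 1 := mem_sphere_zero_iff_norm.mp (f p.2).2
    have hg : ‖(g p.2 : E)‖ = 1 := mem_sphere_zero_iff_norm.mp (g p.2).2
    have ht0 := p.1.2.1
    have ht1 := p.1.2.2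
    have h2 : 1 - (p.1 : ℝ) = p.1 := by
      have h3 := congrArg norm h1
      rw [norm_neg, norm_smul, norm_smul, hf, hg, mul_one, mul_one, Real.norm_eq_abs,
        Real.norm_eq_abs, abs_of_nonneg ht0, abs_of_nonneg (by linarith)] at h3
      exact h3
    have h4 : (p.1 : ℝ) = 1 / 2 := by linarith
    rw [h4] at h1
    apply h p.2
    have h5 : ((1 : ℝ) - 1 / 2) = 1 / 2 := by norm_num
    rw [h5, ← smul_neg] at h1
    exact smul_right_injective E (by norm_num : (1 / 2 : ℝ) ≠ 0) h1
  have hwc : Continuous w := by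
    have := f.continuous
    have := g.continuous
    simp only [w]
    fun_prop
  refine ⟨⟨⟨fun p => proj (w p) (hw p), ?_⟩, ?_, ?_⟩⟩
  · refine Continuous.subtype_mk ?_ _
    exact ((hwc.norm.inv₀ fun p => norm_ne_zero_iff.mpr (hw p))).smul hwc
  · intro y
    apply Subtype.ext
    show ‖w (0, y)‖⁻¹ • w (0, y) = (f y : E)
    have e : w (0, y) = (f y : E) := by simp [w]
    rw [e, mem_sphere_zero_iff_norm.mp (f y).2, inv_one, one_smul]
  · intro y
    apply Subtype.ext
    show ‖w (1, y)‖⁻¹ • w (1, y) = (g y : E)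
    have e : w (1, y) = (g y : E) := by simp [w]
    rw [e, mem_sphere_zero_iff_norm.mp (g y).2, inv_one, one_smul]

theorem norm_coe (x : sphere (0 : E) 1) : ‖(x : E)‖ = 1 := mem_sphere_zero_iff_norm.mp x.2

theorem col_norm (e x : sphere (0 : E) 1) :
    ‖(2 * max (inner ℝ (x : E) (e : E)) 0) • (x : E) - (e : E)‖ = 1 := by
  have h1 : ‖(2 * max (inner ℝ (x : E) (e : E)) 0) • (x : E) - (e : E)‖ ^ 2 = 1 := by
    rw [@norm_sub_sq ℝ, norm_smul, norm_coe, norm_coe, real_inner_smul_left]
    simp only [RCLike.re_to_real, mul_one, Real.norm_eq_abs, sq_abs]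
    rcases le_total (inner ℝ (x : E) (e : E)) 0 with h | h
    · rw [max_eq_right h]; ring
    · rw [max_eq_left h]; ring
  have h2 := norm_nonneg ((2 * max (inner ℝ (x : E) (e : E)) 0) • (x : E) - (e : E))
  nlinarith

/-- collapse of the hemisphere opposite to `e` to the point `-e` -/
noncomputable def col (e : sphere (0 : E) 1) : C(sphere (0 : E) 1, sphere (0 : E) 1) :=
  ⟨fun x => ⟨(2 * max (inner ℝ (x : E) (e : E)) 0) • (x : E) - (e : E),
    mem_sphere_zero_iff_norm.mpr (col_norm e x)⟩, by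
    refine Continuous.subtype_mk ?_ _
    fun_prop⟩

theorem col_coe (e x : sphere (0 : E) 1) :
    ((col e x : sphere (0 : E) 1) : E) = (2 * max (inner ℝ (x : E) (e : E)) 0) • (x : E) - (e : E) :=
  rfl

theorem col_lip (e : sphere (0 : E) 1) : LipschitzWith 4 (col e) := by
  apply LipschitzWith.of_dist_le_mul
  intro x y
  rw [Subtype.dist_eq, Subtype.dist_eq, dist_eq_norm, dist_eq_norm, col_coe, col_coe]
  set a := inner ℝ (x : E) (e : E) with ha
  set b := inner ℝ (y : E) (e : E) with hb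
  have hab : |a - b| ≤ ‖(x : E) - y‖ := by
    rw [ha, hb, ← inner_sub_left]
    have := abs_real_inner_le_norm ((x : E) - y) e
    rwa [norm_coe, mul_one] at this
  have hmax : |max a 0 - max b 0| ≤ |a - b| := abs_max_sub_max_le_abs a b 0
  have hb1 : |max b 0| ≤ 1 := by
    rw [abs_of_nonneg (le_max_right _ _)]
    refine max_le ?_ zero_le_one
    have := abs_real_inner_le_norm (y : E) e
    rw [norm_coe, norm_coe, mul_one] at this
    exact (le_abs_self _).trans this
  have h1 : (2 * max a 0) • (x : E) - (e : E) - ((2 * max b 0) • (y : E) - (e : E)) =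
      (2 * (max a 0 - max b 0)) • (x : E) + (2 * max b 0) • ((x : E) - y) := by
    module
  rw [h1]
  refine (norm_add_le _ _).trans ?_
  rw [norm_smul, norm_smul, norm_coe, mul_one, Real.norm_eq_abs, Real.norm_eq_abs, abs_mul, abs_mul,
    abs_two]
  have h0 := norm_nonneg ((x : E) - y)
  show _ ≤ (4 : ℝ) * _
  nlinarith

theorem col_of_nonpos {e x : sphere (0 : E) 1} (h : inner ℝ (x : E) (e : E) ≤ 0) :
    col e x = -e := by
  apply Subtype.ext
  rw [col_coe, max_eq_right h, mul_zero, zero_smul, zero_sub]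
  rfl

theorem col_homotopic (e : sphere (0 : E) 1) :
    ContinuousMap.Homotopic (ContinuousMap.id (sphere (0 : E) 1)) (col e) := by
  apply homotopic_of_ne_neg
  intro y heq
  have h1 : inner ℝ (y : E) ((col e y : sphere (0 : E) 1) : E) = -1 := by
    have h2 : ((col e y : sphere (0 : E) 1) : E) = -(y : E) := by
      have : ((ContinuousMap.id (sphere (0 : E) 1)) y : E) = (y : E) := rfl
      rw [this] at heq
      rw [heq, neg_neg]
    rw [h2, inner_neg_right, real_inner_self_eq_norm_sq, norm_coe]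
    norm_num
  rw [col_coe, inner_sub_right, real_inner_smul_right, real_inner_self_eq_norm_sq, norm_coe] at h1
  rcases le_total (inner ℝ (y : E) (e : E)) 0 with h | h
  · rw [max_eq_right h] at h1; linarith
  · rw [max_eq_left h] at h1; linarith

variable [FiniteDimensional ℝ E] [Nontrivial E]

theorem det_norm_smul (hE : 2 ≤ finrank ℝ E) (w : E) {x : E} (hx : x ≠ 0) {F : E → E}
    (hF : F =ᶠ[𝓝 x] fun y => ‖y‖ • w) : (fderiv ℝ F x).det = 0 := by
  rw [hF.fderiv_eq]
  have hd : DifferentiableAt ℝ (fun y : E => ‖y‖) x := (differentiableAt_id.norm ℝ hx)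
  have h1 : HasFDerivAt (fun y : E => ‖y‖ • w) ((fderiv ℝ (fun y : E => ‖y‖) x).smulRight w) x :=
    hd.hasFDerivAt.smul_const w
  rw [h1.fderiv]
  have hker : LinearMap.ker (fderiv ℝ (fun y : E => ‖y‖) x).toLinearMap ≠ ⊥ :=
    LinearMap.ker_ne_bot_of_finrank_lt (by rw [finrank_self]; omega)
  obtain ⟨v, hv, hv0⟩ := Submodule.exists_mem_ne_zero_of_ne_bot hker
  letI : MeasurableSpace E := borel E
  haveI : BorelSpace E := ⟨rfl⟩
  refine det_eq_zero_of_apply hv0 ?_
  have : fderiv ℝ (fun y : E => ‖y‖) x v = 0 := hv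
  rw [ContinuousLinearMap.smulRight_apply, this, zero_smul]

theorem deg_split (hE : 2 ≤ finrank ℝ E)
    (G : C(sphere (0 : E) 1 × sphere (0 : E) 1, sphere (0 : E) 1)) (e : sphere (0 : E) 1) :
    deg (G.comp ((col e).prodMk (col (-e)))) =
      deg (G.comp ((col e).prodMk (ContinuousMap.const _ e))) +
      deg (G.comp ((ContinuousMap.const _ (-e)).prodMk (col (-e)))) := by
  letI : MeasurableSpace E := borel E
  haveI : BorelSpace E := ⟨rfl⟩
  have hGc : Continuous fun p => ((G p : sphere (0 : E) 1) : E) :=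
    continuous_subtype_val.comp G.continuous
  obtain ⟨Gt, ⟨L, hL⟩, hG⟩ := exists_lip_approx
    (⟨fun p => ((G p : sphere (0 : E) 1) : E), hGc⟩ : C(sphere (0 : E) 1 × sphere (0 : E) 1, E))
    (ε := 1 / 4) (by norm_num)
  have hbd : ∀ p, ‖Gt p‖ ≤ (2 : ℝ≥0) := by
    intro p
    have h1 := hG p
    have h2 : ‖((G p : sphere (0 : E) 1) : E)‖ = 1 := norm_coe _
    have h3 := norm_sub_norm_le (Gt p) ((G p : sphere (0 : E) 1) : E)
    have h4 : ‖Gt p - ((G p : sphere (0 : E) 1) : E)‖ ≤ 1 / 4 := h1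
    show _ ≤ (2 : ℝ)
    linarith
  -- the three vector valued maps
  have key : ∀ (u v : C(sphere (0 : E) 1, sphere (0 : E) 1)) (Lu Lv : ℝ≥0),
      LipschitzWith Lu u → LipschitzWith Lv v →
      Approx (G.comp (u.prodMk v)) (cone fun y => Gt (u y, v y)) := by
    intro u v Lu Lv hu hv
    refine ⟨⟨_, cone_lip (hL.comp (hu.prodMk hv)) (B := 2) fun y => hbd _⟩, fun x => ?_⟩
    refine cone_sub_le (fun y => ?_) x
    exact hG (u y, v y)
  have hc1 : LipschitzWith 4 (col e) := col_lip e
  have hc2 : LipschitzWith 4 (col (-e)) := col_lip (-e)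
  have hk1 : LipschitzWith 0 (ContinuousMap.const (sphere (0 : E) 1) e) := LipschitzWith.const e
  have hk2 : LipschitzWith 0 (ContinuousMap.const (sphere (0 : E) 1) (-e)) := LipschitzWith.const (-e)
  have A := key _ _ _ _ hc1 hc2
  have A₁ := key _ _ _ _ hc1 hk1
  have A₂ := key _ _ _ _ hk2 hc2
  have d := (deg_spec _).of_approx (Measure.addHaar : Measure E) A
  have d₁ := (deg_spec _).of_approx (Measure.addHaar : Measure E) A₁
  have d₂ := (deg_spec _).of_approx (Measure.addHaar : Measure E) A₂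
  refine HasDeg.add_of (Measure.addHaar : Measure E) A.lc A₁.lc A₂.lc d d₁ d₂ ?_
  intro g
  have hnull : (Measure.addHaar : Measure E)
      ((LinearMap.ker (innerSL ℝ (e : E)).toLinearMap : Submodule ℝ E) : Set E) = 0 := by
    apply Measure.addHaar_submodule
    intro htop
    have h3 : (e : E) ∈ LinearMap.ker (innerSL ℝ (e : E)).toLinearMap := by
      rw [htop]; trivial
    have h4 : inner ℝ (e : E) (e : E) = 0 := h3
    rw [real_inner_self_eq_norm_sq, norm_coe] at h4
    norm_num at h4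
  filter_upwards [measure_eq_zero_iff_ae_notMem.mp hnull] with x hx
  have hxe : inner ℝ (e : E) x ≠ 0 := hx
  have hx0 : x ≠ 0 := by
    intro h0
    apply hxe
    rw [h0, inner_zero_right]
  have hinner : ∀ (y : E) (hy : y ≠ 0) (e' : sphere (0 : E) 1),
      inner ℝ ((proj y hy : sphere (0 : E) 1) : E) (e' : E) = ‖y‖⁻¹ * inner ℝ (e' : E) y := by
    intro y hy e'
    show inner ℝ (‖y‖⁻¹ • y) (e' : E) = _
    rw [real_inner_smul_left, real_inner_comm]
  rcases lt_or_gt_of_ne hxe with hneg | hpos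
  · -- negative side
    have hU : ∀ᶠ y in 𝓝 x, inner ℝ (e : E) y < 0 ∧ y ≠ 0 := by
      have h1 : ∀ᶠ y in 𝓝 x, inner ℝ (e : E) y < 0 :=
        (by fun_prop : Continuous fun y : E => inner ℝ (e : E) y).continuousAt.eventually
          (gt_mem_nhds hneg)
      exact h1.and (isOpen_ne.mem_nhds hx0)
    have hcol : ∀ y, inner ℝ (e : E) y < 0 → ∀ hy : y ≠ 0, col e (proj y hy) = -e := by
      intro y hy1 hy
      apply col_of_nonpos
      rw [hinner y hy e]
      have : 0 < ‖y‖⁻¹ := inv_pos.mpr (norm_pos_iff.mpr hy)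
      nlinarith
    have e1 : (cone fun y => Gt (col e y, col (-e) y)) =ᶠ[𝓝 x]
        (cone fun y => Gt ((ContinuousMap.const (sphere (0 : E) 1) (-e)) y, col (-e) y)) := by
      filter_upwards [hU] with y hy
      rw [cone_ne _ hy.2, cone_ne _ hy.2, hcol y hy.1 hy.2]
      rfl
    have e2 : (cone fun y => Gt (col e y, (ContinuousMap.const (sphere (0 : E) 1) e) y)) =ᶠ[𝓝 x]
        fun y => ‖y‖ • Gt (-e, e) := by
      filter_upwards [hU] with y hy
      rw [cone_ne _ hy.2, hcol y hy.1 hy.2]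
      rfl
    rw [det_norm_smul hE _ hx0 e2, mul_zero, zero_add, e1.fderiv_eq, e1.self_of_nhds]
  · have hU : ∀ᶠ y in 𝓝 x, 0 < inner ℝ (e : E) y ∧ y ≠ 0 := by
      have h1 : ∀ᶠ y in 𝓝 x, 0 < inner ℝ (e : E) y :=
        (by fun_prop : Continuous fun y : E => inner ℝ (e : E) y).continuousAt.eventually
          (lt_mem_nhds hpos)
      exact h1.and (isOpen_ne.mem_nhds hx0)
    have hcol : ∀ y, 0 < inner ℝ (e : E) y → ∀ hy : y ≠ 0, col (-e) (proj y hy) = e := by
      intro y hy1 hy
      rw [col_of_nonpos, neg_neg]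
      rw [hinner y hy (-e)]
      have h1 : ((-e : sphere (0 : E) 1) : E) = -(e : E) := rfl
      rw [h1, inner_neg_left]
      have : 0 < ‖y‖⁻¹ := inv_pos.mpr (norm_pos_iff.mpr hy)
      nlinarith
    have e1 : (cone fun y => Gt (col e y, col (-e) y)) =ᶠ[𝓝 x]
        (cone fun y => Gt (col e y, (ContinuousMap.const (sphere (0 : E) 1) e) y)) := by
      filter_upwards [hU] with y hy
      rw [cone_ne _ hy.2, cone_ne _ hy.2, hcol y hy.1 hy.2]
      rfl
    have e2 : (cone fun y => Gt ((ContinuousMap.const (sphere (0 : E) 1) (-e)) y, col (-e) y))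
        =ᶠ[𝓝 x] fun y => ‖y‖ • Gt (-e, e) := by
      filter_upwards [hU] with y hy
      rw [cone_ne _ hy.2, hcol y hy.1 hy.2]
      rfl
    rw [det_norm_smul hE _ hx0 e2, mul_zero, add_zero, e1.fderiv_eq, e1.self_of_nhds]

theorem const_homotopic (hE : 2 ≤ finrank ℝ E) (a b : sphere (0 : E) 1) :
    ContinuousMap.Homotopic (ContinuousMap.const (sphere (0 : E) 1) a)
      (ContinuousMap.const (sphere (0 : E) 1) b) := by
  have hr : 1 < Module.rank ℝ E := by
    rw [← finrank_eq_rank ℝ E]
    exact_mod_cast hE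
  have hpc := isPathConnected_sphere hr (0 : E) zero_le_one
  have hne : Nonempty (sphere (0 : E) 1) := ⟨a⟩
  rw [ContinuousMap.homotopic_const_iff]
  have h1 := hpc.joinedIn a a.2 b b.2
  exact h1.joined_subtype

/-- **Additivity**: the degree of the diagonal restriction is the sum of the partial degrees. -/
theorem deg_diag (hE : 2 ≤ finrank ℝ E)
    (G : C(sphere (0 : E) 1 × sphere (0 : E) 1, sphere (0 : E) 1)) (a b : sphere (0 : E) 1) :
    deg (G.comp ((ContinuousMap.id _).prodMk (ContinuousMap.id _))) =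
      deg (G.comp ((ContinuousMap.id _).prodMk (ContinuousMap.const _ a))) +
      deg (G.comp ((ContinuousMap.const _ b).prodMk (ContinuousMap.id _))) := by
  have hG := ContinuousMap.Homotopic.refl G
  have e0 := deg_homotopic (hG.comp ((col_homotopic a).prodMk (col_homotopic (-a))))
  have e1 := deg_homotopic (hG.comp ((col_homotopic a).prodMk
    (ContinuousMap.Homotopic.refl (ContinuousMap.const (sphere (0 : E) 1) a))))
  have e2 := deg_homotopic (hG.comp ((const_homotopic hE b (-a)).prodMk (col_homotopic (-a))))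
  rw [e0, e1, e2]
  exact deg_split hE G a

end Pool.Agent.Helper90.Deg
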