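import Mathlib
import Pool.Agent.Helper90.Deg.Split

/-! # The degree on the group `S³` of unit quaternions. -/

open MeasureTheory Module Filter Topology Set Metric
open scoped NNReal ENNReal ContDiff Quaternion

set_option linter.unusedSectionVars false
set_option linter.unusedVariables false
set_option linter.style.haveILetI false

namespace Pool.Agent.Helper90.Deg

/-- the three-sphere of unit quaternions -/
abbrev S3 : Type := sphere (0 : ℍ[ℝ]) 1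

theorem finrank_quat : 2 ≤ finrank ℝ ℍ[ℝ] := by
  rw [Quaternion.finrank_eq_four]; norm_num

/-- multiplication as a continuous map -/
noncomputable def mulMap : C(S3 × S3, S3) := ⟨fun p => p.1 * p.2, by fun_prop⟩

theorem deg_mul (f g : C(S3, S3)) : deg (f * g) = deg f + deg g := by
  let G : C(S3 × S3, S3) := mulMap.comp (f.prodMap g)
  have h := deg_diag finrank_quat G 1 1
  have e0 : G.comp ((ContinuousMap.id _).prodMk (ContinuousMap.id _)) = f * g :=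
    ContinuousMap.ext fun x => rfl
  have e1 : G.comp ((ContinuousMap.id _).prodMk (ContinuousMap.const _ 1)) =
      mulMap.comp (f.prodMk (ContinuousMap.const _ (g 1))) :=
    ContinuousMap.ext fun x => rfl
  have e2 : G.comp ((ContinuousMap.const _ 1).prodMk (ContinuousMap.id _)) =
      mulMap.comp ((ContinuousMap.const _ (f 1)).prodMk g) :=
    ContinuousMap.ext fun x => rfl
  have h1 : deg (mulMap.comp (f.prodMk (ContinuousMap.const _ (g 1)))) = deg f := by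
    have h2 := deg_homotopic ((ContinuousMap.Homotopic.refl mulMap).comp
      ((ContinuousMap.Homotopic.refl f).prodMk (const_homotopic finrank_quat (g 1) 1)))
    rw [h2]
    congr 1
    refine ContinuousMap.ext fun x => ?_
    simp [mulMap]
  have h1' : deg (mulMap.comp ((ContinuousMap.const _ (f 1)).prodMk g)) = deg g := by
    have h2 := deg_homotopic ((ContinuousMap.Homotopic.refl mulMap).comp
      ((const_homotopic finrank_quat (f 1) 1).prodMk (ContinuousMap.Homotopic.refl g)))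
    rw [h2]
    congr 1
    refine ContinuousMap.ext fun x => ?_
    simp [mulMap]
  rw [e0, e1, e2, h1, h1'] at h
  exact h

theorem deg_one : deg (1 : C(S3, S3)) = 0 := by
  have h := deg_mul 1 1
  rw [mul_one] at h
  omega

theorem deg_const (c : S3) : deg (ContinuousMap.const S3 c) = 0 := by
  rw [deg_homotopic (const_homotopic finrank_quat c 1)]
  exact deg_one

theorem deg_inv (f : C(S3, S3)) : deg f⁻¹ = -deg f := by
  have h := deg_mul f f⁻¹
  rw [mul_inv_cancel, deg_one] at h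
  omega

theorem deg_pow (f : C(S3, S3)) (n : ℕ) : deg (f ^ n) = n * deg f := by
  induction n with
  | zero => rw [pow_zero, deg_one]; simp
  | succ n ih => rw [pow_succ, deg_mul, ih]; push_cast; ring

theorem det_neg_quat :
    LinearMap.det ((LinearIsometryEquiv.neg ℝ (E := ℍ[ℝ])).toLinearEquiv : ℍ[ℝ] →ₗ[ℝ] ℍ[ℝ]) = 1 := by
  have e : ((LinearIsometryEquiv.neg ℝ (E := ℍ[ℝ])).toLinearEquiv : ℍ[ℝ] →ₗ[ℝ] ℍ[ℝ]) =
      (-1 : ℝ) • LinearMap.id := by
    ext x : 1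
    simp
  rw [e, LinearMap.det_smul, LinearMap.det_id, Quaternion.finrank_eq_four]
  norm_num

/-- even maps have even degree -/
theorem even_deg (f : C(S3, S3)) (h : ∀ x, f (-x) = f x) : 2 ∣ deg f := by
  refine dvd_deg f (LinearIsometryEquiv.neg ℝ) det_neg_quat 2 (by norm_num) ?_ 1 ?_ ?_
  · intro x
    simp
  · intro k hk1 hk2
    have : k = 1 := by omega
    subst this
    simp only [Function.iterate_one, LinearIsometryEquiv.coe_neg]
    intro hcon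
    have h2 : (-1 : ℍ[ℝ]) = 1 := hcon
    have h3 : (-1 : ℍ[ℝ]).re = (1 : ℍ[ℝ]).re := by rw [h2]
    simp at h3
    norm_num at h3
  · intro y y' hy
    have : y' = -y := Subtype.ext hy
    rw [this, h]

/-- **Borsuk**: odd maps have odd degree. -/
theorem odd_deg (f : C(S3, S3)) (h : ∀ x, f (-x) = -f x) : Odd (deg f) := by
  have h1 : 2 ∣ deg ((ContinuousMap.id S3)⁻¹ * f) := by
    apply even_deg
    intro x
    show (-x)⁻¹ * f (-x) = x⁻¹ * f x
    rw [h]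
    apply Subtype.ext
    simp
  have h2 := deg_mul (ContinuousMap.id S3) ((ContinuousMap.id S3)⁻¹ * f)
  rw [mul_inv_cancel_left, deg_id] at h2
  obtain ⟨k, hk⟩ := h1
  exact ⟨k, by rw [h2, hk]; ring⟩

theorem det_mulLeft (u : ℍ[ℝ]) :
    LinearMap.det (LinearMap.mulLeft ℝ u) = (Quaternion.normSq u) ^ 2 := by
  let e : ℍ[ℝ] ≃ₗ[ℝ] (Fin 4 → ℝ) := QuaternionAlgebra.linearEquivTuple _ _ _
  have he : ∀ q : ℍ[ℝ], e q = ![q.re, q.imI, q.imJ, q.imK] := fun q => rfl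
  have hs : ∀ a : Fin 4 → ℝ, e.symm a = (⟨a 0, a 1, a 2, a 3⟩ : ℍ[ℝ]) := fun a => rfl
  rw [← LinearMap.det_conj (LinearMap.mulLeft ℝ u) e]
  rw [← LinearMap.det_toMatrix']
  have hM : LinearMap.toMatrix' ((e : ℍ[ℝ] →ₗ[ℝ] (Fin 4 → ℝ)) ∘ₗ LinearMap.mulLeft ℝ u ∘ₗ
      (e.symm : (Fin 4 → ℝ) →ₗ[ℝ] ℍ[ℝ])) =
      !![u.re, -u.imI, -u.imJ, -u.imK; u.imI, u.re, -u.imK, u.imJ;
        u.imJ, u.imK, u.re, -u.imI; u.imK, -u.imJ, u.imI, u.re] := by
    ext i j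
    rw [LinearMap.toMatrix'_apply]
    simp only [LinearMap.comp_apply, LinearEquiv.coe_coe, LinearMap.mulLeft_apply, hs, he]
    fin_cases i <;> fin_cases j <;> simp
  rw [hM, Quaternion.normSq_def']
  simp [Matrix.det_succ_row_zero, Fin.sum_univ_succ, Fin.succAbove]
  ring

theorem det_mulRight (u : ℍ[ℝ]) :
    LinearMap.det (LinearMap.mulRight ℝ u) = (Quaternion.normSq u) ^ 2 := by
  let e : ℍ[ℝ] ≃ₗ[ℝ] (Fin 4 → ℝ) := QuaternionAlgebra.linearEquivTuple _ _ _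
  have he : ∀ q : ℍ[ℝ], e q = ![q.re, q.imI, q.imJ, q.imK] := fun q => rfl
  have hs : ∀ a : Fin 4 → ℝ, e.symm a = (⟨a 0, a 1, a 2, a 3⟩ : ℍ[ℝ]) := fun a => rfl
  rw [← LinearMap.det_conj (LinearMap.mulRight ℝ u) e]
  rw [← LinearMap.det_toMatrix']
  have hM : LinearMap.toMatrix' ((e : ℍ[ℝ] →ₗ[ℝ] (Fin 4 → ℝ)) ∘ₗ LinearMap.mulRight ℝ u ∘ₗ
      (e.symm : (Fin 4 → ℝ) →ₗ[ℝ] ℍ[ℝ])) =
      !![u.re, -u.imI, -u.imJ, -u.imK; u.imI, u.re, u.imK, -u.imJ;
        u.imJ, -u.imK, u.re, u.imI; u.imK, u.imJ, -u.imI, u.re] := by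
    ext i j
    rw [LinearMap.toMatrix'_apply]
    simp only [LinearMap.comp_apply, LinearEquiv.coe_coe, LinearMap.mulRight_apply, hs, he]
    fin_cases i <;> fin_cases j <;> simp
  rw [hM, Quaternion.normSq_def']
  simp [Matrix.det_succ_row_zero, Fin.sum_univ_succ, Fin.succAbove]
  ring

/-- the rotation `q ↦ u q v` -/
noncomputable def rot (u v : S3) : ℍ[ℝ] ≃ₗᵢ[ℝ] ℍ[ℝ] where
  toFun q := (u : ℍ[ℝ]) * q * (v : ℍ[ℝ])
  invFun q := ((u⁻¹ : S3) : ℍ[ℝ]) * q * ((v⁻¹ : S3) : ℍ[ℝ])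
  map_add' a b := by rw [mul_add, add_mul]
  map_smul' c a := by simp
  left_inv q := by
    show ((u⁻¹ : S3) : ℍ[ℝ]) * ((u : ℍ[ℝ]) * q * (v : ℍ[ℝ])) * ((v⁻¹ : S3) : ℍ[ℝ]) = q
    have h1 : ((u⁻¹ : S3) : ℍ[ℝ]) * (u : ℍ[ℝ]) = 1 := by
      rw [← Metric.unitSphere.coe_mul, inv_mul_cancel]; rfl
    have h2 : (v : ℍ[ℝ]) * ((v⁻¹ : S3) : ℍ[ℝ]) = 1 := by
      rw [← Metric.unitSphere.coe_mul, mul_inv_cancel]; rfl
    calc _ = (((u⁻¹ : S3) : ℍ[ℝ]) * (u : ℍ[ℝ])) * q * ((v : ℍ[ℝ]) * ((v⁻¹ : S3) : ℍ[ℝ])) := by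
          simp only [mul_assoc]
      _ = q := by rw [h1, h2, one_mul, mul_one]
  right_inv q := by
    show (u : ℍ[ℝ]) * (((u⁻¹ : S3) : ℍ[ℝ]) * q * ((v⁻¹ : S3) : ℍ[ℝ])) * (v : ℍ[ℝ]) = q
    have h1 : (u : ℍ[ℝ]) * ((u⁻¹ : S3) : ℍ[ℝ]) = 1 := by
      rw [← Metric.unitSphere.coe_mul, mul_inv_cancel]; rfl
    have h2 : ((v⁻¹ : S3) : ℍ[ℝ]) * (v : ℍ[ℝ]) = 1 := by
      rw [← Metric.unitSphere.coe_mul, inv_mul_cancel]; rfl
    calc _ = ((u : ℍ[ℝ]) * ((u⁻¹ : S3) : ℍ[ℝ])) * q * (((v⁻¹ : S3) : ℍ[ℝ]) * (v : ℍ[ℝ])) := by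
          simp only [mul_assoc]
      _ = q := by rw [h1, h2, one_mul, mul_one]
  norm_map' q := by
    show ‖(u : ℍ[ℝ]) * q * (v : ℍ[ℝ])‖ = ‖q‖
    rw [norm_mul, norm_mul, norm_coe, norm_coe, one_mul, mul_one]

theorem rot_apply (u v : S3) (q : ℍ[ℝ]) : rot u v q = (u : ℍ[ℝ]) * q * (v : ℍ[ℝ]) := rfl

theorem normSq_coe (u : S3) : Quaternion.normSq (u : ℍ[ℝ]) = 1 := by
  rw [Quaternion.normSq_eq_norm_mul_self, norm_coe, mul_one]

theorem det_rot (u v : S3) : LinearMap.det ((rot u v).toLinearEquiv : ℍ[ℝ] →ₗ[ℝ] ℍ[ℝ]) = 1 := by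
  have e : ((rot u v).toLinearEquiv : ℍ[ℝ] →ₗ[ℝ] ℍ[ℝ]) =
      (LinearMap.mulRight ℝ (v : ℍ[ℝ])) ∘ₗ (LinearMap.mulLeft ℝ (u : ℍ[ℝ])) := by
    refine LinearMap.ext fun q => ?_
    rfl
  rw [e, LinearMap.det_comp, det_mulLeft, det_mulRight, normSq_coe, normSq_coe]
  norm_num

theorem rot_iterate (u v : S3) (k : ℕ) (q : ℍ[ℝ]) :
    (rot u v)^[k] q = ((u ^ k : S3) : ℍ[ℝ]) * q * ((v ^ k : S3) : ℍ[ℝ]) := by
  induction k generalizing q with
  | zero => simp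
  | succ k ih =>
    rw [Function.iterate_succ_apply, ih, rot_apply, pow_succ, pow_succ']
    simp only [Metric.unitSphere.coe_mul, mul_assoc]

/-- **Divisibility** for a cyclic group acting by `x ↦ u x v`. -/
theorem dvd_deg_rot (f : C(S3, S3)) (u v : S3) (m : ℕ) (hm : 0 < m) (hu : u ^ m * v ^ m = 1)
    (hc : ∀ x : S3, u ^ m * x = x * u ^ m) (p : S3)
    (hp : ∀ k, 0 < k → k < m → u ^ k * p * v ^ k ≠ p)
    (hinv : ∀ x, f (u * x * v) = f x) : (m : ℤ) ∣ deg f := by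
  refine dvd_deg f (rot u v) (det_rot u v) m hm ?_ (p : ℍ[ℝ]) ?_ ?_
  · have hS : ∀ x : S3, (rot u v)^[m] (x : ℍ[ℝ]) = x := by
      intro x
      rw [rot_iterate]
      have : u ^ m * x * v ^ m = x := by rw [hc, mul_assoc, hu, mul_one]
      conv_rhs => rw [← this]
      rfl
    intro x
    by_cases hx : x = 0
    · rw [hx, rot_iterate, mul_zero, zero_mul]
    · have h1 := hS (proj x hx)
      have h2 : x = ‖x‖ • ((proj x hx : S3) : ℍ[ℝ]) := by
        show x = ‖x‖ • (‖x‖⁻¹ • x)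
        rw [smul_inv_smul₀ (norm_ne_zero_iff.mpr hx)]
      rw [rot_iterate] at h1 ⊢
      conv_lhs => rw [h2]
      conv_rhs => rw [h2, ← h1]
      simp only [mul_smul_comm, smul_mul_assoc]
  · intro k hk1 hk2 hcon
    apply hp k hk1 hk2
    apply Subtype.ext
    rw [rot_iterate] at hcon
    exact hcon
  · intro y y' hy
    have : y' = u * y * v := Subtype.ext hy
    rw [this, hinv]

end Pool.Agent.Helper90.Deg
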