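import Mathlib
import Pool.Agent.Helper90.Deg.Quat

/-! # Power maps of the three-sphere in complex coordinates and their degree. -/

open MeasureTheory Module Filter Topology Set Metric
open scoped NNReal ENNReal ContDiff Quaternion

set_option linter.unusedSectionVars false
set_option linter.unusedVariables false
set_option linter.style.haveILetI false

namespace Pool.Agent.Helper90.Deg

/-- complex coordinates `q = a + b j` -/
noncomputable def toC : ℍ[ℝ] ≃ₗ[ℝ] ℂ × ℂ where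
  toFun q := (⟨q.re, q.imI⟩, ⟨q.imJ, q.imK⟩)
  invFun z := ⟨z.1.re, z.1.im, z.2.re, z.2.im⟩
  map_add' a b := by refine Prod.ext (Complex.ext ?_ ?_) (Complex.ext ?_ ?_) <;> simp
  map_smul' c a := by refine Prod.ext (Complex.ext ?_ ?_) (Complex.ext ?_ ?_) <;> simp
  left_inv q := by ext <;> rfl
  right_inv z := by ext <;> rfl

theorem toC_apply (q : ℍ[ℝ]) : toC q = ((⟨q.re, q.imI⟩ : ℂ), (⟨q.imJ, q.imK⟩ : ℂ)) := rfl
theorem toC_symm_apply (z : ℂ × ℂ) : toC.symm z = (⟨z.1.re, z.1.im, z.2.re, z.2.im⟩ : ℍ[ℝ]) := rfl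

theorem norm_toC (q : ℍ[ℝ]) : ‖q‖ ^ 2 = ‖(toC q).1‖ ^ 2 + ‖(toC q).2‖ ^ 2 := by
  rw [← Complex.normSq_eq_norm_sq, ← Complex.normSq_eq_norm_sq, Complex.normSq_apply,
    Complex.normSq_apply, toC_apply]
  have : ‖q‖ ^ 2 = Quaternion.normSq q := by
    rw [Quaternion.normSq_eq_norm_mul_self, sq]
  rw [this, Quaternion.normSq_def']
  simp only
  ring

theorem cone_smul {E : Type*} [NormedAddCommGroup E] [NormedSpace ℝ E]
    (f : sphere (0 : E) 1 → E) {t : ℝ} (ht : 0 ≤ t) (x : E) : cone f (t • x) = t • cone f x := by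
  rcases ht.eq_or_lt with h | h
  · rw [← h, zero_smul, zero_smul, cone_zero]
  by_cases hx : x = 0
  · rw [hx, smul_zero, cone_zero, smul_zero]
  · have htx : t • x ≠ 0 := smul_ne_zero h.ne' hx
    rw [cone_ne f hx, cone_ne f htx, norm_smul, Real.norm_eq_abs, abs_of_pos h, mul_smul]
    congr 3
    apply Subtype.ext
    show ‖t • x‖⁻¹ • t • x = ‖x‖⁻¹ • x
    rw [norm_smul, Real.norm_eq_abs, abs_of_pos h, smul_smul, mul_inv_rev, mul_assoc,
      inv_mul_cancel₀ h.ne', mul_one]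

/-- `k`-th power on the unit circle -/
noncomputable def cpow (k : ℤ) (z : sphere (0 : ℂ) 1) : ℂ := (z : ℂ) ^ k

theorem cpow_norm (k : ℤ) (z : sphere (0 : ℂ) 1) : ‖cpow k z‖ = 1 := by
  have : ‖(z : ℂ)‖ = 1 := mem_sphere_zero_iff_norm.mp z.2
  rw [cpow, norm_zpow, this, one_zpow]

theorem pow_dist (n : ℕ) (z w : ℂ) (hz : ‖z‖ = 1) (hw : ‖w‖ = 1) :
    ‖z ^ n - w ^ n‖ ≤ n * ‖z - w‖ := by
  induction n with
  | zero => simp
  | succ n ih =>
    have : z ^ (n + 1) - w ^ (n + 1) = (z ^ n - w ^ n) * z + w ^ n * (z - w) := by ring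
    rw [this]
    refine (norm_add_le _ _).trans ?_
    rw [norm_mul, norm_mul, hz, norm_pow, hw, one_pow, mul_one, one_mul]
    push_cast
    linarith

theorem cpow_lip (k : ℤ) : LipschitzWith k.natAbs (cpow k) := by
  apply LipschitzWith.of_dist_le_mul
  intro z w
  have hz : ‖(z : ℂ)‖ = 1 := mem_sphere_zero_iff_norm.mp z.2
  have hw : ‖(w : ℂ)‖ = 1 := mem_sphere_zero_iff_norm.mp w.2
  rw [dist_eq_norm, Subtype.dist_eq, dist_eq_norm]
  rcases Int.natAbs_eq k with h | h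
  · rw [cpow, cpow, h, zpow_natCast, zpow_natCast, Int.natAbs_natCast]
    have := pow_dist k.natAbs z w hz hw
    simpa using this
  · have h1 : ‖(z : ℂ)⁻¹‖ = 1 := by rw [norm_inv, hz, inv_one]
    have h2 : ‖(w : ℂ)⁻¹‖ = 1 := by rw [norm_inv, hw, inv_one]
    have hz0 : (z : ℂ) ≠ 0 := by rw [← norm_ne_zero_iff, hz]; exact one_ne_zero
    have hw0 : (w : ℂ) ≠ 0 := by rw [← norm_ne_zero_iff, hw]; exact one_ne_zero
    rw [cpow, cpow, h, zpow_neg, zpow_neg, zpow_natCast, zpow_natCast, ← inv_pow, ← inv_pow,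
      Int.natAbs_neg, Int.natAbs_natCast]
    have h3 := pow_dist k.natAbs _ _ h1 h2
    have h4 : ‖(z : ℂ)⁻¹ - (w : ℂ)⁻¹‖ = ‖(z : ℂ) - w‖ := by
      have : (z : ℂ)⁻¹ - (w : ℂ)⁻¹ = (z : ℂ)⁻¹ * (w - z) * (w : ℂ)⁻¹ := by field_simp
      rw [this, norm_mul, norm_mul, h1, h2, one_mul, mul_one, norm_sub_rev]
    rw [h4] at h3
    simpa using h3

/-- the map `a ↦ |a| (a/|a|)^k` -/
noncomputable def pk (k : ℤ) : ℂ → ℂ := cone (cpow k)

theorem pk_norm (k : ℤ) (a : ℂ) : ‖pk k a‖ = ‖a‖ := cone_norm (cpow_norm k) a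

theorem pk_lip (k : ℤ) : LipschitzWith (1 + 2 * k.natAbs) (pk k) :=
  cone_lip (cpow_lip k) (fun y => (cpow_norm k y).le)

theorem pk_ne (k : ℤ) {a : ℂ} (ha : a ≠ 0) : pk k a = ‖a‖ • ((‖a‖⁻¹ • a) ^ k) := by
  rw [pk, cone_ne _ ha]; rfl

/-- equivariance -/
theorem pk_mul (k : ℤ) (ζ : ℂ) (hζ : ‖ζ‖ = 1) (a : ℂ) : pk k (ζ * a) = ζ ^ k * pk k a := by
  by_cases ha : a = 0
  · rw [ha, mul_zero]
    simp [pk, cone_zero]
  · have hζ0 : ζ ≠ 0 := by rw [← norm_ne_zero_iff, hζ]; exact one_ne_zero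
    rw [pk_ne k ha, pk_ne k (mul_ne_zero hζ0 ha), norm_mul, hζ, one_mul]
    rw [← mul_smul_comm, mul_zpow, mul_smul_comm]

theorem pk_diff (k : ℤ) {a : ℂ} (ha : a ≠ 0) : DifferentiableAt ℝ (pk k) a := by
  have h1 : pk k =ᶠ[𝓝 a] fun a => ‖a‖ • ((‖a‖⁻¹ • a) ^ k) := by
    filter_upwards [isOpen_ne.mem_nhds ha] with b hb
    exact pk_ne k hb
  refine (DifferentiableAt.congr_of_eventuallyEq ?_ h1)
  have hn : DifferentiableAt ℝ (fun a : ℂ => ‖a‖) a := differentiableAt_id.norm ℝ ha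
  have hna : ‖a‖ ≠ 0 := norm_ne_zero_iff.mpr ha
  have h2 : DifferentiableAt ℝ (fun a : ℂ => ‖a‖⁻¹ • a) a := (hn.inv hna).smul differentiableAt_id
  have h3 : DifferentiableAt ℝ (fun z : ℂ => z ^ k) (‖a‖⁻¹ • a) := by
    have : DifferentiableAt ℂ (fun z : ℂ => z ^ k) (‖a‖⁻¹ • a) :=
      differentiableAt_zpow.mpr (Or.inl (smul_ne_zero (inv_ne_zero hna) ha))
    exact this.restrictScalars ℝ
  exact hn.smul (DifferentiableAt.comp (g := fun z : ℂ => z ^ k) a h3 h2)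

theorem det_pk (k : ℤ) {a : ℂ} (ha : a ≠ 0) : (fderiv ℝ (pk k) a).det = k := by
  have hd := (pk_diff k ha).hasFDerivAt
  set A := fderiv ℝ (pk k) a with hA
  set c := pk k a with hc
  have hc0 : c ≠ 0 := by
    rw [← norm_ne_zero_iff, hc, pk_norm, norm_ne_zero_iff]; exact ha
  -- radial derivative
  have h1 : A a = c := by
    have e1 : HasDerivAt (fun t : ℝ => (1 + t) • a) a 0 := by
      have := ((hasDerivAt_id (0 : ℝ)).const_add 1).smul_const a
      simpa using this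
    have hd' : HasFDerivAt (pk k) A ((1 + (0 : ℝ)) • a) := by
      rw [add_zero, one_smul]; exact hd
    have e2 : HasDerivAt (fun t : ℝ => pk k ((1 + t) • a)) (A a) 0 := hd'.comp_hasDerivAt 0 e1
    have e3 : HasDerivAt (fun t : ℝ => (1 + t) • c) c 0 := by
      have := ((hasDerivAt_id (0 : ℝ)).const_add 1).smul_const c
      simpa using this
    have e4 : (fun t : ℝ => pk k ((1 + t) • a)) =ᶠ[𝓝 0] fun t => (1 + t) • c := by
      filter_upwards [isOpen_Ioi.mem_nhds (show (0 : ℝ) ∈ Ioi (-1) by simp)] with t ht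
      have ht' : -1 < t := ht
      exact cone_smul _ (by linarith) a
    exact (e2.congr_of_eventuallyEq e4.symm).unique e3 |>.symm ▸ rfl
  have h2 : A (Complex.I * a) = k * Complex.I * c := by
    have hexp : ∀ t : ℝ, ‖Complex.exp (t * Complex.I)‖ = 1 := fun t => Complex.norm_exp_ofReal_mul_I t
    have e0 : HasDerivAt (fun t : ℝ => Complex.exp (t * Complex.I)) Complex.I 0 := by
      have h3 : HasDerivAt (fun t : ℝ => (t : ℂ) * Complex.I) Complex.I 0 := by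
        have := (Complex.ofRealCLM.hasDerivAt (x := (0 : ℝ))).mul_const Complex.I
        simpa using this
      have h4 := h3.cexp
      simpa using h4
    have e1 : HasDerivAt (fun t : ℝ => Complex.exp (t * Complex.I) * a) (Complex.I * a) 0 :=
      e0.mul_const a
    have hd' : HasFDerivAt (pk k) A (Complex.exp ((0 : ℝ) * Complex.I) * a) := by
      simpa using hd
    have e2 : HasDerivAt (fun t : ℝ => pk k (Complex.exp (t * Complex.I) * a)) (A (Complex.I * a)) 0 :=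
      hd'.comp_hasDerivAt 0 e1
    have e3 : HasDerivAt (fun t : ℝ => (Complex.exp (t * Complex.I)) ^ k * c) (k * Complex.I * c) 0 := by
      have h3 : HasDerivAt (fun t : ℝ => (t : ℂ) * (k * Complex.I)) (k * Complex.I) 0 := by
        have := (Complex.ofRealCLM.hasDerivAt (x := (0 : ℝ))).mul_const (k * Complex.I)
        simpa using this
      have h4 := h3.cexp
      have h5 : (fun t : ℝ => Complex.exp ((t : ℂ) * (k * Complex.I))) =
          fun t : ℝ => (Complex.exp (t * Complex.I)) ^ k := by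
        funext t
        rw [← Complex.exp_int_mul]
        congr 1; ring
      rw [h5] at h4
      have h6 := h4.mul_const c
      simpa using h6
    have e4 : (fun t : ℝ => pk k (Complex.exp (t * Complex.I) * a)) =
        fun t : ℝ => (Complex.exp (t * Complex.I)) ^ k * c := by
      funext t
      exact pk_mul k _ (hexp t) a
    rw [e4] at e2
    exact e2.unique e3
  -- the determinant
  let Dk : ℂ →ₗ[ℝ] ℂ :=
    { toFun := fun z => ⟨z.re, k * z.im⟩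
      map_add' := fun x y => by refine Complex.ext ?_ ?_ <;> simp [mul_add]
      map_smul' := fun r x => by
        refine Complex.ext ?_ ?_
        · simp
        · simp; ring }
  have hcomp : (A : ℂ →ₗ[ℝ] ℂ) ∘ₗ (Algebra.lmul ℝ ℂ a) = (Algebra.lmul ℝ ℂ c) ∘ₗ Dk := by
    apply Complex.basisOneI.ext
    intro i
    fin_cases i
    · show A (a * Complex.basisOneI 0) = c * Dk (Complex.basisOneI 0)
      have : Dk 1 = 1 := by refine Complex.ext ?_ ?_ <;> simp [Dk]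
      simp only [Complex.coe_basisOneI, Matrix.cons_val_zero, mul_one, this]
      exact h1
    · show A (a * Complex.basisOneI 1) = c * Dk (Complex.basisOneI 1)
      have : Dk Complex.I = k * Complex.I := by refine Complex.ext ?_ ?_ <;> simp [Dk]
      simp only [Complex.coe_basisOneI, Matrix.cons_val_one, Matrix.cons_val_zero, this]
      rw [mul_comm a, h2]; ring
  have hdet := congrArg LinearMap.det hcomp
  rw [LinearMap.det_comp, LinearMap.det_comp, ← Algebra.norm_apply, ← Algebra.norm_apply,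
    Algebra.norm_complex_apply, Algebra.norm_complex_apply, Complex.normSq_eq_norm_sq,
    Complex.normSq_eq_norm_sq, hc, pk_norm] at hdet
  have hDk : LinearMap.det Dk = k := by
    rw [← LinearMap.det_toMatrix Complex.basisOneI]
    have : LinearMap.toMatrix Complex.basisOneI Complex.basisOneI Dk = !![1, 0; 0, (k : ℝ)] := by
      ext i j
      rw [LinearMap.toMatrix_apply]
      fin_cases i <;> fin_cases j <;> simp [Dk, Complex.coe_basisOneI, Complex.coe_basisOneI_repr]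
    rw [this, Matrix.det_fin_two_of]
    ring
  rw [hDk] at hdet
  have hne : ‖a‖ ^ 2 ≠ 0 := pow_ne_zero 2 (norm_ne_zero_iff.mpr ha)
  have : LinearMap.det (A : ℂ →ₗ[ℝ] ℂ) = k := by
    rw [mul_comm] at hdet
    exact mul_left_cancel₀ hne hdet
  exact this

/-- the map `(a, b) ↦ (|a| (a/|a|)^k, |b| (b/|b|)^l)` on quaternions -/
noncomputable def Pq (k l : ℤ) (q : ℍ[ℝ]) : ℍ[ℝ] := toC.symm (pk k (toC q).1, pk l (toC q).2)

theorem toC_Pq (k l : ℤ) (q : ℍ[ℝ]) : toC (Pq k l q) = (pk k (toC q).1, pk l (toC q).2) := by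
  rw [Pq, LinearEquiv.apply_symm_apply]

theorem Pq_norm (k l : ℤ) (q : ℍ[ℝ]) : ‖Pq k l q‖ = ‖q‖ := by
  have h1 := norm_toC (Pq k l q)
  rw [toC_Pq, pk_norm, pk_norm, ← norm_toC] at h1
  exact (sq_eq_sq₀ (norm_nonneg _) (norm_nonneg _)).mp h1

theorem Pq_smul (k l : ℤ) {t : ℝ} (ht : 0 ≤ t) (q : ℍ[ℝ]) : Pq k l (t • q) = t • Pq k l q := by
  rw [Pq, Pq, map_smul, Prod.smul_fst, Prod.smul_snd, pk, pk, cone_smul _ ht, cone_smul _ ht,
    ← map_smul]
  rfl

theorem Pq_lip (k l : ℤ) : ∃ L : ℝ≥0, LipschitzWith L (Pq k l) := by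
  have h1 := (toC.toContinuousLinearEquiv : ℍ[ℝ] ≃L[ℝ] ℂ × ℂ).lipschitz
  have h2 := (toC.toContinuousLinearEquiv : ℍ[ℝ] ≃L[ℝ] ℂ × ℂ).symm.lipschitz
  have h3 : LipschitzWith _ (fun z : ℂ × ℂ => (pk k z.1, pk l z.2)) :=
    ((pk_lip k).comp LipschitzWith.prod_fst).prodMk ((pk_lip l).comp LipschitzWith.prod_snd)
  exact ⟨_, h2.comp (h3.comp h1)⟩

/-- the power map of the three-sphere -/
noncomputable def P (k l : ℤ) : C(S3, S3) :=
  ⟨fun x => ⟨Pq k l x, by rw [mem_sphere_zero_iff_norm, Pq_norm, norm_coe]⟩, by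
    obtain ⟨L, hL⟩ := Pq_lip k l
    exact (hL.continuous.comp continuous_subtype_val).subtype_mk _⟩

theorem P_coe (k l : ℤ) (x : S3) : ((P k l x : S3) : ℍ[ℝ]) = Pq k l x := rfl

theorem cone_P (k l : ℤ) : cone (vec (P k l)) = Pq k l := by
  funext x
  by_cases hx : x = 0
  · rw [hx, cone_zero]
    have := Pq_norm k l 0
    rw [norm_zero, norm_eq_zero] at this
    exact this.symm
  · rw [cone_ne _ hx]
    show ‖x‖ • Pq k l (‖x‖⁻¹ • x) = Pq k l x
    rw [← Pq_smul _ _ (norm_nonneg x), smul_inv_smul₀ (norm_ne_zero_iff.mpr hx)]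

theorem det_Pq (k l : ℤ) {q : ℍ[ℝ]} (h1 : (toC q).1 ≠ 0) (h2 : (toC q).2 ≠ 0) :
    (fderiv ℝ (Pq k l) q).det = k * l := by
  let e : ℍ[ℝ] ≃L[ℝ] ℂ × ℂ := toC.toContinuousLinearEquiv
  have d1 := (pk_diff k h1).hasFDerivAt
  have d2 := (pk_diff l h2).hasFDerivAt
  have d3 : HasFDerivAt (fun z : ℂ × ℂ => (pk k z.1, pk l z.2))
      ((fderiv ℝ (pk k) (toC q).1).prodMap (fderiv ℝ (pk l) (toC q).2)) (e q) :=
    HasFDerivAt.prodMap (e q) d1 d2
  have d4 : HasFDerivAt (Pq k l) ((e.symm : ℂ × ℂ →L[ℝ] ℍ[ℝ]).comp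
      (((fderiv ℝ (pk k) (toC q).1).prodMap (fderiv ℝ (pk l) (toC q).2)).comp
        (e : ℍ[ℝ] →L[ℝ] ℂ × ℂ))) q :=
    (e.symm.hasFDerivAt (x := (pk k (toC q).1, pk l (toC q).2))).comp q
      (d3.comp q e.hasFDerivAt)
  rw [d4.fderiv]
  have e1 : ((e.symm : ℂ × ℂ →L[ℝ] ℍ[ℝ]).comp
      (((fderiv ℝ (pk k) (toC q).1).prodMap (fderiv ℝ (pk l) (toC q).2)).comp
        (e : ℍ[ℝ] →L[ℝ] ℂ × ℂ))).det = LinearMap.det
        (((fderiv ℝ (pk k) (toC q).1 : ℂ →L[ℝ] ℂ) : ℂ →ₗ[ℝ] ℂ).prodMap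
          ((fderiv ℝ (pk l) (toC q).2 : ℂ →L[ℝ] ℂ) : ℂ →ₗ[ℝ] ℂ)) :=
    LinearMap.det_conj (((fderiv ℝ (pk k) (toC q).1 : ℂ →L[ℝ] ℂ) : ℂ →ₗ[ℝ] ℂ).prodMap
          ((fderiv ℝ (pk l) (toC q).2 : ℂ →L[ℝ] ℂ) : ℂ →ₗ[ℝ] ℂ)) toC.symm
  rw [e1, LinearMap.det_prodMap]
  exact congrArg₂ (· * ·) (det_pk k h1) (det_pk l h2)

/-- **degree of the power maps** -/
theorem deg_P (k l : ℤ) : deg (P k l) = k * l := by
  obtain ⟨L, hL⟩ := Pq_lip k l
  rw [← cone_P] at hL
  refine deg_of_det hL (k * l) {q | (toC q).1 ≠ 0 ∧ (toC q).2 ≠ 0} ?_ ?_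
  · letI : MeasurableSpace ℍ[ℝ] := borel ℍ[ℝ]
    haveI : BorelSpace ℍ[ℝ] := ⟨rfl⟩
    show (Measure.addHaar : Measure ℍ[ℝ]) _ = 0
    have h1 : (Measure.addHaar : Measure ℍ[ℝ])
        ((LinearMap.ker ((LinearMap.fst ℝ ℂ ℂ) ∘ₗ (toC : ℍ[ℝ] →ₗ[ℝ] ℂ × ℂ)) : Submodule ℝ ℍ[ℝ]) :
          Set ℍ[ℝ]) = 0 := by
      apply Measure.addHaar_submodule
      intro htop
      have h3 : toC.symm ((1 : ℂ), (0 : ℂ)) ∈
          LinearMap.ker ((LinearMap.fst ℝ ℂ ℂ) ∘ₗ (toC : ℍ[ℝ] →ₗ[ℝ] ℂ × ℂ)) := by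
        rw [htop]; trivial
      rw [LinearMap.mem_ker] at h3
      simp at h3
    have h2 : (Measure.addHaar : Measure ℍ[ℝ])
        ((LinearMap.ker ((LinearMap.snd ℝ ℂ ℂ) ∘ₗ (toC : ℍ[ℝ] →ₗ[ℝ] ℂ × ℂ)) : Submodule ℝ ℍ[ℝ]) :
          Set ℍ[ℝ]) = 0 := by
      apply Measure.addHaar_submodule
      intro htop
      have h3 : toC.symm ((0 : ℂ), (1 : ℂ)) ∈
          LinearMap.ker ((LinearMap.snd ℝ ℂ ℂ) ∘ₗ (toC : ℍ[ℝ] →ₗ[ℝ] ℂ × ℂ)) := by
        rw [htop]; trivial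
      rw [LinearMap.mem_ker] at h3
      simp at h3
    refine measure_mono_null ?_ (measure_union_null h1 h2)
    intro q hq
    by_cases ha : (toC q).1 = 0
    · exact Or.inl ha
    · refine Or.inr ?_
      by_contra hb
      exact hq ⟨ha, hb⟩
  · intro q hq
    rw [cone_P, det_Pq k l hq.1 hq.2]
    push_cast
    rfl

end Pool.Agent.Helper90.Deg
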