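import Mathlib
import Pool.Agent.Helper90.Deg.Power

/-! # Maps of products of three-spheres: additivity and the weight formula for circle actions. -/

open MeasureTheory Module Filter Topology Set Metric
open scoped NNReal ENNReal ContDiff Quaternion

set_option linter.unusedSectionVars false
set_option linter.unusedVariables false
set_option linter.style.haveILetI false

namespace Pool.Agent.Helper90.Deg

section pi

variable {ι : Type*} [Fintype ι] [DecidableEq ι]

/-- the map `x ↦ (x on s, b off s)` -/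
noncomputable def onF (s : Finset ι) (b : ι → S3) : C(S3, ι → S3) :=
  ContinuousMap.pi fun j => if j ∈ s then ContinuousMap.id S3 else ContinuousMap.const S3 (b j)

theorem onF_apply (s : Finset ι) (b : ι → S3) (x : S3) (j : ι) :
    onF s b x j = if j ∈ s then x else b j := by
  show (if j ∈ s then ContinuousMap.id S3 else ContinuousMap.const S3 (b j)) x = _
  split_ifs <;> rfl

theorem onF_homotopic (s : Finset ι) (b b' : ι → S3) :
    ContinuousMap.Homotopic (onF s b) (onF s b') := by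
  have h : ∀ j, ContinuousMap.Homotopic
      (if j ∈ s then ContinuousMap.id S3 else ContinuousMap.const S3 (b j))
      (if j ∈ s then ContinuousMap.id S3 else ContinuousMap.const S3 (b' j)) := by
    intro j
    split_ifs
    · exact ContinuousMap.Homotopic.refl _
    · exact const_homotopic finrank_quat _ _
  exact ⟨ContinuousMap.Homotopy.pi fun j => (h j).some⟩

/-- additivity over a finite set of coordinates -/
theorem deg_onF (f : C(ι → S3, S3)) (b : ι → S3) (s : Finset ι) :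
    deg (f.comp (onF s b)) = ∑ j ∈ s, deg (f.comp (onF {j} b)) := by
  induction s using Finset.induction_on with
  | empty =>
    rw [Finset.sum_empty]
    have : f.comp (onF ∅ b) = ContinuousMap.const S3 (f b) := by
      refine ContinuousMap.ext fun x => ?_
      show f (onF ∅ b x) = f b
      have : onF ∅ b x = b := by
        funext j
        rw [onF_apply, if_neg (Finset.notMem_empty j)]
      rw [this]
    rw [this, deg_const]
  | insert i s hi ih =>
    rw [Finset.sum_insert hi, ← ih]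
    let H : C(S3 × S3, ι → S3) := ContinuousMap.pi fun j =>
      if j = i then ContinuousMap.snd else if j ∈ s then ContinuousMap.fst
        else ContinuousMap.const _ (b j)
    have hH : ∀ p j, H p j = if j = i then p.2 else if j ∈ s then p.1 else b j := by
      intro p j
      show (if j = i then ContinuousMap.snd else if j ∈ s then ContinuousMap.fst
        else ContinuousMap.const _ (b j)) p = _
      split_ifs <;> rfl
    have h := deg_diag finrank_quat (f.comp H) (b i) 1
    have e0 : (f.comp H).comp ((ContinuousMap.id _).prodMk (ContinuousMap.id _)) =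
        f.comp (onF (insert i s) b) := by
      refine ContinuousMap.ext fun x => ?_
      show f (H (x, x)) = f (onF (insert i s) b x)
      congr 1
      funext j
      rw [hH, onF_apply]
      by_cases h1 : j = i
      · simp [h1]
      · by_cases h2 : j ∈ s
        · simp [h1, h2]
        · simp [h1, h2]
    have e1 : (f.comp H).comp ((ContinuousMap.id _).prodMk (ContinuousMap.const _ (b i))) =
        f.comp (onF s b) := by
      refine ContinuousMap.ext fun x => ?_
      show f (H (x, b i)) = f (onF s b x)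
      congr 1
      funext j
      rw [hH, onF_apply]
      by_cases h1 : j = i
      · subst h1; simp [hi]
      · simp [h1]
    have e2 : (f.comp H).comp ((ContinuousMap.const _ 1).prodMk (ContinuousMap.id _)) =
        f.comp (onF {i} (fun j => if j ∈ s then 1 else b j)) := by
      refine ContinuousMap.ext fun x => ?_
      show f (H (1, x)) = f (onF {i} (fun j => if j ∈ s then 1 else b j) x)
      congr 1
      funext j
      rw [hH, onF_apply]
      by_cases h1 : j = i
      · simp [h1]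
      · simp [h1]
    have e3 : deg (f.comp (onF {i} (fun j => if j ∈ s then 1 else b j))) =
        deg (f.comp (onF {i} b)) :=
      deg_homotopic ((ContinuousMap.Homotopic.refl f).comp (onF_homotopic _ _ _))
    rw [e0, e1, e2, e3] at h
    rw [h, add_comm]

/-- partial degree in the `j`-th variable -/
noncomputable def pdeg (f : C(ι → S3, S3)) (j : ι) : ℤ := deg (f.comp (onF {j} 1))

theorem pdeg_eq (f : C(ι → S3, S3)) (j : ι) (b : ι → S3) : deg (f.comp (onF {j} b)) = pdeg f j :=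
  deg_homotopic ((ContinuousMap.Homotopic.refl f).comp (onF_homotopic _ _ _))

/-- product map -/
noncomputable def piMap (φ : ι → C(S3, S3)) : C(ι → S3, ι → S3) :=
  ContinuousMap.pi fun j => (φ j).comp (ContinuousMap.eval j)

theorem piMap_apply (φ : ι → C(S3, S3)) (x : ι → S3) (j : ι) : piMap φ x j = φ j (x j) := rfl

/-- the map `x ↦ (φ_j x)_j` -/
theorem deg_comp_pi (f : C(ι → S3, S3)) (φ : ι → C(S3, S3)) :
    deg (f.comp (ContinuousMap.pi φ)) = ∑ j, pdeg f j * deg (φ j) := by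
  have h := deg_onF (f.comp (piMap φ)) 1 Finset.univ
  have e0 : (f.comp (piMap φ)).comp (onF Finset.univ 1) = f.comp (ContinuousMap.pi φ) := by
    refine ContinuousMap.ext fun x => ?_
    show f (piMap φ (onF Finset.univ 1 x)) = f (fun j => φ j x)
    congr 1
    funext j
    rw [piMap_apply, onF_apply, if_pos (Finset.mem_univ j)]
  rw [e0] at h
  rw [h]
  refine Finset.sum_congr rfl fun j _ => ?_
  have e1 : (f.comp (piMap φ)).comp (onF {j} 1) =
      (f.comp (onF {j} fun i => φ i 1)).comp (φ j) := by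
    refine ContinuousMap.ext fun x => ?_
    show f (piMap φ (onF {j} 1 x)) = f (onF {j} (fun i => φ i 1) (φ j x))
    congr 1
    funext i
    rw [piMap_apply, onF_apply, onF_apply]
    by_cases h1 : i = j
    · subst h1; simp
    · simp [h1]
  rw [e1, deg_comp, pdeg_eq]

end pi

/-- unit complex numbers as unit quaternions -/
noncomputable def cS (ζ : sphere (0 : ℂ) 1) : S3 :=
  ⟨toC.symm ((ζ : ℂ), 0), by
    rw [mem_sphere_zero_iff_norm]
    have h := norm_toC (toC.symm ((ζ : ℂ), (0 : ℂ)))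
    rw [LinearEquiv.apply_symm_apply, norm_zero, mem_sphere_zero_iff_norm.mp ζ.2] at h
    have h0 := norm_nonneg (toC.symm ((ζ : ℂ), (0 : ℂ)))
    nlinarith⟩

/-- action of the circle with weights `(m, n)` on the complex coordinates -/
noncomputable def ta (m n : ℤ) (ζ : sphere (0 : ℂ) 1) (x : S3) : S3 :=
  ⟨toC.symm ((ζ : ℂ) ^ m * (toC (x : ℍ[ℝ])).1, (ζ : ℂ) ^ n * (toC (x : ℍ[ℝ])).2), by
    rw [mem_sphere_zero_iff_norm]
    have h := norm_toC (toC.symm ((ζ : ℂ) ^ m * (toC (x : ℍ[ℝ])).1, (ζ : ℂ) ^ n * (toC (x : ℍ[ℝ])).2))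
    rw [LinearEquiv.apply_symm_apply, norm_mul, norm_mul, norm_zpow, norm_zpow,
      mem_sphere_zero_iff_norm.mp ζ.2, one_zpow, one_zpow, one_mul, one_mul, ← norm_toC,
      norm_coe] at h
    have h0 := norm_nonneg
      (toC.symm ((ζ : ℂ) ^ m * (toC (x : ℍ[ℝ])).1, (ζ : ℂ) ^ n * (toC (x : ℍ[ℝ])).2))
    nlinarith⟩

theorem toC_ta (m n : ℤ) (ζ : sphere (0 : ℂ) 1) (x : S3) :
    toC (ta m n ζ x : ℍ[ℝ]) = ((ζ : ℂ) ^ m * (toC (x : ℍ[ℝ])).1, (ζ : ℂ) ^ n * (toC (x : ℍ[ℝ])).2) := by
  rw [ta, LinearEquiv.apply_symm_apply]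

theorem S3_ext {x y : S3} (h : toC (x : ℍ[ℝ]) = toC (y : ℍ[ℝ])) : x = y :=
  Subtype.ext (toC.injective h)

theorem toC_cS (ζ : sphere (0 : ℂ) 1) : toC (cS ζ : ℍ[ℝ]) = ((ζ : ℂ), 0) := by
  rw [cS, LinearEquiv.apply_symm_apply]

/-- the product in complex coordinates -/
theorem toC_mul (x y : ℍ[ℝ]) : toC (x * y) =
    ((toC x).1 * (toC y).1 - (toC x).2 * (starRingEnd ℂ) (toC y).2,
      (toC x).1 * (toC y).2 + (toC x).2 * (starRingEnd ℂ) (toC y).1) := by
  refine Prod.ext (Complex.ext ?_ ?_) (Complex.ext ?_ ?_) <;> simp [toC_apply] <;> ring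

/-- equivariance of the power maps -/
theorem P_ta (k l m n : ℤ) (ζ : sphere (0 : ℂ) 1) (x : S3) :
    P k l (ta m n ζ x) = ta (k * m) (l * n) ζ (P k l x) := by
  apply S3_ext
  have hz : ‖(ζ : ℂ)‖ = 1 := mem_sphere_zero_iff_norm.mp ζ.2
  rw [toC_ta, P_coe, P_coe, toC_Pq, toC_Pq, toC_ta]
  simp only
  rw [pk_mul k _ (by rw [norm_zpow, hz, one_zpow]), pk_mul l _ (by rw [norm_zpow, hz, one_zpow]),
    ← zpow_mul, ← zpow_mul, mul_comm m, mul_comm n]

theorem toC_one : toC (1 : ℍ[ℝ]) = (1, 0) := by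
  refine Prod.ext (Complex.ext ?_ ?_) (Complex.ext ?_ ?_) <;> simp [toC_apply]

theorem cS_mul (ζ ξ : sphere (0 : ℂ) 1) : cS (ζ * ξ) = cS ζ * cS ξ := by
  apply S3_ext
  have h1 : ((cS ζ * cS ξ : S3) : ℍ[ℝ]) = (cS ζ : ℍ[ℝ]) * (cS ξ : ℍ[ℝ]) := rfl
  rw [h1, toC_cS, Metric.unitSphere.coe_mul, toC_mul, toC_cS, toC_cS]
  simp

theorem cS_one : cS 1 = 1 := by
  apply S3_ext
  rw [toC_cS]
  show _ = toC (1 : ℍ[ℝ])
  rw [toC_one]
  rfl

theorem cS_pow (ζ : sphere (0 : ℂ) 1) (k : ℕ) : cS (ζ ^ k) = cS ζ ^ k := by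
  induction k with
  | zero => rw [pow_zero, pow_zero, cS_one]
  | succ k ih => rw [pow_succ, pow_succ, cS_mul, ih]

theorem cS_inv (ζ : sphere (0 : ℂ) 1) : cS ζ⁻¹ = (cS ζ)⁻¹ := by
  rw [eq_inv_iff_mul_eq_one, ← cS_mul, inv_mul_cancel, cS_one]

theorem cS_zpow (ζ : sphere (0 : ℂ) 1) (k : ℤ) : cS (ζ ^ k) = cS ζ ^ k := by
  cases k with
  | ofNat k => rw [Int.ofNat_eq_natCast, zpow_natCast, zpow_natCast, cS_pow]
  | negSucc k => rw [zpow_negSucc, zpow_negSucc, cS_inv, cS_pow]

theorem coe_zpow_circle (ζ : sphere (0 : ℂ) 1) (k : ℤ) :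
    ((ζ ^ k : sphere (0 : ℂ) 1) : ℂ) = (ζ : ℂ) ^ k := by
  cases k with
  | ofNat k => rw [Int.ofNat_eq_natCast, zpow_natCast, zpow_natCast, Metric.unitSphere.coe_pow]
  | negSucc k =>
    rw [zpow_negSucc, zpow_negSucc, Metric.unitSphere.coe_inv, Metric.unitSphere.coe_pow]

theorem toC_cS_zpow (ζ : sphere (0 : ℂ) 1) (k : ℤ) : toC ((cS ζ ^ k : S3) : ℍ[ℝ]) = ((ζ : ℂ) ^ k, 0) := by
  rw [← cS_zpow, toC_cS, coe_zpow_circle]

/-- the torus action as two sided multiplication -/
theorem ta_eq (α β : ℤ) (ζ : sphere (0 : ℂ) 1) (x : S3) :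
    ta (α + β) (α - β) ζ x = cS ζ ^ α * x * cS ζ ^ β := by
  apply S3_ext
  have hz : ‖(ζ : ℂ)‖ = 1 := mem_sphere_zero_iff_norm.mp ζ.2
  have hz0 : (ζ : ℂ) ≠ 0 := by rw [← norm_ne_zero_iff, hz]; exact one_ne_zero
  have hconj : (starRingEnd ℂ) ((ζ : ℂ) ^ β) = (ζ : ℂ) ^ (-β) := by
    rw [map_zpow₀, zpow_neg, ← inv_zpow]
    congr 1
    rw [Complex.inv_def, Complex.normSq_eq_norm_sq, hz]
    simp
  rw [toC_ta, Metric.unitSphere.coe_mul, Metric.unitSphere.coe_mul, toC_mul, toC_mul, toC_cS_zpow,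
    toC_cS_zpow, hconj, zpow_add₀ hz0, zpow_sub₀ hz0, zpow_neg]
  simp only [zero_mul, sub_zero, add_zero, map_zero, mul_zero, zero_add]
  refine Prod.ext ?_ ?_
  · simp only; ring
  · simp only [div_eq_mul_inv]; ring

theorem ta_left (α : ℤ) (ζ : sphere (0 : ℂ) 1) (x : S3) : ta α α ζ x = cS ζ ^ α * x := by
  have := ta_eq α 0 ζ x
  rwa [add_zero, sub_zero, zpow_zero, mul_one] at this

/-- invariance under the Hopf circle action forces degree zero -/
theorem deg_eq_zero_of_circle (f : C(S3, S3)) (h : ∀ ζ x, f (ta 1 1 ζ x) = f x) : deg f = 0 := by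
  have hdvd : ∀ m : ℕ, 0 < m → (m : ℤ) ∣ deg f := by
    intro m hm
    have hmne : m ≠ 0 := hm.ne'
    have hprim := Complex.isPrimitiveRoot_exp m hmne
    set z : ℂ := Complex.exp (2 * Real.pi * Complex.I / m) with hz
    have hzn : ‖z‖ = 1 := hprim.norm'_eq_one hmne
    let ζ : sphere (0 : ℂ) 1 := ⟨z, mem_sphere_zero_iff_norm.mpr hzn⟩
    have hζm : ζ ^ m = 1 := by
      apply Subtype.ext
      rw [Metric.unitSphere.coe_pow]
      exact hprim.pow_eq_one
    have hum : cS ζ ^ m = 1 := by rw [← cS_pow, hζm, cS_one]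
    refine dvd_deg_rot f (cS ζ) 1 m hm ?_ ?_ 1 ?_ ?_
    · rw [hum, one_pow, one_mul]
    · intro x; rw [hum, one_mul, mul_one]
    · intro k hk1 hk2 hcon
      rw [one_pow, mul_one, mul_one, ← cS_pow] at hcon
      have h1 := congrArg (fun x : S3 => (toC (x : ℍ[ℝ])).1) hcon
      simp only [toC_cS] at h1
      have h2 : (toC ((1 : S3) : ℍ[ℝ])).1 = 1 := by
        show (toC (1 : ℍ[ℝ])).1 = 1
        rw [toC_one]
      rw [h2, Metric.unitSphere.coe_pow] at h1
      exact hprim.pow_ne_one_of_pos_of_lt hk1.ne' hk2 h1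
    · intro x
      rw [mul_one]
      have := h ζ x
      rw [ta_left, zpow_one] at this
      exact this
  by_contra hne
  have h1 := hdvd ((deg f).natAbs + 1) (Nat.succ_pos _)
  have h2 := Int.le_of_dvd (abs_pos.mpr hne) ((dvd_abs _ _).mpr h1)
  rw [Int.abs_eq_natAbs] at h2
  push_cast at h2
  omega

/-- degree of an equivariant self-map -/
theorem deg_of_equivariant (g : C(S3, S3)) (α β : ℤ)
    (h : ∀ ζ x, g (ta 1 1 ζ x) = cS ζ ^ α * g x * cS ζ ^ β) : deg g = α ^ 2 - β ^ 2 := by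
  have h0 : deg ((P α α)⁻¹ * g * P (-β) (-β)) = 0 := by
    apply deg_eq_zero_of_circle
    intro ζ x
    show (P α α (ta 1 1 ζ x))⁻¹ * g (ta 1 1 ζ x) * P (-β) (-β) (ta 1 1 ζ x) =
      (P α α x)⁻¹ * g x * P (-β) (-β) x
    rw [P_ta, P_ta, h, mul_one, mul_one, ta_left, ta_left, mul_inv_rev, zpow_neg]
    group
  rw [deg_mul, deg_mul, deg_inv, deg_P, deg_P] at h0
  linarith

/-- **Weight formula.** If `f : (S³)^ι → S³` is equivariant for the circle acting with weights
`(m_j, n_j)` on the source and by `x ↦ ζ^α x ζ^β` on the target, then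
`∑ m_j n_j pdeg_j f = α² - β²`. -/
theorem weight_formula {ι : Type*} [Fintype ι] [DecidableEq ι] (f : C(ι → S3, S3))
    (m n : ι → ℤ) (α β : ℤ)
    (h : ∀ ζ x, f (fun j => ta (m j) (n j) ζ (x j)) = cS ζ ^ α * f x * cS ζ ^ β) :
    ∑ j, pdeg f j * (m j * n j) = α ^ 2 - β ^ 2 := by
  have h1 := deg_comp_pi f (fun j => P (m j) (n j))
  simp only [deg_P] at h1
  rw [← h1]
  apply deg_of_equivariant
  intro ζ x
  show f (fun j => P (m j) (n j) (ta 1 1 ζ x)) = cS ζ ^ α * f (fun j => P (m j) (n j) x) * cS ζ ^ β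
  rw [← h ζ]
  congr 1
  funext j
  rw [P_ta, mul_one, mul_one]

end Pool.Agent.Helper90.Deg
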